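import Pool.Agent.V8H55.MD.BMEq
import Pool.Agent.TH219.DL.Pigeon
import Pool.Agent.TH219.DL.Fary

/-!
# Centrally symmetric convex bodies have lattice packings of density at least `0.41`
-/

namespace Pool.Agent.V8H55.MD

open MeasureTheory Set Filter Topology
open scoped ENNReal Pointwise
open Pool.Agent.H349R2.Tet (V tr Bl Packs packs_iff dt lat Ov dens dens_eq deltaL)
open Pool.Agent.TH219.DL (Body cs pr cs_cont pr_cs cs_pr pr_cont interior_push dL dL_eq fary pigeon)

theorem vol_low {K : Set V} (hK : Body K) (hs : ∀ x ∈ K, -x ∈ K) {α β : ℝ}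
    (hsec : ∀ s, (sc K s).Nonempty ↔ s ∈ Icc α β) {σ Q : ℝ} (hσ : 0 < σ) (hσβ : σ ≤ β)
    (hQ0 : 0 ≤ Q) (hQ : Q ≤ Real.sqrt (ar3 K σ)) (h0 : (sc K 0).Nonempty) :
    ENNReal.ofReal (2 * σ * (Real.sqrt (ar3 K 0) ^ 2 + Real.sqrt (ar3 K 0) * Q + Q ^ 2) / 3)
      ≤ volume K := by
  set F := Real.sqrt (ar3 K 0) with hF
  have hF0 : 0 ≤ F := Real.sqrt_nonneg _
  have hconc := sqrt_concave hK.1 hK.2.1 hsec
  have hsym : ∀ s, ar3 K (-s) = ar3 K s := by
    intro s
    have : sc K (-s) = -(sc K s) := by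
      ext x
      show cs (-s) x ∈ K ↔ cs s (-x) ∈ K
      have e : cs s (-x) = -cs (-s) x := by
        symm
        apply Pool.Agent.TH219.DL.cs_ext <;> simp
      rw [e]
      constructor
      · exact hs _
      · intro h
        have := hs _ h
        rwa [neg_neg] at this
    unfold ar3
    rw [this, Measure.measure_neg]
  have hmem0 : (0 : ℝ) ∈ Icc α β := (hsec 0).1 h0
  have hmemσ : σ ∈ Icc α β := ⟨hmem0.1.trans hσ.le, hσβ⟩
  set h : ℝ → ℝ := fun s => (F + (Q - F) * (|s| / σ)) ^ 2 with hh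
  have hpt : ∀ s ∈ Icc 0 σ, h s ≤ ar3 K s := by
    intro s hs'
    have h1 : 0 ≤ s / σ := div_nonneg hs'.1 hσ.le
    have h2 : s / σ ≤ 1 := (div_le_one hσ).2 hs'.2
    have h3 := hconc.2 hmem0 hmemσ (by linarith : (0 : ℝ) ≤ 1 - s / σ) h1 (by ring)
    simp only [smul_eq_mul, mul_zero, zero_add] at h3
    rw [div_mul_cancel₀ _ hσ.ne'] at h3
    have h4 : F + (Q - F) * (|s| / σ) ≤ Real.sqrt (ar3 K s) := by
      rw [abs_of_nonneg hs'.1]
      have : s / σ * Q ≤ s / σ * Real.sqrt (ar3 K σ) := mul_le_mul_of_nonneg_left hQ h1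
      nlinarith
    have h5 : 0 ≤ F + (Q - F) * (|s| / σ) := by
      rw [abs_of_nonneg hs'.1]
      have := mul_nonneg hF0 (by linarith : (0 : ℝ) ≤ 1 - s / σ)
      have := mul_nonneg h1 hQ0
      nlinarith
    calc h s = (F + (Q - F) * (|s| / σ)) ^ 2 := rfl
      _ ≤ Real.sqrt (ar3 K s) ^ 2 := pow_le_pow_left₀ h5 h4 2
      _ = ar3 K s := Real.sq_sqrt ENNReal.toReal_nonneg
  have hpt2 : ∀ s ∈ Ioc (-σ) σ, h s ≤ ar3 K s := by
    intro s hs'
    rcases le_total 0 s with h1 | h1
    · exact hpt s ⟨h1, hs'.2⟩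
    · have h2 := hpt (-s) ⟨by linarith, by linarith [hs'.1]⟩
      rw [hsym] at h2
      have e : h (-s) = h s := by simp only [hh, abs_neg]
      rwa [e] at h2
  have hcont : Continuous h := by fun_prop
  have hint : ∫ s in (-σ)..σ, h s = 2 * σ * (F ^ 2 + F * Q + Q ^ 2) / 3 := by
    have h1 : ∫ s in (0 : ℝ)..σ, h s = σ * (F ^ 2 + F * Q + Q ^ 2) / 3 := by
      have h2 : ∫ s in (0 : ℝ)..σ, h s = ∫ s in (0 : ℝ)..σ, (F + (Q - F) * (s / σ)) ^ 2 := by
        refine intervalIntegral.integral_congr fun s hs' => ?_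
        rw [uIcc_of_le hσ.le] at hs'
        simp only [hh, abs_of_nonneg hs'.1]
      rw [h2]
      have h3 : ∀ s ∈ uIcc (0 : ℝ) σ, HasDerivAt
          (fun s : ℝ => F ^ 2 * s + F * (Q - F) / σ * s ^ 2 + (Q - F) ^ 2 / (3 * σ ^ 2) * s ^ 3)
          ((F + (Q - F) * (s / σ)) ^ 2) s := by
        intro s _
        have a1 := (hasDerivAt_id s).const_mul (F ^ 2)
        have a2 := (hasDerivAt_pow 2 s).const_mul (F * (Q - F) / σ)
        have a3 := (hasDerivAt_pow 3 s).const_mul ((Q - F) ^ 2 / (3 * σ ^ 2))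
        have a4 := (a1.add a2).add a3
        refine a4.congr_deriv ?_
        simp only [Nat.cast_ofNat]
        field_simp
        ring
      rw [intervalIntegral.integral_eq_sub_of_hasDerivAt h3
        ((by fun_prop : Continuous fun s : ℝ => (F + (Q - F) * (s / σ)) ^ 2).intervalIntegrable _ _)]
      field_simp
      ring
    have h2 : ∫ s in (-σ)..(0 : ℝ), h s = ∫ s in (0 : ℝ)..σ, h s := by
      have := intervalIntegral.integral_comp_neg (a := 0) (b := σ) h
      rw [neg_zero] at this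
      rw [← this]
      refine intervalIntegral.integral_congr fun s _ => ?_
      simp only [hh, abs_neg]
    rw [← intervalIntegral.integral_add_adjacent_intervals (hcont.intervalIntegrable (-σ) 0)
      (hcont.intervalIntegrable 0 σ), h2, h1]
    ring
  rw [← hint, intervalIntegral.integral_of_le (by linarith),
    ofReal_integral_eq_lintegral_ofReal (hcont.integrableOn_Ioc) (ae_of_all _ fun s => sq_nonneg _),
    (slices hK.1.measurableSet).2]
  refine le_trans ?_ (setLIntegral_le_lintegral (Ioc (-σ) σ) _)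
  refine setLIntegral_mono' measurableSet_Ioc fun s hs' => ?_
  have e : volume (sc K s) = ENNReal.ofReal (ar3 K s) :=
    (ENNReal.ofReal_toReal (sc_compact hK.1 s).measure_ne_top).symm
  rw [e]
  exact ENNReal.ofReal_le_ofReal (hpt2 s hs')

/-- basis with a planar sublattice -/
def bg (τ : ℝ) (g u w : Fin 2 → ℝ) : Fin 3 → V := ![cs τ g, cs 0 u, cs 0 w]

theorem dt_bg (τ : ℝ) (g u w : Fin 2 → ℝ) : dt (bg τ g u w) = τ * (u 0 * w 1 - u 1 * w 0) := by
  unfold dt bg
  rw [Matrix.det_fin_three]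
  simp
  ring

theorem int_low {K : Set V} {β : ℝ} (hβ : ∀ x ∈ K, x 0 ≤ β) {x : V} (hx : x ∈ interior K) :
    x 0 < β := by
  obtain ⟨ε, hε, h⟩ := interior_push hx (cs 1 0)
  have := hβ _ h
  simp at this
  linarith

theorem int_neg {K : Set V} (hs : ∀ x ∈ K, -x ∈ K) {x : V} (hx : x ∈ interior K) :
    -x ∈ interior K := by
  have h1 : -K = K := by
    ext y
    constructor
    · intro h
      have := hs _ h
      rwa [neg_neg] at this
    · intro h; exact hs _ h
  have h : interior (-K) = -interior K := ((Homeomorph.neg V).preimage_interior K).symm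
  rw [h1] at h
  rw [h]
  simpa using hx

theorem sym_packs {K : Set V} (hK : Body K) (hs : ∀ x ∈ K, -x ∈ K) {β τ : ℝ}
    (hβ : ∀ x ∈ K, x 0 ≤ β) (hτ : 0 < τ) (hτβ : β ≤ τ) {g u w : Fin 2 → ℝ}
    (hD : 0 < u 0 * w 1 - u 1 * w 0)
    (hadm : ∀ m n : ℤ, (m ≠ 0 ∨ n ≠ 0) → ∃ p q : ℝ, (p ≠ 0 ∨ q ≠ 0) ∧
        ∀ x ∈ sc K 0, ∀ y ∈ sc K 0, p * (x 0 - y 0) + q * (x 1 - y 1)
          ≤ p * (m * u 0 + n * w 0) + q * (m * u 1 + n * w 1))
    (hg : ∀ m n : ℤ, cs (τ / 2) ((1 / 2 : ℝ) • (g + ((m : ℝ) • u + (n : ℝ) • w))) ∉ interior K) :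
    Packs K (bg τ g u w) := by
  rw [packs_iff]
  refine ⟨?_, ?_⟩
  · rw [dt_bg]; positivity
  · rintro v ⟨z, rfl⟩ hv0 ⟨x, hx, hxv⟩
    set v : V := ∑ i, (z i : ℝ) • bg τ g u w i with hv
    have v0 : v 0 = z 0 * τ := by
      rw [hv]; simp [Fin.sum_univ_three, bg]
    have v1 : v 1 = z 0 * g 0 + z 1 * u 0 + z 2 * w 0 := by
      rw [hv]; simp [Fin.sum_univ_three, bg]
    have v2 : v 2 = z 0 * g 1 + z 1 * u 1 + z 2 * w 1 := by
      rw [hv]; simp [Fin.sum_univ_three, bg]
    have hhalf : (1 / 2 : ℝ) • v ∈ interior K := by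
      have h1 := int_neg hs hxv
      have h2 := hK.2.1.interior hx h1 (a := 1 / 2) (b := 1 / 2) (by norm_num) (by norm_num)
        (by norm_num)
      have e : (1 / 2 : ℝ) • x + (1 / 2 : ℝ) • -(x - v) = (1 / 2 : ℝ) • v := by module
      rwa [e] at h2
    have hneg := int_neg hs hhalf
    have hh1 := int_low hβ hhalf
    have hh2 := int_low hβ hneg
    simp only [Pi.smul_apply, Pi.neg_apply, smul_eq_mul, v0] at hh1 hh2
    have hz2 : z 0 = 0 ∨ z 0 = 1 ∨ z 0 = -1 := by
      by_contra hcon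
      push Not at hcon
      obtain ⟨c1, c2, c3⟩ := hcon
      have : 2 ≤ z 0 ∨ z 0 ≤ -2 := by omega
      rcases this with h | h
      · have h' : (2 : ℝ) ≤ z 0 := by exact_mod_cast h
        nlinarith
      · have h' : (z 0 : ℝ) ≤ -2 := by exact_mod_cast h
        nlinarith
    rcases hz2 with h | h | h
    · -- the planar lattice
      rw [h] at v0 v1 v2
      simp only [Int.cast_zero, zero_mul, zero_add] at v0 v1 v2
      have h12 : z 1 ≠ 0 ∨ z 2 ≠ 0 := by
        by_contra hcon
        push Not at hcon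
        apply hv0
        funext i
        fin_cases i
        · exact v0
        · show v 1 = 0
          rw [v1, hcon.1, hcon.2]; simp
        · show v 2 = 0
          rw [v2, hcon.1, hcon.2]; simp
      obtain ⟨p, q, hpq, hf⟩ := hadm _ _ h12
      obtain ⟨ε, hε, hxε⟩ := interior_push hhalf (cs 0 ![p, q])
      have hpr : ∀ y : V, y 0 = 0 → y ∈ K → pr y ∈ sc K 0 := by
        intro y hy0 hy
        show cs 0 _ ∈ K
        rw [← hy0, cs_pr]; exact hy
      have h1 : pr ((1 / 2 : ℝ) • v + ε • cs 0 ![p, q]) ∈ sc K 0 :=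
        hpr _ (by simp [v0]) hxε
      have h2 : pr (-((1 / 2 : ℝ) • v)) ∈ sc K 0 :=
        hpr _ (by simp [v0]) (interior_subset hneg)
      have h3 := hf _ h1 _ h2
      simp only [Pool.Agent.TH219.DL.pr_zero, Pool.Agent.TH219.DL.pr_one, Pi.add_apply,
        Pi.smul_apply, Pi.neg_apply, smul_eq_mul, Pool.Agent.TH219.DL.cs_one,
        Pool.Agent.TH219.DL.cs_two, Matrix.cons_val_zero, Matrix.cons_val_one, v1, v2] at h3
      have h4 : 0 < p ^ 2 + q ^ 2 := by
        rcases hpq with h | h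
        · have := sq_pos_of_ne_zero h; positivity
        · have := sq_pos_of_ne_zero h; positivity
      nlinarith [mul_pos hε h4]
    · apply hg (z 1) (z 2)
      have e : cs (τ / 2) ((1 / 2 : ℝ) • (g + (((z 1 : ℤ) : ℝ) • u + ((z 2 : ℤ) : ℝ) • w)))
          = (1 / 2 : ℝ) • v := by
        symm
        apply Pool.Agent.TH219.DL.cs_ext
        · simp only [Pi.smul_apply, smul_eq_mul, v0, h]; push_cast; ring
        · simp only [Pi.smul_apply, smul_eq_mul, v1, h, Pi.add_apply]; push_cast; ring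
        · simp only [Pi.smul_apply, smul_eq_mul, v2, h, Pi.add_apply]; push_cast; ring
      rw [e]; exact hhalf
    · apply hg (-z 1) (-z 2)
      have e : cs (τ / 2) ((1 / 2 : ℝ) • (g + (((-z 1 : ℤ) : ℝ) • u + ((-z 2 : ℤ) : ℝ) • w)))
          = -((1 / 2 : ℝ) • v) := by
        symm
        apply Pool.Agent.TH219.DL.cs_ext
        · simp only [Pi.smul_apply, Pi.neg_apply, smul_eq_mul, v0, h]; push_cast; ring
        · simp only [Pi.smul_apply, Pi.neg_apply, smul_eq_mul, v1, h, Pi.add_apply]; push_cast; ring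
        · simp only [Pi.smul_apply, Pi.neg_apply, smul_eq_mul, v2, h, Pi.add_apply]; push_cast; ring
      rw [e]; exact hneg

/-- a convex body that is symmetric about the origin has a lattice packing of density `0.41` -/
theorem sym_low0 {K : Set V} (hK : Body K) (hs : ∀ x ∈ K, -x ∈ K) :
    ENNReal.ofReal 0.41 ≤ dL K := by
  obtain ⟨α, β, h, hsec, -, -⟩ := exists_prf hK
  -- symmetry of the projection
  have hint0 : (0 : V) ∈ interior K := by
    obtain ⟨p, hp⟩ := hK.2.2
    have h2 := hK.2.1.interior hp (int_neg hs hp) (a := 1 / 2) (b := 1 / 2) (by norm_num)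
      (by norm_num) (by norm_num)
    have e : (1 / 2 : ℝ) • p + (1 / 2 : ℝ) • -p = 0 := by module
    rwa [e] at h2
  have hcs0 : cs 0 (0 : Fin 2 → ℝ) = (0 : V) := by
    funext i; fin_cases i <;> rfl
  have hS0 : (sc K 0).Nonempty := ⟨0, by show cs 0 0 ∈ K; rw [hcs0]; exact interior_subset hint0⟩
  have hβK : ∀ x ∈ K, x 0 ≤ β := by
    intro x hx
    have : x 0 ∈ Icc α β := (hsec _).1 ⟨pr x, by show cs _ _ ∈ K; rw [cs_pr]; exact hx⟩
    exact this.2
  have hβ0 : 0 < β := int_low hβK hint0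
  have hαβ : α = -β := by
    have h1 : -β ∈ Icc α β := by
      obtain ⟨x, hx⟩ := (hsec β).2 (right_mem_Icc.2 h.lt.le)
      apply (hsec _).1
      refine ⟨-x, ?_⟩
      show cs (-β) (-x) ∈ K
      have e : cs (-β) (-x) = -cs β x := by
        symm
        apply Pool.Agent.TH219.DL.cs_ext <;> simp
      rw [e]; exact hs _ hx
    have h2 : -α ∈ Icc α β := by
      obtain ⟨x, hx⟩ := (hsec α).2 (left_mem_Icc.2 h.lt.le)
      apply (hsec _).1
      refine ⟨-x, ?_⟩
      show cs (-α) (-x) ∈ K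
      have e : cs (-α) (-x) = -cs α x := by
        symm
        apply Pool.Agent.TH219.DL.cs_ext <;> simp
      rw [e]; exact hs _ hx
    linarith [h1.1, h2.2]
  -- the planar lattice
  have hS0i : (interior (sc K 0)).Nonempty := by
    have hopen : IsOpen ((fun x : Fin 2 → ℝ => cs 0 x) ⁻¹' interior K) :=
      isOpen_interior.preimage (cs_cont' 0)
    refine ⟨0, mem_interior.2 ⟨_, ?_, hopen, ?_⟩⟩
    · intro x hx
      have hx' : cs 0 x ∈ interior K := hx
      show cs 0 x ∈ K
      exact interior_subset hx'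
    · show cs 0 0 ∈ interior K
      rw [hcs0]; exact hint0
  obtain ⟨u, w, hD, hDle, hadm⟩ := fary (sc_convex hK.2.1 0) (sc_compact hK.1 0) hS0i
  set D := u 0 * w 1 - u 1 * w 0 with hDdef
  have hD2 : D ≤ 3 / 2 * ar3 K 0 := by
    have e : volume (sc K 0) = ENNReal.ofReal (ar3 K 0) :=
      (ENNReal.ofReal_toReal (sc_compact hK.1 0).measure_ne_top).symm
    rw [e, ← ENNReal.ofReal_mul (by norm_num)] at hDle
    exact (ENNReal.ofReal_le_ofReal_iff
      (mul_nonneg (by norm_num) ENNReal.toReal_nonneg)).1 hDle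
  set F := Real.sqrt (ar3 K 0) with hF
  have hF0 : 0 ≤ F := Real.sqrt_nonneg _
  have hF2 : F ^ 2 = ar3 K 0 := Real.sq_sqrt ENNReal.toReal_nonneg
  set q := Real.sqrt D with hq
  have hq0 : 0 < q := Real.sqrt_pos.2 hD
  have hq2 : q ^ 2 = D := Real.sq_sqrt hD.le
  have hFq : 816 / 1000 * q ≤ F := by
    apply le_of_pow_le_pow_left₀ (two_ne_zero) hF0
    rw [mul_pow, hF2, hq2]
    nlinarith
  set P := 45 / 100 * q with hP
  have hP0 : 0 < P := by positivity
  have hPF : P < F := by rw [hP]; linarith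
  have hconc := sqrt_concave hK.1 hK.2.1 hsec
  have hfc : ContinuousOn (fun s => Real.sqrt (ar3 K s)) (Ioo α β) := h.cont.sqrt
  -- density of a packing
  have hdens : ∀ (τ : ℝ) (g : Fin 2 → ℝ) (W : ℝ), 0 < τ → Packs K (bg τ g u w) →
      ENNReal.ofReal W ≤ volume K → 41 / 100 * (τ * D) ≤ W → ENNReal.ofReal 0.41 ≤ dL K := by
    intro τ g W hτ hp hW hle
    rw [dL_eq]
    have h1 : dens K (bg τ g u w) ≤ deltaL K := by
      unfold deltaL
      exact le_iSup₂_of_le (bg τ g u w) hp le_rfl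
    refine le_trans ?_ h1
    have hpos : 0 < τ * D := mul_pos hτ hD
    rw [dens_eq _ hp.1 K hK.1, dt_bg, ← hDdef, abs_of_pos hpos]
    rw [ENNReal.le_div_iff_mul_le (Or.inl (by
      rw [ne_eq, ENNReal.ofReal_eq_zero, not_le]; exact hpos)) (Or.inl ENNReal.ofReal_ne_top),
      ← ENNReal.ofReal_mul (by norm_num)]
    refine le_trans (ENNReal.ofReal_le_ofReal ?_) hW
    refine le_trans (le_of_eq ?_) hle
    norm_num
  -- the averaging argument
  have havg : ∀ τ : ℝ, 0 < τ → 4 * ar3 K (τ / 2) < D → ∃ g : Fin 2 → ℝ, ∀ m n : ℤ,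
      cs (τ / 2) ((1 / 2 : ℝ) • (g + ((m : ℝ) • u + (n : ℝ) • w))) ∉ interior K := by
    intro τ hτ hlt
    set S : Set (Fin 2 → ℝ) := (2 : ℝ) • sc K (τ / 2) with hS
    have hSc : IsCompact S := (sc_compact hK.1 _).smul 2
    have hSv : volume S = ENNReal.ofReal (4 * ar3 K (τ / 2)) := by
      rw [hS, Measure.addHaar_smul]
      have : Module.finrank ℝ (Fin 2 → ℝ) = 2 := by simp
      rw [this, ENNReal.ofReal_mul (by norm_num)]
      congr 1
      · norm_num
      · exact (ENNReal.ofReal_toReal (sc_compact hK.1 _).measure_ne_top).symm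
    obtain ⟨g, hg⟩ := pigeon u w hD (S.indicator 1) (measurable_one.indicator hSc.measurableSet)
      (by
        rw [lintegral_indicator_one hSc.measurableSet, hSv]
        exact (ENNReal.ofReal_lt_ofReal_iff hD).2 hlt)
    refine ⟨g, fun m n hmem => ?_⟩
    have h1 := ENNReal.le_tsum (f := fun z : ℤ × ℤ =>
      S.indicator (1 : (Fin 2 → ℝ) → ℝ≥0∞) (g + ((z.1 : ℝ) • u + (z.2 : ℝ) • w))) (m, n)
    have h2 := lt_of_le_of_lt h1 hg
    have h3 : g + ((m : ℝ) • u + (n : ℝ) • w) ∈ S := by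
      refine ⟨(1 / 2 : ℝ) • (g + ((m : ℝ) • u + (n : ℝ) • w)), ?_, ?_⟩
      · show cs _ _ ∈ K
        exact interior_subset hmem
      · simp only
        rw [smul_smul]; norm_num
    simp only at h2
    rw [indicator_of_mem h3] at h2
    exact absurd h2 (by simp)
  by_cases hcase : ∃ s ∈ Ioo 0 β, Real.sqrt (ar3 K s) < P
  · obtain ⟨s1, hs1, hs1P⟩ := hcase
    -- intermediate value
    have hsub : Icc 0 s1 ⊆ Ioo α β := by
      intro x hx
      rw [hαβ]
      exact ⟨by linarith [hx.1], by linarith [hx.2, hs1.2]⟩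
    obtain ⟨σ, hσ, hσP⟩ : P ∈ (fun s => Real.sqrt (ar3 K s)) '' Icc 0 s1 := by
      apply intermediate_value_Icc' hs1.1.le (hfc.mono hsub)
      exact ⟨hs1P.le, hPF.le⟩
    simp only at hσP
    have hσ0 : 0 < σ := by
      rcases hσ.1.lt_or_eq with h1 | h1
      · exact h1
      · exfalso
        rw [← h1] at hσP
        exact absurd hσP (ne_of_gt hPF)
    have hσβ : σ < β := lt_of_le_of_lt hσ.2 hs1.2
    have hσ2 : ar3 K σ = P ^ 2 := by
      rw [← hσP]; exact (Real.sq_sqrt ENNReal.toReal_nonneg).symm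
    have hPD : 4 * P ^ 2 < D := by
      rw [hP, mul_pow, hq2]
      nlinarith
    rcases le_total (β / 2) σ with hc | hc
    · -- `τ = 2 σ`
      obtain ⟨g, hg⟩ := havg (2 * σ) (by positivity) (by
        rw [mul_div_cancel_left₀ _ two_ne_zero, hσ2]; exact hPD)
      have hp := sym_packs hK hs hβK (τ := 2 * σ) (by positivity) (by linarith) hD hadm hg
      refine hdens _ g _ (by positivity) hp (vol_low hK hs hsec hσ0 hσβ.le hP0.le hσP.ge hS0) ?_
      rw [← hF]
      have h1 : 816 / 1000 * q * P ≤ F * P := mul_le_mul_of_nonneg_right hFq hP0.le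
      have h2 : (816 / 1000 * q) ^ 2 ≤ F ^ 2 := pow_le_pow_left₀ (by positivity) hFq 2
      have h3 : 41 / 100 * D ≤ (F ^ 2 + F * P + P ^ 2) / 3 := by
        rw [← hq2]
        have : P = 45 / 100 * q := hP
        nlinarith
      nlinarith
    · -- `τ = β`
      have hmono : ar3 K (β / 2) ≤ P ^ 2 := by
        have hmem0 : (0 : ℝ) ∈ Icc α β := by rw [hαβ]; constructor <;> linarith
        have hmem2 : β / 2 ∈ Icc α β := by rw [hαβ]; constructor <;> linarith
        have hmemn : -(β / 2) ∈ Icc α β := by rw [hαβ]; constructor <;> linarith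
        have hb : 0 < β / 2 := by linarith
        -- the central section is the largest
        have hsymv : ar3 K (-(β / 2)) = ar3 K (β / 2) := by
          have : sc K (-(β / 2)) = -(sc K (β / 2)) := by
            ext x
            show cs (-(β / 2)) x ∈ K ↔ cs (β / 2) (-x) ∈ K
            have e : cs (β / 2) (-x) = -cs (-(β / 2)) x := by
              symm
              apply Pool.Agent.TH219.DL.cs_ext <;> simp
            rw [e]
            constructor
            · exact hs _
            · intro h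
              have := hs _ h
              rwa [neg_neg] at this
          unfold ar3
          rw [this, Measure.measure_neg]
        have hmax : Real.sqrt (ar3 K (β / 2)) ≤ F := by
          have h3 := hconc.2 hmem2 hmemn (by norm_num : (0 : ℝ) ≤ 1 / 2)
            (by norm_num : (0 : ℝ) ≤ 1 / 2) (by norm_num)
          simp only [smul_eq_mul] at h3
          rw [hsymv] at h3
          have e : 1 / 2 * (β / 2) + 1 / 2 * -(β / 2) = 0 := by ring
          rw [e] at h3
          linarith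
        have hl0 : 0 ≤ σ / (β / 2) := div_nonneg hσ0.le hb.le
        have hl1 : σ / (β / 2) ≤ 1 := (div_le_one hb).2 hc
        have h3 := hconc.2 hmem0 hmem2 (by linarith : (0 : ℝ) ≤ 1 - σ / (β / 2)) hl0 (by ring)
        simp only [smul_eq_mul, mul_zero, zero_add] at h3
        rw [div_mul_cancel₀ _ hb.ne', hσP] at h3
        have h4 : Real.sqrt (ar3 K (β / 2)) ≤ P := by
          refine le_trans ?_ h3
          have := mul_nonneg (by linarith : (0 : ℝ) ≤ 1 - σ / (β / 2))
            (by linarith : (0 : ℝ) ≤ F - Real.sqrt (ar3 K (β / 2)))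
          nlinarith
        have h5 := pow_le_pow_left₀ (Real.sqrt_nonneg _) h4 2
        rwa [Real.sq_sqrt (show 0 ≤ ar3 K (β / 2) from ENNReal.toReal_nonneg)] at h5
      obtain ⟨g, hg⟩ := havg β hβ0 (by linarith)
      have hp := sym_packs hK hs hβK (τ := β) hβ0 le_rfl hD hadm hg
      refine hdens _ g _ hβ0 hp (vol_low hK hs hsec hβ0 le_rfl (le_refl (0 : ℝ))
        (Real.sqrt_nonneg _) hS0) ?_
      rw [← hF, hF2]
      nlinarith
  · -- `τ = 2 β`
    push Not at hcase
    have hp := sym_packs hK hs hβK (τ := 2 * β) (by positivity) (by linarith) hD hadm (g := 0)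
      (by
        intro m n hmem
        have := int_low hβK hmem
        rw [mul_div_cancel_left₀ _ two_ne_zero] at this
        simp at this)
    have hσ0 : 0 < 999 / 1000 * β := by positivity
    refine hdens _ 0 _ (by positivity) hp (vol_low hK hs hsec hσ0 (by linarith) hP0.le
      (hcase _ ⟨hσ0, by linarith⟩) hS0) ?_
    rw [← hF]
    have h1 : 816 / 1000 * q * P ≤ F * P := mul_le_mul_of_nonneg_right hFq hP0.le
    have h2 : (816 / 1000 * q) ^ 2 ≤ F ^ 2 := pow_le_pow_left₀ (by positivity) hFq 2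
    have h3 : 411 / 1000 * D ≤ (F ^ 2 + F * P + P ^ 2) / 3 := by
      rw [← hq2]
      have : P = 45 / 100 * q := hP
      nlinarith
    nlinarith

end Pool.Agent.V8H55.MD
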