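import Pool.Agent.V8H55.MD.Local
import Pool.Agent.V8H55.MD.Sym
import Pool.Agent.TH219.DL.TUp
import Pool.Agent.H349R2.Tet.Final2

/-!
# Minimisers of the translative and the lattice packing density
-/

namespace Pool.Agent.V8H55.MD

open MeasureTheory Set Filter Topology
open scoped ENNReal Pointwise
open Pool.Agent.H349R2.Tet (V tr Bl T bl_measurable pack_interior_tr)
open Pool.Agent.TH219.DL (Body interior_push dL dT mn den mem IsPack dL_eq dL_le_dT dT_T T_body
  lattice_low)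

theorem dL_pos {K : Set V} (hK : Body K) : dL K ≠ 0 := by
  have h := lattice_low hK.1 hK.2.1 hK.2.2
  rw [← dL_eq] at h
  intro h0
  rw [h0] at h
  simp at h
  norm_num at h

theorem dT_pos {K : Set V} (hK : Body K) : dT K ≠ 0 := by
  intro h
  have h1 := dL_le_dT K
  rw [h] at h1
  exact dL_pos hK (le_antisymm h1 bot_le)

theorem dT_le_one {K : Set V} (hK : Body K) : dT K ≤ 1 := by
  unfold dT
  refine iSup₂_le fun S hS => ?_
  obtain ⟨hfalse, hpack⟩ := hS
  have hsum : ∀ r : ℝ, 0 < r → ∑' p : S, volume (mem K p.1 ∩ Bl r) ≤ volume (Bl r) := by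
    intro r hr
    have hnull : ∀ p : S, volume (mem K p.1 ∩ Bl r) ≤ volume (interior (mem K p.1) ∩ Bl r) := by
      intro p
      rw [mem_false_eq _ (hfalse _ p.2)]
      have hcv : Convex ℝ (tr K p.1.2) := by
        have h2 : tr K p.1.2 = (fun x : V => p.1.2 + x) '' K := by
          apply Set.image_congr
          intro x _
          exact add_comm _ _
        rw [h2]
        exact hK.2.1.translate _
      have hcl : IsClosed (tr K p.1.2) :=
        (hK.1.image (continuous_id.add continuous_const)).isClosed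
      have hsub : tr K p.1.2 ∩ Bl r ⊆ (interior (tr K p.1.2) ∩ Bl r) ∪ frontier (tr K p.1.2) := by
        rintro x ⟨hx, hxr⟩
        by_cases h : x ∈ interior (tr K p.1.2)
        · exact Or.inl ⟨h, hxr⟩
        · right
          rw [hcl.frontier_eq]
          exact ⟨hx, h⟩
      calc volume (tr K p.1.2 ∩ Bl r)
          ≤ volume ((interior (tr K p.1.2) ∩ Bl r) ∪ frontier (tr K p.1.2)) := measure_mono hsub
        _ ≤ volume (interior (tr K p.1.2) ∩ Bl r) + volume (frontier (tr K p.1.2)) :=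
          measure_union_le _ _
        _ = _ := by rw [hcv.addHaar_frontier volume, add_zero]
    calc ∑' p : S, volume (mem K p.1 ∩ Bl r)
        ≤ ∑' p : S, volume (interior (mem K p.1) ∩ Bl r) := ENNReal.tsum_le_tsum hnull
      _ ≤ volume (⋃ p : S, interior (mem K p.1) ∩ Bl r) := by
          apply tsum_meas_le_meas_iUnion_of_disjoint
          · intro p; exact (isOpen_interior.measurableSet).inter (bl_measurable _)
          · intro p q hpq
            have hne : p.1 ≠ q.1 := fun e => hpq (Subtype.ext e)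
            exact (hpack p.1 p.2 q.1 q.2 hne).mono Set.inter_subset_left Set.inter_subset_left
      _ ≤ volume (Bl r) := measure_mono (Set.iUnion_subset fun p => Set.inter_subset_right)
  unfold den
  have h1 : limsup (fun _ : ℝ => (1 : ℝ≥0∞)) atTop = 1 := limsup_const 1
  rw [← h1]
  apply limsup_le_limsup
  · filter_upwards [eventually_gt_atTop 0] with r hr
    rw [ENNReal.div_le_iff (vol_bl_ne_zero hr) (vol_bl_ne_top hr), one_mul]
    exact hsum r hr
  · exact Filter.isCobounded_le_of_bot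
  · exact Filter.isBounded_le_of_top

theorem dT_ne_top {K : Set V} (hK : Body K) : dT K ≠ ∞ :=
  ne_top_of_le_ne_top ENNReal.one_ne_top (dT_le_one hK)

theorem dL_ne_top {K : Set V} (hK : Body K) : dL K ≠ ∞ :=
  ne_top_of_le_ne_top (dT_ne_top hK) (dL_le_dT K)

theorem lt_of_cmp {v v' d d' : ℝ≥0∞} (hv : v ≠ ∞) (hd0 : d ≠ 0) (hd : d ≠ ∞)
    (h : v * d' ≤ v' * d) (hlt : v' < v) : d' < d := by
  by_contra hcon
  push Not at hcon
  have h1 : v * d ≤ v' * d := (mul_le_mul_right hcon v).trans h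
  have h2 : v' * d < v * d := ENNReal.mul_lt_mul_left hd0 hd hlt
  exact absurd (lt_of_le_of_lt h1 h2) (lt_irrefl _)

theorem dT_lt {K K' : Set V} (hK : Body K) (hK' : Body K') (h : DLe K K')
    (hv : volume K' < volume K) : dT K' < dT K :=
  lt_of_cmp (vol_ne_top hK) (dT_pos hK) (dT_ne_top hK) (dT_cmp hK hK' h) hv

theorem dL_lt {K K' : Set V} (hK : Body K) (hK' : Body K') (h : DLe K K')
    (hv : volume K' < volume K) : dL K' < dL K :=
  lt_of_cmp (vol_ne_top hK) (dL_pos hK) (dL_ne_top hK) (dL_cmp hK hK' h) hv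

/-! ### translations -/

theorem body_tr {K : Set V} (hK : Body K) (c : V) : Body (tr K c) := by
  refine ⟨hK.1.image (continuous_id.add continuous_const), ?_, ?_⟩
  · have h2 : tr K c = (fun x : V => c + x) '' K := by
      apply Set.image_congr
      intro x _
      exact add_comm _ _
    rw [h2]
    exact hK.2.1.translate _
  · obtain ⟨p, hp⟩ := hK.2.2
    refine ⟨p + c, ?_⟩
    rw [pack_interior_tr]
    exact ⟨p, hp, rfl⟩

theorem mem_tr {K : Set V} {c x : V} : x ∈ tr K c ↔ x - c ∈ K := by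
  constructor
  · rintro ⟨y, hy, rfl⟩
    simpa using hy
  · intro h
    exact ⟨x - c, h, by simp⟩

theorem smooth_tr {K : Set V} (hS : Smooth K) (c : V) : Smooth (tr K c) := by
  intro x hx u v hu hv h1 h2
  rw [mem_tr] at hx
  refine hS _ hx u v hu hv ?_ ?_
  · intro y hy
    have := h1 (y + c) ⟨y, hy, rfl⟩
    rw [ip_add] at this
    rw [ip_sub]
    linarith
  · intro y hy
    have := h2 (y + c) ⟨y, hy, rfl⟩
    rw [ip_add] at this
    rw [ip_sub]
    linarith

theorem csym_tr {K : Set V} {c : V} (h : CSym (tr K c)) : CSym K := by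
  obtain ⟨d, hd⟩ := h
  refine ⟨d - c - c, fun x hx => ?_⟩
  have h1 := hd (x + c) ⟨x, hx, rfl⟩
  rw [mem_tr] at h1
  have e : d - c - c - x = d - (x + c) - c := by abel
  rw [e]; exact h1

/-- smooth bodies without a centre of symmetry are not local minimisers -/
theorem exists_smaller {K : Set V} (hK : Body K) (hS : Smooth K) (hns : ¬ CSym K)
    {ε : ℝ} (hε : 0 < ε) :
    ∃ K' : Set V, Body K' ∧ DLe K K' ∧ volume K' < volume K ∧
      (∀ x ∈ K', ∃ y ∈ K, dist x y < ε) ∧ (∀ y ∈ K, ∃ x ∈ K', dist x y < ε) := by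
  obtain ⟨c, hc⟩ := hK.2.2
  have hK0 := body_tr hK (-c)
  have h0 : (0 : V) ∈ interior (tr K (-c)) := by
    rw [pack_interior_tr]
    exact ⟨c, hc, by simp⟩
  obtain ⟨K', h1, h2, h3, h4, h5⟩ := exists_smaller0 hK0 (smooth_tr hS (-c))
    (fun h => hns (csym_tr h)) h0 hε
  refine ⟨tr K' c, body_tr h1 c, ?_, ?_, ?_, ?_⟩
  · intro x hx y hy
    obtain ⟨x', hx', y', hy', e⟩ := h2 (x + -c) ⟨x, hx, rfl⟩ (y + -c) ⟨y, hy, rfl⟩
    refine ⟨x' + c, ⟨x', hx', rfl⟩, y' + c, ⟨y', hy', rfl⟩, ?_⟩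
    rw [add_sub_add_right_eq_sub] at e ⊢
    exact e
  · rw [vol_tr]
    rwa [vol_tr] at h3
  · rintro _ ⟨x, hx, rfl⟩
    obtain ⟨_, ⟨y, hy, rfl⟩, hd⟩ := h4 x hx
    refine ⟨y, hy, ?_⟩
    have e : dist (x + c) y = dist x (y + -c) := by
      rw [dist_eq_norm, dist_eq_norm]; congr 1; abel
    simp only
    rw [e]; exact hd
  · intro y hy
    obtain ⟨x, hx, hd⟩ := h5 (y + -c) ⟨y, hy, rfl⟩
    refine ⟨x + c, ⟨x, hx, rfl⟩, ?_⟩
    have e : dist (x + c) y = dist x (y + -c) := by
      rw [dist_eq_norm, dist_eq_norm]; congr 1; abel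
    rw [e]; exact hd

theorem dL_image_tr {K : Set V} (hK : Body K) (c : V) : dL (tr K c) = dL K := by
  have h := Pool.Agent.H349R2.Tet.deltaL_image hK.1 (LinearEquiv.refl ℝ V) c
  rw [dL_eq, dL_eq]
  exact h

/-- every centrally symmetric convex body has a lattice packing of density at least `0.41` -/
theorem sym_low {K : Set V} (hK : Body K) (hs : CSym K) : ENNReal.ofReal 0.41 ≤ dL K := by
  obtain ⟨d, hd⟩ := hs
  rw [← dL_image_tr hK (-((1 / 2 : ℝ) • d))]
  apply sym_low0 (body_tr hK _)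
  rintro _ ⟨x, hx, rfl⟩
  rw [mem_tr]
  have := hd x hx
  have e : -(x + -((1 / 2 : ℝ) • d)) - -((1 / 2 : ℝ) • d) = d - x := by module
  simp only
  rw [e]; exact this

theorem mn_dT_lt : mn dT < ENNReal.ofReal 0.41 := by
  refine lt_of_le_of_lt (iInf₂_le T T_body) (lt_of_le_of_lt dT_T ?_)
  rw [ENNReal.ofReal_lt_ofReal_iff (by norm_num)]
  norm_num

theorem mn_dL_lt : mn dL < ENNReal.ofReal 0.41 := by
  refine lt_of_le_of_lt (iInf₂_le T T_body) ?_
  exact lt_of_le_of_lt ((dL_le_dT T).trans dT_T) (by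
    rw [ENNReal.ofReal_lt_ofReal_iff (by norm_num)]
    norm_num)

/-- two convex bodies, one inside the other, of the same volume coincide -/
theorem eq_of_vol {A B : Set V} (hA : Body A) (hB : Body B) (h : A ⊆ B)
    (hv : volume B ≤ volume A) : A = B := by
  refine Set.Subset.antisymm h fun b hb => ?_
  by_contra hbA
  have hop : IsOpen (interior B \ A) := isOpen_interior.sdiff hA.1.isClosed
  have hne : (interior B \ A).Nonempty := by
    have h1 : b ∈ closure (interior B) := by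
      rw [hB.2.1.closure_interior_eq_closure_of_nonempty_interior hB.2.2]
      exact subset_closure hb
    obtain ⟨x, hx1, hx2⟩ := mem_closure_iff.1 h1 Aᶜ hA.1.isClosed.isOpen_compl hbA
    exact ⟨x, hx2, hx1⟩
  have hpos := hop.measure_pos volume hne
  have h2 : volume A + volume (interior B \ A) ≤ volume B := by
    rw [← measure_union disjoint_sdiff_right hop.measurableSet]
    apply measure_mono
    exact Set.union_subset h (Set.sdiff_subset.trans interior_subset)
  have h3 : volume A + volume (interior B \ A) ≤ volume A + 0 := by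
    rw [add_zero]; exact h2.trans hv
  have h4 := (ENNReal.add_le_add_iff_left (vol_ne_top hA)).1 h3
  exact absurd (lt_of_lt_of_le hpos h4) (lt_irrefl _)

/-- the half sum of two bodies that are at least as large as a body containing it -/
theorem half_sum {K K0 K1 : Set V} (hK : Body K) (h0 : Body K0) (h1 : Body K1)
    (hm : ∀ x ∈ K0, ∀ y ∈ K1, (1 / 2 : ℝ) • x + (1 / 2 : ℝ) • y ∈ K)
    (hv0 : volume K ≤ volume K0) (hv1 : volume K ≤ volume K1) :
    ∃ g0 g1 : V, K0 = tr K g0 ∧ K1 = tr K g1 := by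
  have hBM : volume K0 * volume K1 ≤ volume K ^ 2 := by
    obtain ⟨a, ha, ha3⟩ := cube_root (w := (volume K0).toReal) ENNReal.toReal_nonneg
    obtain ⟨b, hb, hb3⟩ := cube_root (w := (volume K1).toReal) ENNReal.toReal_nonneg
    have hfin : Module.finrank ℝ (Fin 3 → ℝ) = 3 := by simp
    have ne0 : K0.Nonempty := h0.2.2.mono interior_subset
    have ne1 : K1.Nonempty := h1.2.2.mono interior_subset
    have e : ∀ (S : Set V) (c : ℝ), c ^ 3 = (volume S).toReal →
        (1 / 2 * c) ^ 3 ≤ (volume ((1 / 2 : ℝ) • S)).toReal := by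
      intro S c hc
      rw [Measure.addHaar_smul, hfin, ENNReal.toReal_mul, ENNReal.toReal_ofReal (by positivity),
        abs_of_pos (by positivity), mul_pow, hc]
    have hbm := Pool.Agent.H748R2.KB.t_BM 3 ((1 / 2 : ℝ) • K0) ((1 / 2 : ℝ) • K1)
      (h0.1.smul _) (h1.1.smul _) ne0.smul_set ne1.smul_set (1 / 2 * a) (1 / 2 * b)
      (by positivity) (by positivity) (e K0 a ha3) (e K1 b hb3)
    have hsub : (1 / 2 : ℝ) • K0 + (1 / 2 : ℝ) • K1 ⊆ K := by
      rintro _ ⟨_, ⟨p, hp, rfl⟩, _, ⟨q, hq, rfl⟩, rfl⟩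
      exact hm p hp q hq
    have h2 : (1 / 2 * a + 1 / 2 * b) ^ 3 ≤ (volume K).toReal :=
      hbm.trans (ENNReal.toReal_mono (vol_ne_top hK) (measure_mono hsub))
    have h3 : a ^ 3 * b ^ 3 ≤ ((volume K).toReal) ^ 2 := by
      have h4 : a * b ≤ (1 / 2 * a + 1 / 2 * b) ^ 2 := by nlinarith [sq_nonneg (a - b)]
      have h5 : (a * b) ^ 3 ≤ ((1 / 2 * a + 1 / 2 * b) ^ 2) ^ 3 :=
        pow_le_pow_left₀ (mul_nonneg ha hb) h4 3
      have h6 : ((1 / 2 * a + 1 / 2 * b) ^ 3) ^ 2 ≤ ((volume K).toReal) ^ 2 :=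
        pow_le_pow_left₀ (by positivity) h2 2
      calc a ^ 3 * b ^ 3 = (a * b) ^ 3 := by ring
        _ ≤ ((1 / 2 * a + 1 / 2 * b) ^ 2) ^ 3 := h5
        _ = ((1 / 2 * a + 1 / 2 * b) ^ 3) ^ 2 := by ring
        _ ≤ _ := h6
    rw [ha3, hb3] at h3
    rw [← ENNReal.ofReal_toReal (vol_ne_top h0), ← ENNReal.ofReal_toReal (vol_ne_top h1),
      ← ENNReal.ofReal_toReal (vol_ne_top hK), ← ENNReal.ofReal_mul ENNReal.toReal_nonneg,
      ← ENNReal.ofReal_pow ENNReal.toReal_nonneg]
    exact ENNReal.ofReal_le_ofReal h3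
  have heq : ∀ v0 v1 v : ℝ≥0∞, v ≠ 0 → v ≠ ∞ → v ≤ v0 → v ≤ v1 → v0 * v1 ≤ v ^ 2 → v0 ≤ v := by
    intro v0 v1 v hv hv' a b c
    by_contra hcon
    push Not at hcon
    have : v ^ 2 < v0 * v1 := by
      rw [pow_two]
      calc v * v < v0 * v := ENNReal.mul_lt_mul_left hv hv' hcon
        _ ≤ v0 * v1 := mul_le_mul_right b v0
    exact absurd (lt_of_lt_of_le this c) (lt_irrefl _)
  have e0 : volume K0 = volume K :=
    le_antisymm (heq _ _ _ (vol_ne_zero hK) (vol_ne_top hK) hv0 hv1 hBM) hv0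
  have e1 : volume K1 = volume K :=
    le_antisymm (heq _ _ _ (vol_ne_zero hK) (vol_ne_top hK) hv1 hv0 (by rwa [mul_comm])) hv1
  obtain ⟨g, hg⟩ := bm_eq h0 h1 hK.1 hm (by rw [e0, e1]) (by rw [e0])
  have hg' : K1 = tr K0 g := hg
  -- `K = K0 + g / 2`
  have hsub : tr K0 ((1 / 2 : ℝ) • g) ⊆ K := by
    rintro _ ⟨x, hx, rfl⟩
    have hy : x + g ∈ K1 := by rw [hg]; exact ⟨x, hx, rfl⟩
    have := hm x hx _ hy
    have e : (1 / 2 : ℝ) • x + (1 / 2 : ℝ) • (x + g) = x + (1 / 2 : ℝ) • g := by module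
    rwa [e] at this
  have hKe : tr K0 ((1 / 2 : ℝ) • g) = K :=
    eq_of_vol (body_tr h0 _) hK hsub (by rw [vol_tr, e0])
  have htt : ∀ (S : Set V) (a b : V), tr (tr S a) b = tr S (a + b) := by
    intro S a b
    ext x
    rw [mem_tr, mem_tr, mem_tr]
    have : x - b - a = x - (a + b) := by abel
    rw [this]
  have htz : ∀ S : Set V, tr S 0 = S := by
    intro S
    ext x
    rw [mem_tr, sub_zero]
  refine ⟨-((1 / 2 : ℝ) • g), (1 / 2 : ℝ) • g, ?_, ?_⟩
  · rw [← hKe, htt, add_neg_cancel, htz]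
  · rw [← hKe, htt, hg']
    congr 1
    module

end Pool.Agent.V8H55.MD
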