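import Pool.Agent.V8H55.MD.Slice

/-!
# The case of equality in the Brunn-Minkowski inequality in space
-/

namespace Pool.Agent.V8H55.MD

open MeasureTheory Set Filter Topology
open scoped ENNReal Pointwise
open Pool.Agent.H349R2.Tet (V tr)
open Pool.Agent.TH219.DL (Body cs pr cs_cont pr_cs cs_pr pr_cont interior_push)

theorem sc_mid {K L C : Set V} (hK : IsCompact K) (hL : IsCompact L) (hC : IsCompact C)
    (hm : ∀ x ∈ K, ∀ y ∈ L, (1 / 2 : ℝ) • x + (1 / 2 : ℝ) • y ∈ C) {s t : ℝ}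
    (hs : (sc K s).Nonempty) (ht : (sc L t).Nonempty) :
    ENNReal.ofReal (Real.sqrt (ar3 K s * ar3 L t)) ≤ volume (sc C ((s + t) / 2)) := by
  have hBM := Pool.Agent.H748R2.KB.t_BM 2 ((1 / 2 : ℝ) • sc K s) ((1 / 2 : ℝ) • sc L t)
    ((sc_compact hK s).smul _) ((sc_compact hL t).smul _) hs.smul_set ht.smul_set
    (1 / 2 * Real.sqrt (ar3 K s)) (1 / 2 * Real.sqrt (ar3 L t)) (by positivity) (by positivity)
  have e : ∀ (s : ℝ) (S : Set (Fin 2 → ℝ)), 0 ≤ s → (s * Real.sqrt (volume S).toReal) ^ 2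
      ≤ (volume (s • S)).toReal := by
    intro s S hs
    rw [Measure.addHaar_smul, mul_pow, Real.sq_sqrt ENNReal.toReal_nonneg]
    have : Module.finrank ℝ (Fin 2 → ℝ) = 2 := by simp
    rw [this, abs_of_nonneg (by positivity), ENNReal.toReal_mul,
      ENNReal.toReal_ofReal (by positivity)]
  have h3 := hBM (e _ _ (by norm_num)) (e _ _ (by norm_num))
  have h4 : (1 / 2 * Real.sqrt (ar3 K s) + 1 / 2 * Real.sqrt (ar3 L t)) ^ 2
      ≤ ar3 C ((s + t) / 2) := by
    refine h3.trans ?_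
    apply ENNReal.toReal_mono (sc_compact hC _).measure_ne_top
    apply measure_mono
    rintro _ ⟨_, ⟨p, hp, rfl⟩, _, ⟨q, hq, rfl⟩, rfl⟩
    have h5 := hm _ hp _ hq
    rw [cs_comb] at h5
    show cs _ _ ∈ C
    have e2 : (s + t) / 2 = 1 / 2 * s + 1 / 2 * t := by ring
    rw [e2]
    exact h5
  have h5 : Real.sqrt (ar3 K s * ar3 L t) ≤ ar3 C ((s + t) / 2) := by
    refine le_trans ?_ h4
    rw [Real.sqrt_mul (show 0 ≤ ar3 K s from ENNReal.toReal_nonneg)]
    nlinarith [sq_nonneg (Real.sqrt (ar3 K s) - Real.sqrt (ar3 L t))]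
  have h6 : volume (sc C ((s + t) / 2)) = ENNReal.ofReal (ar3 C ((s + t) / 2)) :=
    (ENNReal.ofReal_toReal (sc_compact hC _).measure_ne_top).symm
  rw [h6]
  exact ENNReal.ofReal_le_ofReal h5

/-- the vertical direction -/
theorem dir0 {K L C : Set V} (hK : Body K) (hL : Body L) (hC : IsCompact C)
    (hm : ∀ x ∈ K, ∀ y ∈ L, (1 / 2 : ℝ) • x + (1 / 2 : ℝ) • y ∈ C)
    (hvol : volume K = volume L) (hle : volume C ≤ volume K) :
    ∃ c : ℝ, (∀ M, (∀ x ∈ K, x 0 ≤ M) → ∀ y ∈ L, y 0 ≤ M + c) ∧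
      (∀ M, (∀ y ∈ L, y 0 ≤ M) → ∀ x ∈ K, x 0 ≤ M - c) ∧
      ∫ y in L, y 0 = (∫ x in K, x 0) + c * (volume K).toReal := by
  obtain ⟨α, β, h, hsec, hmass, hzero⟩ := exists_prf hK
  obtain ⟨γ, δ, k, ksec, kmass, kzero⟩ := exists_prf hL
  have hmm : mass (ar3 K) α β = mass (ar3 L) γ δ := by rw [hmass, kmass, hvol]
  have hCC : ∀ s ∈ Ioo α β, ∀ t ∈ Ioo γ δ,
      ENNReal.ofReal (Real.sqrt (ar3 K s * ar3 L t)) ≤ volume (sc C ((s + t) / 2)) := by
    intro s hs t ht
    exact sc_mid hK.1 hL.1 hC hm ((hsec s).2 (Ioo_subset_Icc_self hs))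
      ((ksec t).2 (Ioo_subset_Icc_self ht))
  have hle' : ∫⁻ s, volume (sc C s) ≤ ENNReal.ofReal (mass (ar3 K) α β) := by
    rw [← (slices hC.measurableSet).2, hmass, ENNReal.ofReal_toReal (vol_ne_top hK)]
    exact hle
  obtain ⟨h1, h2⟩ := shift_eq h k hmm (fun s => volume (sc C s)) hCC hle'
  have hαβ := h.lt
  have mem1 : ∀ x ∈ K, x 0 ∈ Icc α β := by
    intro x hx
    apply (hsec _).1
    exact ⟨pr x, by show cs _ _ ∈ K; rw [cs_pr]; exact hx⟩
  have mem2 : ∀ x ∈ L, x 0 ∈ Icc γ δ := by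
    intro x hx
    apply (ksec _).1
    exact ⟨pr x, by show cs _ _ ∈ L; rw [cs_pr]; exact hx⟩
  refine ⟨γ - α, ?_, ?_, ?_⟩
  · intro M hM y hy
    obtain ⟨x, hx⟩ := (hsec β).2 (right_mem_Icc.2 h.lt.le)
    have h3 : β ≤ M := hM _ hx
    have h4 := (mem2 y hy).2
    linarith
  · intro M hM y hy
    obtain ⟨x, hx⟩ := (ksec δ).2 (right_mem_Icc.2 k.lt.le)
    have h3 : δ ≤ M := hM _ hx
    have h4 := (mem1 y hy).2
    linarith
  · rw [moment hK.1, moment hL.1]
    set c := γ - α with hc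
    have hae : ∀ᵐ s : ℝ, (s + c) * ar3 L (s + c) = s * ar3 K s + c * ar3 K s := by
      have h5 : ∀ᵐ s : ℝ, s ∉ ({α, β} : Set ℝ) :=
        measure_eq_zero_iff_ae_notMem.1 ((Set.toFinite {α, β}).measure_zero _)
      filter_upwards [h5] with s hs
      simp only [mem_insert_iff, mem_singleton_iff, not_or] at hs
      have hv : ar3 L (s + c) = ar3 K s := by
        by_cases hm : s ∈ Ioo α β
        · exact h2 s hm
        · have h3 : s ∉ Icc α β := fun h3 =>
            hm ⟨lt_of_le_of_ne h3.1 (Ne.symm hs.1), lt_of_le_of_ne h3.2 hs.2⟩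
          rw [hzero s h3, kzero]
          intro h4
          exact h3 ⟨by linarith [h4.1], by linarith [h4.2]⟩
      rw [hv]; ring
    have hsh := integral_add_right_eq_self (μ := (volume : Measure ℝ))
      (fun s : ℝ => s * ar3 L s) c
    rw [← hsh, integral_congr_ae hae]
    have hint1 : Integrable (ar3 K) := by
      have h6 : ∫⁻ s : ℝ, volume (sc K s) ≠ ∞ := by
        rw [← (slices hK.1.measurableSet).2]; exact vol_ne_top hK
      exact integrable_toReal_of_lintegral_ne_top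
        (slices hK.1.measurableSet).1.aemeasurable h6
    have hint2 : Integrable (fun s => s * ar3 K s) := by
      refine Integrable.mono' (hint1.const_mul (max |α| |β|))
        ((measurable_id.mul h.meas).aestronglyMeasurable) (ae_of_all _ fun s => ?_)
      rw [Real.norm_eq_abs, abs_mul, abs_of_nonneg (show 0 ≤ ar3 K s from ENNReal.toReal_nonneg)]
      by_cases hs : s ∈ Icc α β
      · exact mul_le_mul_of_nonneg_right (abs_le_max_abs_abs hs.1 hs.2) ENNReal.toReal_nonneg
      · rw [hzero s hs]; simp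
    rw [integral_add hint2 (hint1.const_mul c), integral_const_mul]
    congr 2
    show ∫ s, (volume (sc K s)).toReal = _
    rw [integral_toReal (slices hK.1.measurableSet).1.aemeasurable
      (ae_of_all _ fun s => (sc_compact hK.1 s).measure_lt_top),
      ← (slices hK.1.measurableSet).2]

/-- inner product -/
def ip (u x : Fin 3 → ℝ) : ℝ := u 0 * x 0 + u 1 * x 1 + u 2 * x 2

theorem ip_cont : Continuous fun p : V × V => ip p.1 p.2 := by
  unfold ip
  fun_prop

/-- a linear isomorphism whose first coordinate is the inner product with `v` -/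
theorem exists_lin (v : V) (hv : v ≠ 0) : ∃ L : V ≃ₗ[ℝ] V, ∀ x, (L x) 0 = ip v x := by
  classical
  obtain ⟨j, hj⟩ : ∃ j, v j ≠ 0 := by
    by_contra h
    push Not at h
    exact hv (funext h)
  have key : ∀ (M : Matrix (Fin 3) (Fin 3) ℝ), M 0 = v → M.det ≠ 0 →
      ∃ L : V ≃ₗ[ℝ] V, ∀ x, (L x) 0 = ip v x := by
    intro M hM hdet
    have hu : IsUnit M.det := isUnit_iff_ne_zero.2 hdet
    refine ⟨Matrix.toLin'OfInv (Matrix.nonsing_inv_mul M hu)
      (Matrix.mul_nonsing_inv M hu), fun x => ?_⟩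
    rw [Matrix.toLin'OfInv_apply]
    simp only [Matrix.toLin'_apply, Matrix.mulVec, dotProduct, Fin.sum_univ_three, hM, ip]
  fin_cases j
  · refine key ![v, ![0, 1, 0], ![0, 0, 1]] rfl ?_
    rw [Matrix.det_fin_three]
    simpa using hj
  · refine key ![v, ![1, 0, 0], ![0, 0, 1]] rfl ?_
    rw [Matrix.det_fin_three]
    simpa using hj
  · refine key ![v, ![1, 0, 0], ![0, 1, 0]] rfl ?_
    rw [Matrix.det_fin_three]
    simpa using hj

theorem ip_add (u x y : V) : ip u (x + y) = ip u x + ip u y := by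
  simp only [ip, Pi.add_apply]; ring

theorem ip_sub (u x y : V) : ip u (x - y) = ip u x - ip u y := by
  simp only [ip, Pi.sub_apply]; ring

theorem ip_smul (u : V) (a : ℝ) (x : V) : ip u (a • x) = a * ip u x := by
  simp only [ip, Pi.smul_apply, smul_eq_mul]; ring

theorem ip_neg_left (u x : V) : ip (-u) x = -ip u x := by
  simp only [ip, Pi.neg_apply]; ring

/-- every continuous linear functional is an inner product -/
theorem exists_ip (f : V →L[ℝ] ℝ) : ∃ u : V, ∀ x, f x = ip u x := by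
  refine ⟨fun i => f (Pi.single i 1), fun x => ?_⟩
  have h : x = x 0 • (Pi.single 0 1 : V) + x 1 • (Pi.single 1 1 : V) + x 2 • (Pi.single 2 1 : V) := by
    funext i
    fin_cases i <;> simp
  conv_lhs => rw [h]
  rw [map_add, map_add, map_smul, map_smul, map_smul]
  simp only [ip, smul_eq_mul]
  ring

/-- a set is contained in a closed convex set if it is so in every direction -/
theorem sub_of_ip {A B : Set V} (hA : IsClosed A) (hc : Convex ℝ A)
    (h : ∀ v : V, ∀ b ∈ B, ∃ a ∈ A, ip v b ≤ ip v a) : B ⊆ A := by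
  intro b hb
  by_contra hbA
  obtain ⟨f, u, h1, h2⟩ := geometric_hahn_banach_closed_point hc hA hbA
  obtain ⟨v, hv⟩ := exists_ip f
  obtain ⟨a, ha, hab⟩ := h v b hb
  have h3 := h1 a ha
  rw [hv] at h3 h2
  linarith

theorem ip_single (x : V) (i : Fin 3) : ip (Pi.single i 1) x = x i := by
  unfold ip
  fin_cases i <;> simp

/-- any direction -/
theorem dirv {K L C : Set V} (hK : Body K) (hL : Body L) (hC : IsCompact C)
    (hm : ∀ x ∈ K, ∀ y ∈ L, (1 / 2 : ℝ) • x + (1 / 2 : ℝ) • y ∈ C)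
    (hvol : volume K = volume L) (hle : volume C ≤ volume K) (v : V) (hv : v ≠ 0) :
    ∃ c : ℝ, (∀ M, (∀ x ∈ K, ip v x ≤ M) → ∀ y ∈ L, ip v y ≤ M + c) ∧
      (∀ M, (∀ y ∈ L, ip v y ≤ M) → ∀ x ∈ K, ip v x ≤ M - c) ∧
      ∫ y in L, ip v y = (∫ x in K, ip v x) + c * (volume K).toReal := by
  obtain ⟨Λ, hΛ⟩ := exists_lin v hv
  have hcont : Continuous Λ := LinearMap.continuous_of_finiteDimensional (Λ : V →ₗ[ℝ] V)
  have hdet : LinearMap.det (Λ : V →ₗ[ℝ] V) ≠ 0 := by
    have := Λ.isUnit_det'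
    exact this.ne_zero
  set d : ℝ := |LinearMap.det (Λ : V →ₗ[ℝ] V)| with hd
  have hd0 : 0 < d := abs_pos.2 hdet
  have hvolI : ∀ S : Set V, volume (Λ '' S) = ENNReal.ofReal d * volume S := by
    intro S
    exact Measure.addHaar_image_linearMap volume (Λ : V →ₗ[ℝ] V) S
  have hbody : ∀ {S : Set V}, Body S → Body (Λ '' S) := by
    intro S hS
    refine ⟨hS.1.image hcont, hS.2.1.linear_image (Λ : V →ₗ[ℝ] V), ?_⟩
    obtain ⟨p, hp⟩ := hS.2.2
    have hopen : IsOpenMap Λ := by
      have := (Λ : V →ₗ[ℝ] V).isOpenMap_of_finiteDimensional Λ.surjective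
      exact this
    exact ⟨Λ p, (hopen.image_interior_subset S) ⟨p, hp, rfl⟩⟩
  have hint : ∀ S : Set V, MeasurableSet S →
      ∫ y in Λ '' S, y 0 = d * ∫ x in S, ip v x := by
    intro S hS
    have h1 := integral_image_eq_integral_abs_det_fderiv_smul volume hS
      (f := fun x => Λ x) (f' := fun _ => (Λ.toContinuousLinearEquiv : V →L[ℝ] V))
      (fun x _ => (Λ.toContinuousLinearEquiv : V →L[ℝ] V).hasFDerivAt.hasFDerivWithinAt)
      Λ.injective.injOn (fun y => y 0)
    rw [h1]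
    simp only [smul_eq_mul]
    rw [← integral_const_mul]
    refine setIntegral_congr_fun hS fun x _ => ?_
    rw [hΛ]
    rfl
  obtain ⟨c, h1, h2, h3⟩ := dir0 (hbody hK) (hbody hL) (hC.image hcont) (by
    rintro _ ⟨x, hx, rfl⟩ _ ⟨y, hy, rfl⟩
    refine ⟨_, hm x hx y hy, ?_⟩
    rw [map_add, map_smul, map_smul]) (by rw [hvolI, hvolI, hvol])
    (by rw [hvolI, hvolI]; exact mul_le_mul_right hle _)
  refine ⟨c, ?_, ?_, ?_⟩
  · intro M hM y hy
    have := h1 M (by
      rintro _ ⟨x, hx, rfl⟩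
      rw [hΛ]; exact hM x hx) (Λ y) ⟨y, hy, rfl⟩
    rwa [hΛ] at this
  · intro M hM y hy
    have := h2 M (by
      rintro _ ⟨x, hx, rfl⟩
      rw [hΛ]; exact hM x hx) (Λ y) ⟨y, hy, rfl⟩
    rwa [hΛ] at this
  · rw [hint _ hK.1.measurableSet, hint _ hL.1.measurableSet, hvolI, ENNReal.toReal_mul,
      ENNReal.toReal_ofReal hd0.le] at h3
    have h4 : d * (∫ y in L, ip v y) = d * ((∫ x in K, ip v x) + c * (volume K).toReal) := by
      rw [h3]; ring
    exact mul_left_cancel₀ hd0.ne' h4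

/-- **equality in the Brunn-Minkowski inequality**: two convex bodies of equal volume whose
half sum has at most the same volume are translates of each other -/
theorem bm_eq {K L C : Set V} (hK : Body K) (hL : Body L) (hC : IsCompact C)
    (hm : ∀ x ∈ K, ∀ y ∈ L, (1 / 2 : ℝ) • x + (1 / 2 : ℝ) • y ∈ C)
    (hvol : volume K = volume L) (hle : volume C ≤ volume K) :
    ∃ g : V, L = (fun x => x + g) '' K := by
  have hV : 0 < (volume K).toReal := ENNReal.toReal_pos (vol_ne_zero hK) (vol_ne_top hK)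
  set W := (volume K).toReal with hW
  -- the translation vector
  set g : V := fun i => ((∫ y in L, y i) - ∫ x in K, x i) / W with hg
  have hint : ∀ {S : Set V}, IsCompact S → ∀ i : Fin 3, IntegrableOn (fun y : V => y i) S :=
    fun hS i => (continuous_apply i).continuousOn.integrableOn_compact hS
  have hip : ∀ {S : Set V}, IsCompact S → ∀ v : V, ∫ y in S, ip v y =
      v 0 * (∫ y in S, y 0) + v 1 * (∫ y in S, y 1) + v 2 * (∫ y in S, y 2) := by
    intro S hS v
    unfold ip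
    have h12 := integral_add (μ := volume.restrict S) (f := fun y : V => v 0 * y 0 + v 1 * y 1)
      (g := fun y : V => v 2 * y 2) (((hint hS 0).const_mul (v 0)).add ((hint hS 1).const_mul (v 1)))
      ((hint hS 2).const_mul (v 2))
    have h13 := integral_add (μ := volume.restrict S) (f := fun y : V => v 0 * y 0)
      (g := fun y : V => v 1 * y 1) ((hint hS 0).const_mul (v 0)) ((hint hS 1).const_mul (v 1))
    rw [h12, h13, integral_const_mul, integral_const_mul, integral_const_mul]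
  have hc : ∀ v : V, v ≠ 0 → (∀ M, (∀ x ∈ K, ip v x ≤ M) → ∀ y ∈ L, ip v y ≤ M + ip v g) ∧
      (∀ M, (∀ y ∈ L, ip v y ≤ M) → ∀ x ∈ K, ip v x ≤ M - ip v g) := by
    intro v hv
    obtain ⟨c, h1, h2, h3⟩ := dirv hK hL hC hm hvol hle v hv
    have e : ip v g = c := by
      rw [hip hK.1, hip hL.1] at h3
      have h4 : ip v g * W = c * W := by
        rw [← hW] at h3
        have : ip v g * W = (v 0 * (∫ y in L, y 0) + v 1 * (∫ y in L, y 1) + v 2 * (∫ y in L, y 2))
            - (v 0 * (∫ y in K, y 0) + v 1 * (∫ y in K, y 1) + v 2 * (∫ y in K, y 2)) := by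
          unfold ip
          rw [hg]
          field_simp
          ring
        rw [this, h3]
        ring
      exact mul_right_cancel₀ hV.ne' h4
    rw [e]
    exact ⟨h1, h2⟩
  have hLne : L.Nonempty := by
    obtain ⟨p, hp⟩ := hL.2.2
    exact ⟨p, interior_subset hp⟩
  have hKne : K.Nonempty := by
    obtain ⟨p, hp⟩ := hK.2.2
    exact ⟨p, interior_subset hp⟩
  have ipc : ∀ v : V, Continuous (fun x : V => ip v x) := fun v =>
    ip_cont.comp (Continuous.prodMk continuous_const continuous_id)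
  have hcl : IsClosed ((fun x : V => x + g) '' K) :=
    (hK.1.image (continuous_id.add continuous_const)).isClosed
  have hcv : Convex ℝ ((fun x : V => x + g) '' K) := by
    have := hK.2.1.translate_preimage_left
    have h2 : ((fun x : V => x + g) '' K) = (fun x : V => g + x) '' K := by
      apply Set.image_congr
      intro x _
      exact add_comm _ _
    rw [h2]
    exact hK.2.1.translate g
  refine ⟨g, Set.Subset.antisymm ?_ ?_⟩
  · apply sub_of_ip hcl hcv
    intro v y hy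
    rcases eq_or_ne v 0 with rfl | hv
    · obtain ⟨x, hx⟩ := hKne
      exact ⟨x + g, ⟨x, hx, rfl⟩, by simp [ip]⟩
    · obtain ⟨x, hx, hxm⟩ := hK.1.exists_isMaxOn hKne (ipc v).continuousOn
      refine ⟨x + g, ⟨x, hx, rfl⟩, ?_⟩
      rw [ip_add]
      exact (hc v hv).1 _ (fun z hz => hxm hz) y hy
  · rintro _ ⟨x, hx, rfl⟩
    have hsub : (fun x : V => x + g) '' K ⊆ L := by
      apply sub_of_ip hL.1.isClosed hL.2.1
      rintro v _ ⟨x, hx, rfl⟩
      rcases eq_or_ne v 0 with rfl | hv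
      · obtain ⟨y, hy⟩ := hLne
        exact ⟨y, hy, by simp [ip]⟩
      · obtain ⟨y, hy, hym⟩ := hL.1.exists_isMaxOn hLne (ipc v).continuousOn
        refine ⟨y, hy, ?_⟩
        have h5 := (hc v hv).2 _ (fun z hz => hym hz) x hx
        simp only
        rw [ip_add]
        linarith
    exact hsub ⟨x, hx, rfl⟩

end Pool.Agent.V8H55.MD
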