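import Pool.Agent.TH219.DL.Bridge
import Pool.Agent.TH219.DL.Cols

/-!
# Packing densities and the difference body

If the difference body of `K'` contains that of `K`, then every packing by translates of `K'` gives
a packing by translates of `K`, hence `δ(K') / |K'| ≤ δ(K) / |K|` for `δ = δ_L, δ_T`.
-/

namespace Pool.Agent.V8H55.MD

open MeasureTheory Filter Topology
open scoped ENNReal
open Pool.Agent.H349R2.Tet Pool.Agent.TH219.DL

/-- `K - K ⊆ K' - K'` -/
def DLe (K K' : Set (Fin 3 → ℝ)) : Prop :=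
  ∀ x ∈ K, ∀ y ∈ K, ∃ x' ∈ K', ∃ y' ∈ K', x - y = x' - y'

theorem dle_int {K K' : Set V} (hK' : Body K') (h : DLe K K') {x y : V} (hx : x ∈ interior K)
    (hy : y ∈ interior K) : ∃ x' ∈ interior K', ∃ y' ∈ interior K', x - y = x' - y' := by
  obtain ⟨c, hc⟩ := hK'.2.2
  obtain ⟨ε, hε, hxε⟩ := interior_push hx (x - y)
  obtain ⟨x', hx', y', hy', e⟩ := h _ hxε y (interior_subset hy)
  have h1 : (0 : ℝ) < 1 + ε := by linarith
  have ha : 0 < (1 + ε)⁻¹ := inv_pos.2 h1
  have hb : 0 < ε * (1 + ε)⁻¹ := mul_pos hε ha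
  have hab : (1 + ε)⁻¹ + ε * (1 + ε)⁻¹ = 1 := by field_simp
  refine ⟨(1 + ε)⁻¹ • x' + (ε * (1 + ε)⁻¹) • c, ?_, (1 + ε)⁻¹ • y' + (ε * (1 + ε)⁻¹) • c, ?_, ?_⟩
  · exact hK'.2.1.combo_self_interior_mem_interior hx' hc ha.le hb hab
  · exact hK'.2.1.combo_self_interior_mem_interior hy' hc ha.le hb hab
  · have e1 : x' - y' = (1 + ε) • (x - y) := by
      rw [← e, add_smul, one_smul]; abel
    have e2 : (1 + ε)⁻¹ • x' + (ε * (1 + ε)⁻¹) • c - ((1 + ε)⁻¹ • y' + (ε * (1 + ε)⁻¹) • c)
        = (1 + ε)⁻¹ • (x' - y') := by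
      rw [smul_sub]; abel
    rw [e2, e1, smul_smul, inv_mul_cancel₀ h1.ne', one_smul]

theorem mem_false_eq (K : Set V) {p : Bool × V} (hp : p.1 = false) : mem K p = tr K p.2 := by
  have : p = (false, p.2) := Prod.ext hp rfl
  rw [this, mem_false]

theorem pack_of_dle {K K' : Set V} (hK' : Body K') (h : DLe K K') {S : Set (Bool × V)}
    (hS : ∀ p ∈ S, p.1 = false) (hp : IsPack K' S) : IsPack K S := by
  intro p hpS q hqS hne
  have hd := hp p hpS q hqS hne
  rw [mem_false_eq _ (hS p hpS), mem_false_eq _ (hS q hqS), pack_interior_tr, pack_interior_tr,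
    Set.disjoint_left] at hd ⊢
  rintro X ⟨x, hx, hxX⟩ ⟨y, hy, hyX⟩
  simp only at hxX hyX
  obtain ⟨x', hx', y', hy', e⟩ := dle_int hK' h hx hy
  apply hd (a := x' + p.2) ⟨x', hx', rfl⟩
  refine ⟨y', hy', ?_⟩
  simp only
  have e1 : x - y = q.2 - p.2 := by
    have : x = X - p.2 := by rw [← hxX]; abel
    rw [this, ← hyX]; abel
  have e2 : x' = y' + (q.2 - p.2) := by rw [← e1, e]; abel
  rw [e2]; abel

theorem vol_ne_top {K : Set V} (hK : Body K) : volume K ≠ ∞ := hK.1.measure_lt_top.ne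

theorem vol_ne_zero {K : Set V} (hK : Body K) : volume K ≠ 0 :=
  (lt_of_lt_of_le (isOpen_interior.measure_pos volume hK.2.2) (measure_mono interior_subset)).ne'

theorem dL_cmp {K K' : Set V} (hK : Body K) (hK' : Body K') (h : DLe K K') :
    volume K * dL K' ≤ volume K' * dL K := by
  rw [dL_eq, dL_eq]
  unfold deltaL
  rw [ENNReal.mul_iSup]
  refine iSup_le fun b => ?_
  rw [ENNReal.mul_iSup]
  refine iSup_le fun hb => ?_
  have hb2 : Packs K b := by
    rw [← packs_famL]
    have h1 := (packs_famL K' b).2 hb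
    exact ⟨h1.1, pack_of_dle hK' h (fun p hp => hp.1) h1.2⟩
  have h1 : dens K b ≤ ⨆ (b : Fin 3 → V) (_ : Packs K b), dens K b :=
    le_iSup₂_of_le b hb2 le_rfl
  refine le_trans (le_of_eq ?_) (mul_le_mul_right h1 (volume K'))
  rw [dens_eq b hb.1 _ hK'.1, dens_eq b hb.1 _ hK.1]
  simp only [ENNReal.div_eq_inv_mul]
  ring

theorem body_bdd {K : Set V} (hK : IsCompact K) : ∃ R : ℝ, 0 < R ∧ K ⊆ Bl R := by
  obtain ⟨R0, hR0⟩ := hK.isBounded.subset_closedBall (0 : V)
  exact ⟨2 * max R0 1, by positivity,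
    (hR0.trans (Metric.closedBall_subset_closedBall (le_max_left R0 1))).trans
      (ball_subset_bl _ (by positivity))⟩

theorem vol_tr (K : Set V) (u : V) : volume (tr K u) = volume K := by
  unfold tr
  rw [Set.image_add_right, measure_preimage_add_right]

theorem vol_bl_ne_zero {r : ℝ} (hr : 0 < r) : volume (Bl r) ≠ 0 := by
  rw [vol_bl hr]
  exact mul_ne_zero (by rw [ne_eq, ENNReal.ofReal_eq_zero, not_le]; positivity)
    vol_bl_one_pos.ne'

theorem vol_bl_ne_top {r : ℝ} (hr : 0 < r) : volume (Bl r) ≠ ∞ := by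
  rw [vol_bl hr]
  exact ENNReal.mul_ne_top ENNReal.ofReal_ne_top vol_bl_one_lt_top.ne

theorem ratio_tendsto (R : ℝ) : Tendsto (fun r : ℝ => ENNReal.ofReal (((r + R) / r) ^ 3))
    atTop (𝓝 1) := by
  have h1 : Tendsto (fun r : ℝ => ((r + R) / r) ^ 3) atTop (𝓝 1) := by
    have h2 : Tendsto (fun r : ℝ => (1 + R * r⁻¹) ^ 3) atTop (𝓝 ((1 + R * 0) ^ 3)) :=
      ((tendsto_const_nhds.add (tendsto_const_nhds.mul tendsto_inv_atTop_zero)).pow 3)
    simp only [mul_zero, add_zero, one_pow] at h2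
    refine h2.congr' ?_
    filter_upwards [eventually_gt_atTop 0] with r hr
    congr 1
    field_simp
  have h3 := ENNReal.tendsto_ofReal h1
  simpa using h3

theorem vol_bl_ratio {r R : ℝ} (hr : 0 < r) (hR : 0 < R) :
    volume (Bl (r + R)) / volume (Bl r) = ENNReal.ofReal (((r + R) / r) ^ 3) := by
  rw [vol_bl hr, vol_bl (by linarith : 0 < r + R)]
  rw [div_pow, ENNReal.ofReal_div_of_pos (by positivity)]
  rw [ENNReal.mul_div_mul_right _ _ vol_bl_one_pos.ne' vol_bl_one_lt_top.ne]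

theorem dT_cmp {K K' : Set V} (hK : Body K) (hK' : Body K') (h : DLe K K') :
    volume K * dT K' ≤ volume K' * dT K := by
  unfold dT
  rw [ENNReal.mul_iSup]
  refine iSup_le fun S => ?_
  rw [ENNReal.mul_iSup]
  refine iSup_le fun hS => ?_
  obtain ⟨hfalse, hpack⟩ := hS
  have hpK : IsPack K S := pack_of_dle hK' h hfalse hpack
  have h1 : den K S ≤ ⨆ (S : Set (Bool × V)) (_ : (∀ p ∈ S, p.1 = false) ∧ IsPack K S), den K S :=
    le_iSup₂_of_le S ⟨hfalse, hpK⟩ le_rfl
  refine le_trans ?_ (mul_le_mul_right h1 (volume K'))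
  obtain ⟨R1, hR1, hb1⟩ := body_bdd hK.1
  obtain ⟨R2, hR2, hb2⟩ := body_bdd hK'.1
  set R := R1 + R2 with hR
  have hRpos : 0 < R := by positivity
  have hterm : ∀ r : ℝ, 0 < r → ∀ p : S, volume K * volume (mem K' p.1 ∩ Bl r)
      ≤ volume K' * volume (mem K p.1 ∩ Bl (r + R)) := by
    intro r hr p
    rw [mem_false_eq _ (hfalse _ p.2), mem_false_eq _ (hfalse _ p.2)]
    rcases Set.eq_empty_or_nonempty (tr K' p.1.2 ∩ Bl r) with he | ⟨X, hX, hXr⟩
    · rw [he, measure_empty, mul_zero]; exact bot_le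
    · obtain ⟨y, hy, hyX⟩ := hX
      simp only at hyX
      have hsub : tr K p.1.2 ⊆ Bl (r + R) := by
        rintro _ ⟨z, hz, rfl⟩
        have h2 : z - y ∈ Bl R := by
          rw [sub_eq_add_neg]
          exact bl_add hR1.le hR2.le (hb1 hz) (bl_neg (hb2 hy))
        have h3 := bl_add hr.le hRpos.le hXr h2
        have e : X + (z - y) = z + p.1.2 := by rw [← hyX]; abel
        rwa [e] at h3
      rw [Set.inter_eq_left.2 hsub, vol_tr]
      calc volume K * volume (tr K' p.1.2 ∩ Bl r)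
          ≤ volume K * volume (tr K' p.1.2) :=
            mul_le_mul_right (measure_mono Set.inter_subset_left) _
        _ = volume K' * volume K := by rw [vol_tr, mul_comm]
  have hsum : ∀ r : ℝ, 0 < r → volume K * ∑' p : S, volume (mem K' p.1 ∩ Bl r)
      ≤ volume K' * ∑' p : S, volume (mem K p.1 ∩ Bl (r + R)) := by
    intro r hr
    rw [← ENNReal.tsum_mul_left, ← ENNReal.tsum_mul_left]
    exact ENNReal.tsum_le_tsum (hterm r hr)
  set f : ℝ → ℝ≥0∞ := fun r => (∑' p : S, volume (mem K p.1 ∩ Bl r)) / volume (Bl r) with hf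
  have hden : den K S = limsup f atTop := rfl
  have hmono : limsup (fun r : ℝ => f (r + R)) atTop ≤ limsup f atTop := by
    have e : limsup (fun r : ℝ => f (r + R)) atTop = limsup f (map (fun r : ℝ => r + R) atTop) := rfl
    rw [e]
    exact limsup_le_limsup_of_le (tendsto_atTop_add_const_right _ _ tendsto_id)
  have hstep : volume K * den K' S ≤
      limsup (fun r : ℝ => volume K' * (f (r + R) * ENNReal.ofReal (((r + R) / r) ^ 3))) atTop := by
    unfold den
    rw [← ENNReal.limsup_const_mul_of_ne_top (vol_ne_top hK)]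
    apply limsup_le_limsup
    · filter_upwards [eventually_gt_atTop 0] with r hr
      rw [← mul_div_assoc]
      have hb0 := vol_bl_ne_zero hr
      have hbt := vol_bl_ne_top hr
      have hb0' := vol_bl_ne_zero (by linarith : 0 < r + R)
      have hbt' := vol_bl_ne_top (by linarith : 0 < r + R)
      refine le_trans (ENNReal.div_le_div_right (hsum r hr) _) (le_of_eq ?_)
      rw [← vol_bl_ratio hr hRpos]
      simp only [hf, ENNReal.div_eq_inv_mul]
      have : (volume (Bl (r + R)))⁻¹ * volume (Bl (r + R)) = 1 := ENNReal.inv_mul_cancel hb0' hbt'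
      calc (volume (Bl r))⁻¹ * (volume K' * ∑' p : S, volume (mem K p.1 ∩ Bl (r + R)))
          = (volume (Bl r))⁻¹ * (volume K' * ∑' p : S, volume (mem K p.1 ∩ Bl (r + R))) * 1 := by
            rw [mul_one]
        _ = (volume (Bl r))⁻¹ * (volume K' * ∑' p : S, volume (mem K p.1 ∩ Bl (r + R))) *
            ((volume (Bl (r + R)))⁻¹ * volume (Bl (r + R))) := by rw [this]
        _ = _ := by ring
    · exact isCobounded_le_of_bot
    · exact isBounded_le_of_top
  refine hstep.trans ?_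
  rw [ENNReal.limsup_const_mul_of_ne_top (vol_ne_top hK')]
  refine mul_le_mul_right ?_ _
  have hone := (ratio_tendsto R).limsup_eq
  refine le_trans (ENNReal.limsup_mul_le' (Or.inr ?_) (Or.inr ?_)) ?_
  · rw [hone]; exact ENNReal.one_ne_top
  · rw [hone]; exact one_ne_zero
  · rw [hone, mul_one]
    exact hmono

end Pool.Agent.V8H55.MD
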