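import Pool.Agent.V8H55.MD.Main

/-!
# Half sums of bodies with the same difference body are not local minimisers
-/

namespace Pool.Agent.V8H55.MD

open MeasureTheory Set Filter Topology
open scoped ENNReal Pointwise
open Pool.Agent.H349R2.Tet (V tr Bl)
open Pool.Agent.TH219.DL (Body dL dT mn)

/-- `(1 - s) K + s L` -/
def cmb (s : ℝ) (K L : Set V) : Set V :=
  (fun p : V × V => (1 - s) • p.1 + s • p.2) '' (K ×ˢ L)

theorem cmb_body {K L : Set V} (hK : Body K) (hL : Body L) {s : ℝ} (h0 : 0 < s) (h1 : s < 1) :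
    Body (cmb s K L) := by
  refine ⟨(hK.1.prod hL.1).image (by fun_prop), ?_, ?_⟩
  · rintro _ ⟨⟨x, y⟩, ⟨hx, hy⟩, rfl⟩ _ ⟨⟨x', y'⟩, ⟨hx', hy'⟩, rfl⟩ a b ha hb hab
    refine ⟨(a • x + b • x', a • y + b • y'), ⟨hK.2.1 hx hx' ha hb hab,
      hL.2.1 hy hy' ha hb hab⟩, ?_⟩
    simp only
    module
  · obtain ⟨p, hp⟩ := hK.2.2
    obtain ⟨q, hq⟩ := hL.2.2.mono interior_subset
    have hsub : (fun x : V => x + s • q) '' ((1 - s) • K) ⊆ cmb s K L := by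
      rintro _ ⟨_, ⟨x, hx, rfl⟩, rfl⟩
      exact ⟨(x, q), ⟨hx, hq⟩, rfl⟩
    refine ⟨(1 - s) • p + s • q, interior_mono hsub ?_⟩
    have h2 : interior ((fun x : V => x + s • q) '' ((1 - s) • K)) =
        (fun x : V => x + s • q) '' interior ((1 - s) • K) :=
      (Homeomorph.addRight (s • q)).image_interior _ |>.symm
    rw [h2]
    refine ⟨(1 - s) • p, ?_, rfl⟩
    rw [interior_smul₀ (by linarith : (1 - s) ≠ 0)]
    exact ⟨p, hp, rfl⟩

theorem cmb_dle {K L : Set V} (h : DLe K L) (s : ℝ) : DLe K (cmb s K L) := by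
  intro x hx y hy
  obtain ⟨x', hx', y', hy', e⟩ := h x hx y hy
  refine ⟨_, ⟨(x, x'), ⟨hx, hx'⟩, rfl⟩, _, ⟨(y, y'), ⟨hy, hy'⟩, rfl⟩, ?_⟩
  have : (1 - s) • x + s • x' - ((1 - s) • y + s • y') = (1 - s) • (x - y) + s • (x' - y') := by
    module
  simp only
  rw [this, ← e]
  module

/-- cancellation -/
theorem cancel {K K0 K1 : Set V} (hK : Body K) (h0 : Body K0) (h1 : Body K1) {s : ℝ}
    (hs0 : 0 < s) (hs1 : s < 1) {g : V} (h : cmb s K K1 = tr (cmb s K K0) (s • g)) :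
    K1 = tr K0 g := by
  have hne : K.Nonempty := hK.2.2.mono interior_subset
  refine Set.Subset.antisymm ?_ ?_
  · have hb := body_tr h0 g
    apply sub_of_ip hb.1.isClosed hb.2.1
    intro v y hy
    obtain ⟨k, hk, hkm⟩ := hK.1.exists_isMaxOn hne (ipc v).continuousOn
    have hmem : (1 - s) • k + s • y ∈ cmb s K K1 := ⟨(k, y), ⟨hk, hy⟩, rfl⟩
    rw [h] at hmem
    obtain ⟨_, ⟨⟨k', a⟩, ⟨hk', ha⟩, rfl⟩, e⟩ := hmem
    simp only at e hk' ha
    refine ⟨a + g, ⟨a, ha, rfl⟩, ?_⟩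
    have e2 := congrArg (ip v) e
    rw [ip_add, ip_add, ip_add, ip_smul, ip_smul, ip_smul, ip_smul, ip_smul] at e2
    have h3 : ip v k' ≤ ip v k := hkm hk'
    have h4 : (1 - s) * ip v k' ≤ (1 - s) * ip v k :=
      mul_le_mul_of_nonneg_left h3 (by linarith)
    rw [ip_add]
    have h5 : s * ip v y ≤ s * (ip v a + ip v g) := by linarith
    exact le_of_mul_le_mul_left h5 hs0
  · apply sub_of_ip h1.1.isClosed h1.2.1
    rintro v _ ⟨x, hx, rfl⟩
    obtain ⟨k, hk, hkm⟩ := hK.1.exists_isMaxOn hne (ipc v).continuousOn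
    have hmem : (1 - s) • k + s • x + s • g ∈ cmb s K K1 := by
      rw [h]
      exact ⟨_, ⟨(k, x), ⟨hk, hx⟩, rfl⟩, rfl⟩
    obtain ⟨⟨k', b⟩, ⟨hk', hb⟩, e⟩ := hmem
    simp only at e hk' hb
    refine ⟨b, hb, ?_⟩
    have e2 := congrArg (ip v) e
    rw [ip_add, ip_add, ip_add, ip_smul, ip_smul, ip_smul, ip_smul, ip_smul] at e2
    have h3 : ip v k' ≤ ip v k := hkm hk'
    have h4 : (1 - s) * ip v k' ≤ (1 - s) * ip v k :=
      mul_le_mul_of_nonneg_left h3 (by linarith)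
    simp only
    rw [ip_add]
    have h5 : s * (ip v x + ip v g) ≤ s * ip v b := by linarith
    exact le_of_mul_le_mul_left h5 hs0

theorem half_local {K K0 K1 : Set V} (hK : Body K) (h0 : Body K0) (h1 : Body K1)
    (hD0 : DLe K K0) (hD1 : DLe K K1)
    (hm : ∀ x ∈ K0, ∀ y ∈ K1, (1 / 2 : ℝ) • x + (1 / 2 : ℝ) • y ∈ K)
    (hne : ¬ ∃ g : V, K1 = tr K0 g) {ε : ℝ} (hε : 0 < ε) :
    ∃ K' : Set V, Body K' ∧ DLe K K' ∧ volume K' < volume K ∧
      (∀ x ∈ K', ∃ y ∈ K, dist x y < ε) ∧ (∀ y ∈ K, ∃ x ∈ K', dist x y < ε) := by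
  obtain ⟨M, hM⟩ := (hK.1.union (h0.1.union h1.1)).isBounded.exists_norm_le
  set s : ℝ := min (1 / 2) (ε / (2 * (2 * (|M| + 1)))) with hs
  have hs0 : 0 < s := lt_min (by norm_num) (by positivity)
  have hs1 : s < 1 := lt_of_le_of_lt (min_le_left _ _) (by norm_num)
  have hsε : s * (2 * (|M| + 1)) < ε := by
    have h2 : s ≤ ε / (2 * (2 * (|M| + 1))) := min_le_right _ _
    have h3 : s * (2 * (|M| + 1)) ≤ ε / (2 * (2 * (|M| + 1))) * (2 * (|M| + 1)) :=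
      mul_le_mul_of_nonneg_right h2 (by positivity)
    have h4 : ε / (2 * (2 * (|M| + 1))) * (2 * (|M| + 1)) = ε / 2 := by field_simp
    linarith
  -- closeness
  have hclose : ∀ L : Set V, L.Nonempty → (∀ x ∈ L, ‖x‖ ≤ M) →
      (∀ x ∈ cmb s K L, ∃ y ∈ K, dist x y < ε) ∧ (∀ y ∈ K, ∃ x ∈ cmb s K L, dist x y < ε) := by
    intro L hLne hL
    have hd : ∀ k ∈ K, ∀ l ∈ L, dist ((1 - s) • k + s • l) k < ε := by
      intro k hk l hl
      refine lt_of_le_of_lt ?_ hsε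
      have e : (1 - s) • k + s • l - k = s • (l - k) := by module
      rw [dist_eq_norm, e, norm_smul, Real.norm_eq_abs, abs_of_pos hs0]
      apply mul_le_mul_of_nonneg_left _ hs0.le
      have a1 := norm_sub_le l k
      have a2 := hL l hl
      have a3 := hM k (Or.inl hk)
      linarith [le_abs_self M]
    constructor
    · rintro _ ⟨⟨k, l⟩, ⟨hk, hl⟩, rfl⟩
      exact ⟨k, hk, hd k hk l hl⟩
    · intro y hy
      obtain ⟨l, hl⟩ := hLne
      exact ⟨_, ⟨(y, l), ⟨hy, hl⟩, rfl⟩, hd y hy l hl⟩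
  have ne0 : K0.Nonempty := h0.2.2.mono interior_subset
  have ne1 : K1.Nonempty := h1.2.2.mono interior_subset
  by_contra hcon
  push Not at hcon
  have hv : ∀ L : Set V, Body L → DLe K L → (∀ x ∈ L, ‖x‖ ≤ M) → volume K ≤ volume (cmb s K L) := by
    intro L hL hDL hLM
    by_contra hlt
    push Not at hlt
    obtain ⟨c1, c2⟩ := hclose L (hL.2.2.mono interior_subset) hLM
    obtain ⟨y, hy, hy2⟩ := hcon (cmb s K L) (cmb_body hK hL hs0 hs1) (cmb_dle hDL s) hlt c1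
    obtain ⟨x, hx, hx2⟩ := c2 y hy
    exact absurd hx2 (not_lt.2 (hy2 x hx))
  have hv0 := hv K0 h0 hD0 (fun x hx => hM x (Or.inr (Or.inl hx)))
  have hv1 := hv K1 h1 hD1 (fun x hx => hM x (Or.inr (Or.inr hx)))
  obtain ⟨g0, g1, e0, e1⟩ := half_sum hK (cmb_body hK h0 hs0 hs1) (cmb_body hK h1 hs0 hs1)
    (by
      rintro _ ⟨⟨k, a⟩, ⟨hk, ha⟩, rfl⟩ _ ⟨⟨k', b⟩, ⟨hk', hb⟩, rfl⟩
      simp only at hk ha hk' hb
      have h2 : (1 / 2 : ℝ) • k + (1 / 2 : ℝ) • k' ∈ K :=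
        hK.2.1 hk hk' (by norm_num) (by norm_num) (by norm_num)
      have h3 := hm a ha b hb
      have h4 := hK.2.1 h2 h3 (by linarith : 0 ≤ 1 - s) hs0.le (by ring)
      have e : (1 / 2 : ℝ) • ((1 - s) • k + s • a) + (1 / 2 : ℝ) • ((1 - s) • k' + s • b) =
          (1 - s) • ((1 / 2 : ℝ) • k + (1 / 2 : ℝ) • k') +
            s • ((1 / 2 : ℝ) • a + (1 / 2 : ℝ) • b) := by module
      simp only
      rw [e]; exact h4) hv0 hv1
  apply hne
  refine ⟨s⁻¹ • (g1 - g0), cancel hK h0 h1 hs0 hs1 ?_⟩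
  rw [smul_smul, mul_inv_cancel₀ hs0.ne', one_smul, e1, e0]
  ext x
  rw [mem_tr, mem_tr, mem_tr]
  have : x - (g1 - g0) - g0 = x - g1 := by abel
  rw [this]

end Pool.Agent.V8H55.MD
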