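import Pool.Agent.V8H55.MD.Smooth

/-!
# A smooth convex body that is not centrally symmetric can be made smaller without making its
difference body smaller
-/

namespace Pool.Agent.V8H55.MD

open MeasureTheory Set Filter Topology
open scoped ENNReal Pointwise
open Pool.Agent.H349R2.Tet (V tr Bl)
open Pool.Agent.TH219.DL (Body interior_push)

/-- `K` is centrally symmetric about some point -/
def CSym (K : Set (Fin 3 → ℝ)) : Prop := ∃ c : Fin 3 → ℝ, ∀ x ∈ K, c - x ∈ K

theorem cube_root {w : ℝ} (hw : 0 ≤ w) : ∃ a : ℝ, 0 ≤ a ∧ a ^ 3 = w := by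
  refine ⟨w ^ (1 / 3 : ℝ), Real.rpow_nonneg hw _, ?_⟩
  rw [← Real.rpow_natCast, ← Real.rpow_mul hw]
  norm_num

theorem neg_body {K : Set V} (hK : Body K) : Body (-K) := by
  refine ⟨hK.1.neg, hK.2.1.neg, ?_⟩
  obtain ⟨p, hp⟩ := hK.2.2
  refine ⟨-p, ?_⟩
  have h : interior (-K) = -interior K := (Homeomorph.neg V).preimage_interior K |>.symm
  rw [h]
  simpa using hp

/-- a body that is not centrally symmetric is smaller than half of its difference body -/
theorem vol_Cb {K : Set V} (hK : Body K) (hns : ¬ CSym K) : volume K < volume (Cb K) := by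
  by_contra hle
  push Not at hle
  obtain ⟨g, hg⟩ := bm_eq hK (neg_body hK) (Cb_compact hK.1) (by
    intro x hx y hy
    refine ⟨x, hx, -y, hy, ?_⟩
    module) (by rw [Measure.measure_neg]) hle
  apply hns
  refine ⟨-g, fun x hx => ?_⟩
  have h1 : x + g ∈ -K := by rw [hg]; exact ⟨x, hx, rfl⟩
  have h2 : -(x + g) ∈ K := h1
  have e : -g - x = -(x + g) := by abel
  rw [e]; exact h2

theorem exists_ball {K : Set V} (h : (0 : V) ∈ interior K) : ∃ r : ℝ, 0 < r ∧ Bl r ⊆ K := by
  obtain ⟨e, he, hb⟩ := Metric.isOpen_iff.1 isOpen_interior 0 h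
  refine ⟨e / 2, by positivity, fun x hx => interior_subset (hb ?_)⟩
  have := Pool.Agent.H349R2.Tet.bl_subset_ball (e / 2) (by positivity) hx
  rw [Metric.mem_closedBall] at this
  rw [Metric.mem_ball]
  linarith

theorem exists_smaller0 {K : Set V} (hK : Body K) (hS : Smooth K) (hns : ¬ CSym K)
    (h0 : (0 : V) ∈ interior K) {ε : ℝ} (hε : 0 < ε) :
    ∃ K' : Set V, Body K' ∧ DLe K K' ∧ volume K' < volume K ∧
      (∀ x ∈ K', ∃ y ∈ K, dist x y < ε) ∧ (∀ y ∈ K, ∃ x ∈ K', dist x y < ε) := by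
  obtain ⟨r, hr, hrK⟩ := exists_ball h0
  obtain ⟨R, hR, hKR⟩ := body_bdd hK.1
  have hne : K.Nonempty := ⟨0, interior_subset h0⟩
  -- cube roots of the volumes
  obtain ⟨κ, hκ, hκ3⟩ := cube_root (w := (volume K).toReal) ENNReal.toReal_nonneg
  obtain ⟨γ, hγ, hγ3⟩ := cube_root (w := (volume (Cb K)).toReal) ENNReal.toReal_nonneg
  have hCtop : volume (Cb K) ≠ ∞ := (Cb_compact hK.1).measure_ne_top
  have hκ0 : 0 < κ := by
    rcases hκ.lt_or_eq with h | h
    · exact h
    · exfalso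
      have := ENNReal.toReal_pos (vol_ne_zero hK) (vol_ne_top hK)
      rw [← hκ3, ← h] at this
      norm_num at this
  have hκγ : κ < γ := by
    have h1 : (volume K).toReal < (volume (Cb K)).toReal :=
      (ENNReal.toReal_lt_toReal (vol_ne_top hK) hCtop).2 (vol_Cb hK hns)
    rw [← hκ3, ← hγ3] at h1
    exact lt_of_pow_lt_pow_left₀ 3 hγ h1
  set η : ℝ := min 1 ((γ - κ) / (2 * κ)) with hηd
  have hη : 0 < η := lt_min one_pos (div_pos (by linarith) (by positivity))
  have hη1 : η ≤ 1 := min_le_left _ _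
  have hηκ : η * κ < γ - κ := by
    have : η ≤ (γ - κ) / (2 * κ) := min_le_right _ _
    have h2 : η * κ ≤ (γ - κ) / (2 * κ) * κ := mul_le_mul_of_nonneg_right this hκ
    have h3 : (γ - κ) / (2 * κ) * κ = (γ - κ) / 2 := by field_simp
    linarith
  obtain ⟨t0, ht0, hmain⟩ := At_mem hK.1 hK.2.1 hS hr hrK hKR hR hη hη1
  obtain ⟨M, hM⟩ := hK.1.isBounded.exists_norm_le
  -- choice of `t`
  have hev1 : ∀ᶠ t in 𝓝 (0 : ℝ), |(1 - η * t)⁻¹ * (1 + t) - 1| * (|M| + 1) < ε := by
    have hc : ContinuousAt (fun t : ℝ => |(1 - η * t)⁻¹ * (1 + t) - 1| * (|M| + 1)) 0 := by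
      have : (1 - η * (0 : ℝ)) ≠ 0 := by norm_num
      fun_prop (disch := assumption)
    have h1 := hc.tendsto
    simp only [mul_zero, sub_zero, inv_one, add_zero, mul_one, sub_self, abs_zero, zero_mul] at h1
    exact h1.eventually_lt_const hε
  have hev2 : ∀ᶠ t in 𝓝 (0 : ℝ),
      |(1 - η * t)⁻¹ * (1 + t - t * (R / r)) - 1| * (|M| + 1) < ε := by
    have hc : ContinuousAt (fun t : ℝ =>
        |(1 - η * t)⁻¹ * (1 + t - t * (R / r)) - 1| * (|M| + 1)) 0 := by
      have : (1 - η * (0 : ℝ)) ≠ 0 := by norm_num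
      fun_prop (disch := assumption)
    have h1 := hc.tendsto
    simp only [mul_zero, sub_zero, inv_one, add_zero, mul_one, sub_self, abs_zero, zero_mul] at h1
    exact h1.eventually_lt_const hε
  have hev3 : ∀ᶠ t in 𝓝 (0 : ℝ), 0 < 1 + t - t * (R / r) := by
    have hc : ContinuousAt (fun t : ℝ => 1 + t - t * (R / r)) 0 := by fun_prop
    have h1 := hc.tendsto
    simp only [add_zero, zero_mul, sub_zero] at h1
    exact h1.eventually_const_lt one_pos
  obtain ⟨t, ht, htt0, ht1, h1, h2, h3⟩ : ∃ t : ℝ, 0 < t ∧ t < t0 ∧ t < 1 / 2 ∧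
      |(1 - η * t)⁻¹ * (1 + t) - 1| * (|M| + 1) < ε ∧
      |(1 - η * t)⁻¹ * (1 + t - t * (R / r)) - 1| * (|M| + 1) < ε ∧
      0 < 1 + t - t * (R / r) := by
    have hall : ∀ᶠ t in 𝓝[>] (0 : ℝ), 0 < t ∧ t < t0 ∧ t < 1 / 2 ∧
      |(1 - η * t)⁻¹ * (1 + t) - 1| * (|M| + 1) < ε ∧
      |(1 - η * t)⁻¹ * (1 + t - t * (R / r)) - 1| * (|M| + 1) < ε ∧
      0 < 1 + t - t * (R / r) := by
      filter_upwards [self_mem_nhdsWithin, nhdsWithin_le_nhds (gt_mem_nhds ht0),
        nhdsWithin_le_nhds (gt_mem_nhds (show (0 : ℝ) < 1 / 2 by norm_num)),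
        nhdsWithin_le_nhds hev1, nhdsWithin_le_nhds hev2, nhdsWithin_le_nhds hev3]
        with t a b c d e f
      exact ⟨a, b, c, d, e, f⟩
    exact hall.exists
  have hηt : η * t < 1 / 2 := by nlinarith
  set l : ℝ := (1 - η * t)⁻¹ with hl
  have hl0 : 0 < l := inv_pos.2 (by linarith)
  have hl1 : l * (1 - η * t) = 1 := inv_mul_cancel₀ (by linarith)
  set μ : ℝ := 1 + t - t * (R / r) with hμ
  -- the inner parallel body contains a multiple of `K`
  have hμK : ∀ y ∈ K, μ • y ∈ At K t := by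
    rintro y hy _ ⟨p, hp, q, hq, rfl⟩
    have hc1 : (1 / 2 : ℝ) • (p - q) ∈ (R / r) • K := by
      refine ⟨(r / R) • ((1 / 2 : ℝ) • (p - q)), hrK ?_, ?_⟩
      · rw [mem_Bl, ip_smul_left, ip_smul]
        have hcR : ip ((1 / 2 : ℝ) • (p - q)) ((1 / 2 : ℝ) • (p - q)) ≤ R ^ 2 := by
          have hp' := mem_Bl.1 (hKR hp)
          have hq' := mem_Bl.1 (hKR hq)
          have hpq : -ip p q ≤ R * R := by
            have := ip_le (u := -p) (v := q) hR.le hR.le (by rw [ip_neg_neg]; exact hp') hq'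
            rwa [ip_neg_left] at this
          rw [ip_smul_left, ip_smul, ip_sub, ip_sub_left, ip_sub_left, ip_comm q p]
          nlinarith
        have : r / R * (r / R * ip ((1 / 2 : ℝ) • (p - q)) ((1 / 2 : ℝ) • (p - q)))
            ≤ r / R * (r / R * R ^ 2) := by gcongr
        refine this.trans (le_of_eq ?_)
        field_simp
      · simp only
        rw [smul_smul]
        have : R / r * (r / R) = 1 := by field_simp
        rw [this, one_smul]
    obtain ⟨k, hk, hke⟩ := hc1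
    simp only at hke
    rw [← hke]
    have hpos : 0 < 1 + t := by linarith
    refine ⟨(μ / (1 + t)) • y + (t * (R / r) / (1 + t)) • k,
      hK.2.1 hy hk (div_nonneg h3.le hpos.le) (by positivity) ?_, ?_⟩
    · rw [← add_div, hμ, sub_add_cancel, div_self hpos.ne']
    · simp only
      rw [smul_add, smul_smul, smul_smul, mul_div_cancel₀ _ hpos.ne', mul_div_cancel₀ _ hpos.ne',
        smul_smul]
  have hAc := At_compact hK.1 hne t
  have hAv := At_convex hK.2.1 t
  have hAi : (interior (At K t)).Nonempty := by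
    obtain ⟨p, hp⟩ := hK.2.2
    have hsub : μ • K ⊆ At K t := by
      rintro _ ⟨y, hy, rfl⟩
      exact hμK y hy
    refine ⟨μ • p, interior_mono hsub ?_⟩
    rw [interior_smul₀ h3.ne']
    exact ⟨p, hp, rfl⟩
  have hAne : (At K t).Nonempty := hAi.mono interior_subset
  refine ⟨l • At K t, ⟨hAc.smul l, hAv.smul l, ?_⟩, ?_, ?_, ?_, ?_⟩
  · obtain ⟨p, hp⟩ := hAi
    exact ⟨l • p, by rw [interior_smul₀ hl0.ne']; exact ⟨p, hp, rfl⟩⟩
  · -- the difference body
    set DA : Set V := (fun p : V × V => p.1 - p.2) '' (At K t ×ˢ At K t) with hDA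
    have hDAc : IsCompact DA := (hAc.prod hAc).image (by fun_prop)
    have hDAv : Convex ℝ DA := by
      rintro _ ⟨⟨x, y⟩, ⟨hx, hy⟩, rfl⟩ _ ⟨⟨x', y'⟩, ⟨hx', hy'⟩, rfl⟩ a b ha hb hab
      refine ⟨(a • x + b • x', a • y + b • y'), ⟨hAv hx hx' ha hb hab, hAv hy hy' ha hb hab⟩, ?_⟩
      simp only
      module
    have hDAne : DA.Nonempty := by
      obtain ⟨a, ha⟩ := hAne
      exact ⟨a - a, ⟨(a, a), ⟨ha, ha⟩, rfl⟩⟩
    intro x hx y hy
    have hmem : (1 - η * t) • (x - y) ∈ DA := by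
      apply mem_of_unit hDAc.isClosed hDAv hDAne
      intro u hu
      obtain ⟨x0, hx0, hx0m⟩ := hK.1.exists_isMaxOn hne (ipc u).continuousOn
      obtain ⟨y0, hy0, hy0m⟩ := hK.1.exists_isMinOn hne (ipc u).continuousOn
      have hx0m' : ∀ z ∈ K, ip u z ≤ ip u x0 := fun z hz => hx0m hz
      have hy0m' : ∀ z ∈ K, ip u y0 ≤ ip u z := fun z hz => hy0m hz
      have ha := hmain t ht htt0 u x0 y0 hu hx0 hy0 hx0m' hy0m'
      have ha' := hmain t ht htt0 (-u) y0 x0 (by rw [ip_neg_neg]; exact hu) hy0 hx0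
        (fun z hz => by rw [ip_neg_left, ip_neg_left]; have := hy0m' z hz; linarith)
        (fun z hz => by rw [ip_neg_left, ip_neg_left]; have := hx0m' z hz; linarith)
      refine ⟨_, ⟨(_, _), ⟨ha, ha'⟩, rfl⟩, ?_⟩
      have e : (1 + t - η * t) • x0 - t • ((1 / 2 : ℝ) • (x0 - y0)) -
          ((1 + t - η * t) • y0 - t • ((1 / 2 : ℝ) • (y0 - x0))) = (1 - η * t) • (x0 - y0) := by
        module
      simp only
      rw [e, ip_smul, ip_smul, ip_sub, ip_sub]
      apply mul_le_mul_of_nonneg_left _ (by linarith)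
      have := hx0m' x hx
      have := hy0m' y hy
      linarith
    obtain ⟨⟨a, a'⟩, ⟨ha, ha'⟩, hae⟩ := hmem
    simp only at ha ha' hae
    refine ⟨l • a, ⟨a, ha, rfl⟩, l • a', ⟨a', ha', rfl⟩, ?_⟩
    rw [← smul_sub, hae, smul_smul, hl1, one_smul]
  · -- the volume
    obtain ⟨a, ha, ha3⟩ := cube_root (w := (volume (At K t)).toReal) ENNReal.toReal_nonneg
    have hAtop : volume (At K t) ≠ ∞ := hAc.measure_ne_top
    have hfin : Module.finrank ℝ (Fin 3 → ℝ) = 3 := by simp
    have hbm := Pool.Agent.H748R2.KB.t_BM 3 (At K t) (t • Cb K) hAc ((Cb_compact hK.1).smul t)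
      hAne (Set.Nonempty.smul_set ⟨0, zero_mem_Cb hne⟩) a (t * γ) ha (by positivity)
      (by rw [ha3]; exact le_rfl) (by
        show _ ≤ (volume (t • Cb K)).toReal
        rw [Measure.addHaar_smul, hfin, ENNReal.toReal_mul, ENNReal.toReal_ofReal (by positivity),
          abs_of_pos (by positivity), mul_pow, hγ3])
    have hsub : At K t + t • Cb K ⊆ (1 + t) • K := by
      rintro _ ⟨p, hp, _, ⟨c, hc, rfl⟩, rfl⟩
      exact hp c hc
    have h4 : (volume (At K t + t • Cb K)).toReal ≤ ((1 + t) * κ) ^ 3 := by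
      have h5 : volume (At K t + t • Cb K) ≤ volume ((1 + t) • K) := measure_mono hsub
      have h6 : (volume ((1 + t) • K)).toReal = ((1 + t) * κ) ^ 3 := by
        rw [Measure.addHaar_smul, hfin, ENNReal.toReal_mul, ENNReal.toReal_ofReal (by positivity),
          abs_of_pos (by positivity), mul_pow, hκ3]
      rw [← h6]
      exact ENNReal.toReal_mono (hK.1.smul (1 + t)).measure_ne_top h5
    have h7 : a + t * γ ≤ (1 + t) * κ :=
      le_of_pow_le_pow_left₀ (by norm_num : (3 : ℕ) ≠ 0) (by positivity) (hbm.trans h4)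
    have h8 : l * a < κ := by
      have h9 : a < (1 - η * t) * κ := by nlinarith
      calc l * a < l * ((1 - η * t) * κ) := mul_lt_mul_of_pos_left h9 hl0
        _ = κ := by rw [← mul_assoc, hl1, one_mul]
    have h10 : (volume (l • At K t)).toReal < (volume K).toReal := by
      rw [Measure.addHaar_smul, hfin, ENNReal.toReal_mul, ENNReal.toReal_ofReal (by positivity),
          abs_of_pos (by positivity), ← ha3, ← hκ3, ← mul_pow]
      exact pow_lt_pow_left₀ h8 (by positivity) (by norm_num)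
    exact (ENNReal.toReal_lt_toReal (hAc.smul l).measure_ne_top (vol_ne_top hK)).1 h10
  · rintro _ ⟨p, hp, rfl⟩
    obtain ⟨k, hk, rfl⟩ := At_sub hne hp
    refine ⟨k, hk, lt_of_le_of_lt ?_ h1⟩
    simp only
    rw [dist_eq_norm, smul_smul]
    have e : (l * (1 + t)) • k - k = (l * (1 + t) - 1) • k := by rw [sub_smul, one_smul]
    rw [e, norm_smul, Real.norm_eq_abs]
    apply mul_le_mul_of_nonneg_left _ (abs_nonneg _)
    have := hM k hk
    linarith [le_abs_self M]
  · intro y hy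
    refine ⟨l • (μ • y), ⟨_, hμK y hy, rfl⟩, lt_of_le_of_lt ?_ h2⟩
    rw [dist_eq_norm, smul_smul]
    have e : (l * μ) • y - y = (l * μ - 1) • y := by rw [sub_smul, one_smul]
    rw [e, norm_smul, Real.norm_eq_abs]
    apply mul_le_mul_of_nonneg_left _ (abs_nonneg _)
    have := hM y hy
    linarith [le_abs_self M]

end Pool.Agent.V8H55.MD
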