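import Mathlib

/-!
# Quantile functions and the case of equality in the one-dimensional Prekopa-Leindler inequality
-/

namespace Pool.Agent.V8H55.MD

open MeasureTheory Set Filter Topology
open scoped ENNReal

/-- a profile: a bounded function that is positive and continuous on an open interval -/
structure Prf (A : ℝ → ℝ) (α β : ℝ) : Prop where
  lt : α < β
  pos : ∀ s ∈ Ioo α β, 0 < A s
  cont : ContinuousOn A (Ioo α β)
  meas : Measurable A
  bdd : ∃ C : ℝ, ∀ s, A s ≤ C

/-- The positive extension. -/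
noncomputable def ft (A : ℝ → ℝ) (α β s : ℝ) : ℝ := if s ∈ Ioo α β then A s else 1

/-- Its primitive. -/
noncomputable def Fp (A : ℝ → ℝ) (α β x : ℝ) : ℝ := ∫ t in α..x, ft A α β t

/-- The mass. -/
noncomputable def mass (A : ℝ → ℝ) (α β : ℝ) : ℝ := Fp A α β β

section
variable {A : ℝ → ℝ} {α β : ℝ} (h : Prf A α β)
include h

theorem ft_pos (s : ℝ) : 0 < ft A α β s := by
  unfold ft
  split_ifs with hs
  · exact h.pos s hs
  · exact one_pos

theorem measurable_ft : Measurable (ft A α β) :=
  Measurable.ite measurableSet_Ioo h.meas measurable_const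

theorem intervalIntegrable_ft (a b : ℝ) : IntervalIntegrable (ft A α β) volume a b := by
  obtain ⟨C, hb⟩ := h.bdd
  rw [intervalIntegrable_iff]
  refine Measure.integrableOn_of_bounded (M := max C 1) (by simp)
    (measurable_ft h).aestronglyMeasurable (ae_of_all _ fun s => ?_)
  rw [Real.norm_eq_abs, abs_of_pos (ft_pos h s)]
  unfold ft
  split_ifs
  · exact (hb s).trans (le_max_left _ _)
  · exact le_max_right _ _

theorem continuous_F : Continuous (Fp A α β) :=
  intervalIntegral.continuous_primitive (intervalIntegrable_ft h) α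

theorem strictMono_F : StrictMono (Fp A α β) := by
  intro x y hxy
  have h1 := intervalIntegral.integral_interval_sub_left (intervalIntegrable_ft h α y)
    (intervalIntegrable_ft h α x)
  have h2 := intervalIntegral.intervalIntegral_pos_of_pos (intervalIntegrable_ft h x y)
    (ft_pos h) hxy
  unfold Fp
  linarith

omit h in
theorem F_left : Fp A α β α = 0 := intervalIntegral.integral_same

theorem F_ge {x : ℝ} (hx : β ≤ x) : Fp A α β x = Fp A α β β + (x - β) := by
  have h1 := intervalIntegral.integral_add_adjacent_intervals (intervalIntegrable_ft h α β)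
    (intervalIntegrable_ft h β x)
  have h2 : ∫ t in β..x, ft A α β t = ∫ t in β..x, (1 : ℝ) := by
    refine intervalIntegral.integral_congr fun t ht => ?_
    rw [uIcc_of_le hx] at ht
    unfold ft
    rw [if_neg fun hm => absurd hm.2 (not_lt.2 ht.1)]
  rw [h2, intervalIntegral.integral_const, smul_eq_mul, mul_one] at h1
  exact h1.symm

omit h in
theorem F_le {x : ℝ} (hx : x ≤ α) : Fp A α β x = x - α := by
  unfold Fp
  rw [intervalIntegral.integral_symm]
  have h2 : ∫ t in x..α, ft A α β t = ∫ t in x..α, (1 : ℝ) := by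
    refine intervalIntegral.integral_congr fun t ht => ?_
    rw [uIcc_of_le hx] at ht
    unfold ft
    rw [if_neg fun hm => absurd hm.1 (not_lt.2 ht.2)]
  rw [h2, intervalIntegral.integral_const, smul_eq_mul]
  ring

theorem surj_F : Function.Surjective (Fp A α β) := by
  refine (continuous_F h).surjective ?_ ?_
  · have h1 : Tendsto (fun x : ℝ => Fp A α β β + (x - β)) atTop atTop :=
      tendsto_atTop_add_const_left _ _ (tendsto_atTop_add_const_right _ _ tendsto_id)
    refine h1.congr' ?_
    filter_upwards [eventually_ge_atTop β] with x hx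
    exact (F_ge h hx).symm
  · have h1 : Tendsto (fun x : ℝ => x - α) atBot atBot :=
      tendsto_atBot_add_const_right _ _ tendsto_id
    refine h1.congr' ?_
    filter_upwards [eventually_le_atBot α] with x hx
    exact (F_le hx).symm

/-- The inverse. -/
noncomputable def E : ℝ ≃o ℝ := (strictMono_F h).orderIsoOfSurjective _ (surj_F h)

/-- The quantile function. -/
noncomputable def X (u : ℝ) : ℝ := (E h).symm u

theorem F_X (u : ℝ) : Fp A α β (X h u) = u := (E h).apply_symm_apply u

theorem X_F (x : ℝ) : X h (Fp A α β x) = x := (E h).symm_apply_apply x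

theorem continuous_X : Continuous (X h) := (E h).symm.continuous

theorem strictMono_X : StrictMono (X h) := (E h).symm.strictMono

theorem mass_pos : 0 < mass A α β := by
  unfold mass
  rw [← F_left (A := A) (α := α) (β := β)]
  exact strictMono_F h h.lt

theorem X_zero : X h 0 = α := by
  have := X_F h α
  rwa [F_left] at this

theorem X_mass : X h (mass A α β) = β := X_F h β

theorem X_mem {u : ℝ} (hu : u ∈ Ioo 0 (mass A α β)) : X h u ∈ Ioo α β := by
  constructor
  · rw [← (strictMono_F h).lt_iff_lt, F_X, F_left]; exact hu.1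
  · rw [← (strictMono_F h).lt_iff_lt, F_X]; exact hu.2

theorem F_mem {x : ℝ} (hx : x ∈ Ioo α β) : Fp A α β x ∈ Ioo 0 (mass A α β) := by
  constructor
  · rw [← F_left (A := A) (α := α) (β := β)]; exact strictMono_F h hx.1
  · exact strictMono_F h hx.2

theorem hasDerivAt_F {x : ℝ} (hx : x ∈ Ioo α β) : HasDerivAt (Fp A α β) (A x) x := by
  have h1 : ContinuousAt (ft A α β) x := by
    have h2 : ContinuousAt A x := h.cont.continuousAt (isOpen_Ioo.mem_nhds hx)
    refine h2.congr ?_
    filter_upwards [isOpen_Ioo.mem_nhds hx] with s hs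
    simp only [ft]
    rw [if_pos hs]
  have h3 := intervalIntegral.integral_hasDerivAt_right (intervalIntegrable_ft h α x)
    ((measurable_ft h).stronglyMeasurable.stronglyMeasurableAtFilter) h1
  have h4 : ft A α β x = A x := by simp only [ft]; rw [if_pos hx]
  rw [h4] at h3
  exact h3

theorem hasDerivAt_X {u : ℝ} (hu : u ∈ Ioo 0 (mass A α β)) :
    HasDerivAt (X h) (A (X h u))⁻¹ u := by
  have hx := X_mem h hu
  exact HasDerivAt.of_local_left_inverse (continuous_X h).continuousAt (hasDerivAt_F h hx)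
    (h.pos _ hx).ne' (Eventually.of_forall (F_X h))

theorem lint_mass : ∫⁻ s in Ioo α β, ENNReal.ofReal (A s) = ENNReal.ofReal (mass A α β) := by
  unfold mass Fp
  rw [intervalIntegral.integral_of_le h.lt.le, integral_Ioc_eq_integral_Ioo,
    ofReal_integral_eq_lintegral_ofReal]
  · refine setLIntegral_congr_fun measurableSet_Ioo fun s hs => ?_
    simp only [ft]
    rw [if_pos hs]
  · exact ((intervalIntegrable_iff_integrableOn_Ioo_of_le h.lt.le).1
      (intervalIntegrable_ft h α β))
  · exact ae_of_all _ fun s => (ft_pos h s).le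

end

section
variable {A B : ℝ → ℝ} {α β γ δ : ℝ} (h : Prf A α β) (k : Prf B γ δ)
include h k

theorem transport (hm : mass A α β = mass B γ δ) (C : ℝ → ℝ≥0∞)
    (hC : ∀ s ∈ Ioo α β, ∀ t ∈ Ioo γ δ, ENNReal.ofReal (Real.sqrt (A s * B t)) ≤ C ((s + t) / 2)) :
    ∫⁻ u in Ioo 0 (mass A α β), (1 + ENNReal.ofReal
      ((A (X h u) - B (X k u)) ^ 2 / (2 * Real.sqrt (A (X h u) * B (X k u)) *
        (A (X h u) + B (X k u) + 2 * Real.sqrt (A (X h u) * B (X k u)))))) ≤ ∫⁻ s, C s := by
  set I := mass A α β with hI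
  set s : ℝ → ℝ := fun u => (X h u + X k u) / 2 with hs
  set s' : ℝ → ℝ := fun u => ((A (X h u))⁻¹ + (B (X k u))⁻¹) / 2 with hs'
  have hd : ∀ u ∈ Ioo 0 I, HasDerivWithinAt s (s' u) (Ioo 0 I) u := by
    intro u hu
    have h1 := ((hasDerivAt_X h hu).add (hasDerivAt_X k (by rw [← hm]; exact hu))).div_const 2
    exact h1.hasDerivWithinAt
  have hinj : InjOn s (Ioo 0 I) := by
    have : StrictMono s := by
      intro u v huv
      have h1 := strictMono_X h huv
      have h2 := strictMono_X k huv
      simp only [hs]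
      linarith
    exact this.injective.injOn
  refine le_trans ?_ (setLIntegral_le_lintegral (s '' Ioo 0 I) _)
  rw [lintegral_image_eq_lintegral_abs_deriv_mul measurableSet_Ioo hd hinj]
  refine setLIntegral_mono' measurableSet_Ioo fun u hu => ?_
  have hx1 := X_mem h hu
  have hx2 := X_mem k (by rw [← hm]; exact hu)
  have hp := h.pos _ hx1
  have hq := k.pos _ hx2
  have h1 := hC _ hx1 _ hx2
  set p := A (X h u) with hpdef
  set q := B (X k u) with hqdef
  have h2 : s' u = (p⁻¹ + q⁻¹) / 2 := rfl
  have h3 : 0 < s' u := by rw [h2]; positivity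
  rw [abs_of_pos h3]
  refine le_trans ?_ (mul_le_mul_right h1 _)
  rw [← ENNReal.ofReal_mul h3.le, ← ENNReal.ofReal_one,
    ← ENNReal.ofReal_add zero_le_one (by positivity)]
  refine ENNReal.ofReal_le_ofReal (le_of_eq ?_)
  rw [h2]
  have hr : 0 < Real.sqrt (p * q) := Real.sqrt_pos.2 (by positivity)
  have hr2 : Real.sqrt (p * q) ^ 2 = p * q := Real.sq_sqrt (by positivity)
  set r := Real.sqrt (p * q) with hrdef
  have e1 : (p⁻¹ + q⁻¹) / 2 * r = (p + q) / (2 * r) := by
    have : (p⁻¹ + q⁻¹) = (p + q) / (r ^ 2) := by rw [hr2]; field_simp; ring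
    rw [this]
    field_simp
  rw [e1]
  have hd0 : p + q + 2 * r ≠ 0 := by positivity
  field_simp
  nlinarith [hr2]

/-- in the case of equality the values at corresponding quantiles agree -/
theorem eq_val (hm : mass A α β = mass B γ δ) (C : ℝ → ℝ≥0∞)
    (hC : ∀ s ∈ Ioo α β, ∀ t ∈ Ioo γ δ, ENNReal.ofReal (Real.sqrt (A s * B t)) ≤ C ((s + t) / 2))
    (hle : ∫⁻ s, C s ≤ ENNReal.ofReal (mass A α β)) {u : ℝ} (hu : u ∈ Ioo 0 (mass A α β)) :
    A (X h u) = B (X k u) := by
  have ht := transport h k hm C hC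
  set I := mass A α β with hI
  set D : ℝ → ℝ≥0∞ := fun u => ENNReal.ofReal
      ((A (X h u) - B (X k u)) ^ 2 / (2 * Real.sqrt (A (X h u) * B (X k u)) *
        (A (X h u) + B (X k u) + 2 * Real.sqrt (A (X h u) * B (X k u))))) with hD
  have hXc := continuous_X h
  have hXc' := continuous_X k
  have hmeas : Measurable D := by
    have h1 : Measurable fun u => A (X h u) := h.meas.comp hXc.measurable
    have h2 : Measurable fun u => B (X k u) := k.meas.comp hXc'.measurable
    have h3 : Measurable fun u => Real.sqrt (A (X h u) * B (X k u)) := (h1.mul h2).sqrt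
    exact ENNReal.measurable_ofReal.comp
      (((h1.sub h2).pow_const 2).div ((measurable_const.mul h3).mul
        ((h1.add h2).add (measurable_const.mul h3))))
  have h1 : ∫⁻ u in Ioo 0 I, D u = 0 := by
    have h3 : ∫⁻ u in Ioo 0 I, (1 + D u) = ENNReal.ofReal I + ∫⁻ u in Ioo 0 I, D u := by
      rw [lintegral_add_left measurable_const, lintegral_one, Measure.restrict_apply_univ,
        Real.volume_Ioo, sub_zero]
    have h5 : ENNReal.ofReal I + ∫⁻ u in Ioo 0 I, D u ≤ ENNReal.ofReal I + 0 := by
      rw [← h3, add_zero]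
      exact ht.trans hle
    have h6 := (ENNReal.add_le_add_iff_left ENNReal.ofReal_ne_top).1 h5
    exact le_antisymm h6 bot_le
  rw [lintegral_eq_zero_iff hmeas] at h1
  have h2 : volume ({u | A (X h u) ≠ B (X k u)} ∩ Ioo 0 I) = 0 := by
    rw [← Measure.restrict_apply' measurableSet_Ioo]
    have h3 : ∀ᵐ u ∂(volume.restrict (Ioo 0 I)), u ∈ Ioo 0 I := ae_restrict_mem measurableSet_Ioo
    rw [measure_eq_zero_iff_ae_notMem]
    filter_upwards [h1, h3] with u hu1 hu2
    simp only [ne_eq, not_not]
    have hp := h.pos _ (X_mem h hu2)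
    have hq := k.pos _ (X_mem k (by rw [← hm]; exact hu2))
    have h4 := ENNReal.ofReal_eq_zero.1 hu1
    have h5 : (A (X h u) - B (X k u)) ^ 2 ≤ 0 := by
      by_contra hcon
      push Not at hcon
      exact absurd h4 (not_le.2 (by positivity))
    nlinarith [sq_nonneg (A (X h u) - B (X k u))]
  have h3 : IsOpen ({u | A (X h u) ≠ B (X k u)} ∩ Ioo 0 I) := by
    rw [inter_comm]
    have hc1 : ContinuousOn (fun u => A (X h u)) (Ioo 0 I) :=
      h.cont.comp hXc.continuousOn fun u hu => X_mem h hu
    have hc2 : ContinuousOn (fun u => B (X k u)) (Ioo 0 I) :=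
      k.cont.comp hXc'.continuousOn fun u hu => X_mem k (by rw [← hm]; exact hu)
    have h4 : Ioo 0 I ∩ {u | A (X h u) ≠ B (X k u)} =
        Ioo 0 I ∩ (fun u => A (X h u) - B (X k u)) ⁻¹' {0}ᶜ := by
      ext u
      simp only [mem_inter_iff, mem_ofPred_eq, mem_preimage, mem_compl_iff, mem_singleton_iff,
        sub_eq_zero, ne_eq]
    rw [h4]
    exact (hc1.sub hc2).isOpen_inter_preimage isOpen_Ioo isOpen_compl_singleton
  have h4 := (h3.measure_eq_zero_iff volume).1 h2
  by_contra hne
  have : u ∈ ({u | A (X h u) ≠ B (X k u)} ∩ Ioo 0 I) := ⟨hne, hu⟩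
  rw [h4] at this
  exact this

theorem X_shift (hm : mass A α β = mass B γ δ) (C : ℝ → ℝ≥0∞)
    (hC : ∀ s ∈ Ioo α β, ∀ t ∈ Ioo γ δ, ENNReal.ofReal (Real.sqrt (A s * B t)) ≤ C ((s + t) / 2))
    (hle : ∫⁻ s, C s ≤ ENNReal.ofReal (mass A α β)) {u : ℝ} (hu : u ∈ Icc 0 (mass A α β)) :
    X k u - X h u = γ - α := by
  set I := mass A α β with hI
  have hI0 : 0 < I := mass_pos h
  have hc : Continuous fun u => X k u - X h u := (continuous_X k).sub (continuous_X h)
  have h1 : ∀ v ∈ Ioo 0 I, X k v - X h v = X k (I / 2) - X h (I / 2) := by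
    intro v hv
    have hd : DifferentiableOn ℝ (fun u => X k u - X h u) (Ioo 0 I) := fun w hw =>
      ((hasDerivAt_X k (by rw [← hm]; exact hw)).sub
        (hasDerivAt_X h hw)).differentiableAt.differentiableWithinAt
    refine isOpen_Ioo.is_const_of_deriv_eq_zero isPreconnected_Ioo hd ?_ hv
      ⟨by linarith, by linarith⟩
    intro w hw
    have h2 := ((hasDerivAt_X k (by rw [← hm]; exact hw)).sub (hasDerivAt_X h hw)).deriv
    have h3 := eq_val h k hm C hC hle hw
    rw [h3, sub_self] at h2
    simp only [Pi.zero_apply]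
    exact h2
  have h2 : ∀ v ∈ Icc 0 I, X k v - X h v = X k (I / 2) - X h (I / 2) := by
    intro v hv
    have hcl : IsClosed {v | X k v - X h v = X k (I / 2) - X h (I / 2)} :=
      isClosed_eq hc continuous_const
    have h3 : closure (Ioo 0 I) ⊆ {v | X k v - X h v = X k (I / 2) - X h (I / 2)} :=
      hcl.closure_subset_iff.2 h1
    rw [closure_Ioo hI0.ne] at h3
    exact h3 hv
  rw [h2 u hu, ← h2 0 (left_mem_Icc.2 hI0.le), X_zero, X_zero]

/-- the case of equality: the two profiles are translates of each other -/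
theorem shift_eq (hm : mass A α β = mass B γ δ) (C : ℝ → ℝ≥0∞)
    (hC : ∀ s ∈ Ioo α β, ∀ t ∈ Ioo γ δ, ENNReal.ofReal (Real.sqrt (A s * B t)) ≤ C ((s + t) / 2))
    (hle : ∫⁻ s, C s ≤ ENNReal.ofReal (mass A α β)) :
    δ - γ = β - α ∧ ∀ s ∈ Ioo α β, B (s + (γ - α)) = A s := by
  have hI0 : 0 < mass A α β := mass_pos h
  constructor
  · have := X_shift h k hm C hC hle (right_mem_Icc.2 hI0.le)
    have h2 : X k (mass A α β) = δ := by rw [hm]; exact X_mass k
    rw [h2, X_mass] at this
    linarith
  · intro s hs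
    have hu := F_mem h hs
    have h1 := eq_val h k hm C hC hle hu
    have h2 := X_shift h k hm C hC hle (Ioo_subset_Icc_self hu)
    rw [X_F] at h1 h2
    rw [h1, ← h2]
    congr 1
    ring

end

end Pool.Agent.V8H55.MD
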