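import Pool.Agent.V8H55.MD.Half

/-!
# Bodies that are round in two opposite directions are half sums
-/

namespace Pool.Agent.V8H55.MD

open MeasureTheory Set Filter Topology
open scoped ENNReal Pointwise
open Pool.Agent.H349R2.Tet (V tr Bl)
open Pool.Agent.TH219.DL (Body dL dT mn)

/-- a ball of radius `r` inside `K` touches the boundary of `K` at a point with outer normal
vector `u` -/
def Round (K : Set (Fin 3 → ℝ)) (r : ℝ) (u : Fin 3 → ℝ) : Prop :=
  ∃ x ∈ K, (∀ y ∈ K, ip u y ≤ ip u x) ∧
    ∀ z : Fin 3 → ℝ, ip (z - (x - r • u)) (z - (x - r • u)) ≤ r ^ 2 → z ∈ K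

/-- `K` is round in a pair of opposite directions `n`, `-n`: for all unit vectors `u` near `n` or
near `-n` a ball of radius `r` inside `K` touches the boundary of `K` at a point with outer normal
vector `u` -/
def RoundPair (K : Set (Fin 3 → ℝ)) : Prop :=
  ∃ (n : Fin 3 → ℝ) (r δ : ℝ), ip n n = 1 ∧ 0 < r ∧ 0 < δ ∧
    ∀ u : Fin 3 → ℝ, ip u u = 1 →
      (ip (u - n) (u - n) < δ ^ 2 ∨ ip (u + n) (u + n) < δ ^ 2) → Round K r u

theorem round_gap {K : Set V} (hK : IsCompact K) {r : ℝ} {u x : V}
    (hb : ∀ z : V, ip (z - (x - r • u)) (z - (x - r • u)) ≤ r ^ 2 → z ∈ K) {v : V}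
    (hv : ip v v = 1) : ip v x + r * (1 - ip u v) ≤ hs K v := by
  have h1 : x - r • u + r • v ∈ K := by
    apply hb
    have e : x - r • u + r • v - (x - r • u) = r • v := by abel
    rw [e, ip_smul_left, ip_smul, hv]
    nlinarith
  have h2 := le_hs hK v h1
  rw [ip_add, ip_sub, ip_smul, ip_smul, hv, ip_comm v u] at h2
  linarith

/-- the profile of the perturbation -/
noncomputable def ps (c a : ℝ) : ℝ := (max (a - c) 0) ^ 2 - (max (-a - c) 0) ^ 2

/-- its derivative -/
noncomputable def ps' (c a : ℝ) : ℝ := 2 * max (a - c) 0 + 2 * max (-a - c) 0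

theorem ps_neg (c a : ℝ) : ps c (-a) = -ps c a := by
  unfold ps; rw [neg_neg]; ring

theorem ps_zero {c a : ℝ} (h1 : a ≤ c) (h2 : -c ≤ a) : ps c a = 0 := by
  unfold ps
  rw [max_eq_right (by linarith), max_eq_right (by linarith)]; ring

theorem half_sq (c a b : ℝ) :
    0 ≤ (max (b - c) 0) ^ 2 - (max (a - c) 0) ^ 2 - 2 * max (a - c) 0 * (b - a) ∧
    (max (b - c) 0) ^ 2 - (max (a - c) 0) ^ 2 - 2 * max (a - c) 0 * (b - a) ≤ (b - a) ^ 2 := by
  rcases le_total c a with h1 | h1 <;> rcases le_total c b with h2 | h2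
  · rw [max_eq_left (by linarith : 0 ≤ a - c), max_eq_left (by linarith : 0 ≤ b - c)]
    constructor <;> nlinarith [sq_nonneg (b - a)]
  · rw [max_eq_left (by linarith : 0 ≤ a - c), max_eq_right (by linarith : b - c ≤ 0)]
    constructor <;> nlinarith [mul_nonneg (by linarith : 0 ≤ a - c) (by linarith : 0 ≤ c - b)]
  · rw [max_eq_right (by linarith : a - c ≤ 0), max_eq_left (by linarith : 0 ≤ b - c)]
    constructor <;> nlinarith
  · rw [max_eq_right (by linarith : a - c ≤ 0), max_eq_right (by linarith : b - c ≤ 0)]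
    constructor <;> nlinarith

theorem ps_taylor (c a b : ℝ) : |ps c b - ps c a - ps' c a * (b - a)| ≤ (b - a) ^ 2 := by
  obtain ⟨h1, h2⟩ := half_sq c a b
  obtain ⟨h3, h4⟩ := half_sq c (-a) (-b)
  have e : ps c b - ps c a - ps' c a * (b - a) =
      ((max (b - c) 0) ^ 2 - (max (a - c) 0) ^ 2 - 2 * max (a - c) 0 * (b - a)) -
      ((max (-b - c) 0) ^ 2 - (max (-a - c) 0) ^ 2 - 2 * max (-a - c) 0 * (-b - -a)) := by
    unfold ps ps'; ring
  rw [e, abs_le]
  constructor <;> nlinarith

theorem ps_bdd {c a : ℝ} (hc : 0 ≤ c) (h1 : a ≤ 1) (h2 : -1 ≤ a) :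
    |ps c a| ≤ 1 ∧ |ps' c a| ≤ 2 := by
  have a1 : max (a - c) 0 ≤ 1 := max_le (by linarith) zero_le_one
  have a2 : 0 ≤ max (a - c) 0 := le_max_right _ _
  have b1 : max (-a - c) 0 ≤ 1 := max_le (by linarith) zero_le_one
  have b2 : 0 ≤ max (-a - c) 0 := le_max_right _ _
  have hz : max (a - c) 0 = 0 ∨ max (-a - c) 0 = 0 := by
    rcases le_total a 0 with h | h
    · left; exact max_eq_right (by linarith)
    · right; exact max_eq_right (by linarith)
  unfold ps ps'
  rcases hz with h | h
  · rw [h] at *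
    constructor
    · rw [abs_le]; constructor <;> nlinarith
    · rw [abs_le]; constructor <;> nlinarith
  · rw [h] at *
    constructor
    · rw [abs_le]; constructor <;> nlinarith
    · rw [abs_le]; constructor <;> nlinarith

theorem ip_abs_le_one {u v : V} (hu : ip u u = 1) (hv : ip v v = 1) : |ip u v| ≤ 1 := by
  have h := ip_cs u v
  rw [hu, hv] at h
  exact abs_le_one_iff_mul_self_le_one.2 (by nlinarith)

theorem ip_sub_sq {u v : V} (hu : ip u u = 1) (hv : ip v v = 1) :
    ip (u - v) (u - v) = 2 - 2 * ip u v := by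
  rw [ip_sub, ip_sub_left, ip_sub_left, hu, hv, ip_comm v u]; ring

/-- uniform strictness -/
theorem round_unif {K : Set V} (hK : IsCompact K) {r δ c : ℝ} {n : V}
    (hn : ip n n = 1) (hr : 0 < r) (hδ : 0 < δ) (hc : 1 - δ ^ 2 / 4 ≤ c) (hc0 : 0 < c)
    (hR : ∀ u : V, ip u u = 1 → (ip (u - n) (u - n) < δ ^ 2 ∨ ip (u + n) (u + n) < δ ^ 2) →
      Round K r u) :
    ∃ ω : ℝ, 0 < ω ∧ ∀ x ∈ K, ∀ u v : V, ip u u = 1 → ip v v = 1 →
      (∀ y ∈ K, ip u y ≤ ip u x) → δ ^ 2 ≤ ip (u - n) (u - n) → δ ^ 2 ≤ ip (u + n) (u + n) →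
      c ≤ |ip v n| → ip v x + ω ≤ hs K v := by
  set W : Set (V × V × V) := {p | p.1 ∈ K ∧ ip p.2.1 p.2.1 = 1 ∧ ip p.2.2 p.2.2 = 1 ∧
    (∀ y ∈ K, ip p.2.1 y ≤ ip p.2.1 p.1) ∧ δ ^ 2 ≤ ip (p.2.1 - n) (p.2.1 - n) ∧
    δ ^ 2 ≤ ip (p.2.1 + n) (p.2.1 + n) ∧ c ≤ |ip p.2.2 n|} with hW
  have hball : ∀ v : V, ip v v = 1 → v ∈ Metric.closedBall (0 : V) 1 := by
    intro v hv
    apply Pool.Agent.H349R2.Tet.bl_subset_ball 1 zero_le_one
    rw [mem_Bl, hv]; norm_num
  have hsub : W ⊆ K ×ˢ (Metric.closedBall (0 : V) 1 ×ˢ Metric.closedBall (0 : V) 1) := by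
    rintro ⟨x, u, v⟩ ⟨h1, h2, h3, -⟩
    exact ⟨h1, hball u h2, hball v h3⟩
  have c1 : Continuous fun p : V × V × V => p.1 := continuous_fst
  have c2 : Continuous fun p : V × V × V => p.2.1 := continuous_fst.comp continuous_snd
  have c3 : Continuous fun p : V × V × V => p.2.2 := continuous_snd.comp continuous_snd
  have hclosed : IsClosed W := by
    rw [hW]
    apply IsClosed.and (hK.isClosed.preimage c1)
    apply IsClosed.and (isClosed_eq (ip_cont.comp (c2.prodMk c2)) continuous_const)
    apply IsClosed.and (isClosed_eq (ip_cont.comp (c3.prodMk c3)) continuous_const)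
    apply IsClosed.and
    · have : {a : V × V × V | ∀ y ∈ K, ip a.2.1 y ≤ ip a.2.1 a.1} =
          ⋂ y ∈ K, {a : V × V × V | ip a.2.1 y ≤ ip a.2.1 a.1} := by
        ext a; simp
      rw [this]
      exact isClosed_biInter fun y _ => isClosed_le
        (ip_cont.comp (c2.prodMk continuous_const)) (ip_cont.comp (c2.prodMk c1))
    · apply IsClosed.and
      · exact isClosed_le continuous_const
          (ip_cont.comp ((c2.sub continuous_const).prodMk (c2.sub continuous_const)))
      · apply IsClosed.and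
        · exact isClosed_le continuous_const
            (ip_cont.comp ((c2.add continuous_const).prodMk (c2.add continuous_const)))
        · exact isClosed_le continuous_const (ip_cont.comp (c3.prodMk continuous_const)).abs
  have hcomp : IsCompact W :=
    (hK.prod ((isCompact_closedBall _ _).prod (isCompact_closedBall _ _))).of_isClosed_subset
      hclosed hsub
  have hG : Continuous fun p : V × V × V => hs K p.2.2 - ip p.2.2 p.1 :=
    ((hs_cont hK).comp c3).sub (ip_cont.comp (c3.prodMk c1))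
  rcases W.eq_empty_or_nonempty with he | hWne
  · refine ⟨1, one_pos, ?_⟩
    intro x hx u v hu hv hn' h1 h2 h3
    exact absurd (show (x, u, v) ∈ W from ⟨hx, hu, hv, hn', h1, h2, h3⟩) (by rw [he]; exact id)
  · obtain ⟨⟨x0, u0, v0⟩, hp0, hmin⟩ := hcomp.exists_isMinOn hWne hG.continuousOn
    refine ⟨hs K v0 - ip v0 x0, ?_, ?_⟩
    · obtain ⟨h1, h2, h3, h4, h5, h6, h7⟩ := hp0
      simp only at h1 h2 h3 h4 h5 h6 h7
      have hle := le_hs hK v0 h1
      rcases lt_or_eq_of_le hle with hlt | heq
      · linarith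
      · exfalso
        -- a direction between `v0` and `u0`
        set s : ℝ := min (1 / 2) (δ ^ 2 / 16) with hs
        have hs0 : 0 < s := lt_min (by norm_num) (by positivity)
        have hs1 : s ≤ 1 / 2 := min_le_left _ _
        have hs2 : s ≤ δ ^ 2 / 16 := min_le_right _ _
        set w : V := v0 + s • u0 with hw
        have hww : ip w w = 1 + 2 * s * ip u0 v0 + s ^ 2 := by
          rw [hw, ip_add, ip_smul, ip_comm _ v0, ip_comm _ u0, ip_add, ip_add, ip_smul, ip_smul,
            h2, h3, ip_comm v0 u0]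
          ring
        have huv := abs_le.1 (ip_abs_le_one h2 h3)
        have hwpos : 0 < ip w w := by
          rw [hww]; nlinarith [huv.1]
        set L := Real.sqrt (ip w w) with hL
        have hL0 : 0 < L := Real.sqrt_pos.2 hwpos
        have hL2 : L ^ 2 = ip w w := Real.sq_sqrt hwpos.le
        set u' : V := L⁻¹ • w with hu'
        have hu'1 : ip u' u' = 1 := by
          rw [hu', ip_smul_left, ip_smul, ← hL2]; field_simp
        -- `u0 ≠ v0` since `v0` is in the caps
        have hne : ip u0 v0 < 1 := by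
          rcases lt_or_eq_of_le huv.2 with h | h
          · exact h
          · exfalso
            have h8 : ip (u0 - v0) (u0 - v0) = 0 := by rw [ip_sub_sq h2 h3, h]; ring
            have h9 : u0 = v0 := by
              by_contra hne
              exact absurd h8 (ip_self_pos (sub_ne_zero.2 hne)).ne'
            rw [h9, ip_sub_sq h3 hn] at h5
            have h10 : ip (v0 + n) (v0 + n) = 2 + 2 * ip v0 n := by
              rw [ip_add, ip_comm _ v0, ip_comm _ n, ip_add, ip_add, h3, hn, ip_comm n v0]; ring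
            rw [h9, h10] at h6
            rcases abs_cases (ip v0 n) with ⟨h11, -⟩ | ⟨h11, -⟩
            · rw [h11] at h7; nlinarith
            · rw [h11] at h7; nlinarith
        have hL1 : L < 1 + s := by
          apply lt_of_pow_lt_pow_left₀ 2 (by positivity)
          rw [hL2, hww]; nlinarith
        have hLs : 1 - s ≤ L := by
          apply le_of_pow_le_pow_left₀ two_ne_zero hL0.le
          rw [hL2, hww]; nlinarith [huv.1]
        -- `u'` is in the open set
        have hmem : ip (u' - n) (u' - n) < δ ^ 2 ∨ ip (u' + n) (u' + n) < δ ^ 2 := by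
          have hu'n : L * ip u' n = ip v0 n + s * ip u0 n := by
            rw [hu', ip_smul_left, ← mul_assoc, mul_inv_cancel₀ hL0.ne', one_mul, hw,
              ip_comm, ip_add, ip_smul, ip_comm n, ip_comm n]
          have hun := abs_le.1 (ip_abs_le_one h2 hn)
          have e1 : ip (u' - n) (u' - n) = 2 - 2 * ip u' n := ip_sub_sq hu'1 hn
          have e2 : ip (u' + n) (u' + n) = 2 + 2 * ip u' n := by
            rw [ip_add, ip_comm _ u', ip_comm _ n, ip_add, ip_add, hu'1, hn, ip_comm n u']; ring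
          rw [e1, e2]
          have hc1 : c ≤ 1 := h7.trans (ip_abs_le_one h3 hn)
          rcases abs_cases (ip v0 n) with ⟨h11, -⟩ | ⟨h11, -⟩
          · left
            rw [h11] at h7
            have h12 : c - s ≤ L * ip u' n := by rw [hu'n]; nlinarith [hun.1]
            have h13 : c - 2 * s ≤ ip u' n := by
              by_contra hcon
              push Not at hcon
              rcases le_total 0 (c - 2 * s) with h14 | h14
              · have : L * ip u' n < (1 + s) * (c - 2 * s) + 0 := by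
                  have h15 : L * ip u' n < L * (c - 2 * s) := mul_lt_mul_of_pos_left hcon hL0
                  have h16 : L * (c - 2 * s) ≤ (1 + s) * (c - 2 * s) :=
                    mul_le_mul_of_nonneg_right hL1.le h14
                  linarith
                nlinarith
              · have h15 : L * ip u' n < L * (c - 2 * s) := mul_lt_mul_of_pos_left hcon hL0
                have h16 : L * (c - 2 * s) ≤ (1 - s) * (c - 2 * s) := by nlinarith
                nlinarith
            nlinarith
          · right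
            rw [h11] at h7
            have h12 : L * ip u' n ≤ -(c - s) := by rw [hu'n]; nlinarith [hun.2]
            have h13 : ip u' n ≤ -(c - 2 * s) := by
              by_contra hcon
              push Not at hcon
              rcases le_total 0 (c - 2 * s) with h14 | h14
              · have h15 : L * -(c - 2 * s) < L * ip u' n := mul_lt_mul_of_pos_left hcon hL0
                have h16 : L * (c - 2 * s) ≤ (1 + s) * (c - 2 * s) :=
                  mul_le_mul_of_nonneg_right hL1.le h14
                nlinarith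
              · have h15 : L * -(c - 2 * s) < L * ip u' n := mul_lt_mul_of_pos_left hcon hL0
                have h16 : L * (c - 2 * s) ≤ (1 - s) * (c - 2 * s) := by nlinarith
                nlinarith
            nlinarith
        obtain ⟨x', hx', hxm, hb⟩ := hR u' hu'1 hmem
        have g1 := round_gap hK hb h3
        have g2 := round_gap hK hb h2
        have g3 : ip u0 x' + r * (1 - ip u' u0) ≤ ip u0 x0 := by
          refine g2.trans ?_
          obtain ⟨z, hz, hzv⟩ := hs_ex hK ⟨x0, h1⟩ u0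
          rw [← hzv]; exact h4 z hz
        rw [← heq] at g1
        -- combine
        have g4 := hxm x0 h1
        have e3 : ∀ y : V, L * ip u' y = ip v0 y + s * ip u0 y := by
          intro y
          rw [hu', ip_smul_left, ← mul_assoc, mul_inv_cancel₀ hL0.ne', one_mul, hw,
              ip_comm, ip_add, ip_smul, ip_comm y, ip_comm y]
        have g5 : L * ip u' x0 ≤ L * ip u' x' := mul_le_mul_of_nonneg_left g4 hL0.le
        rw [e3, e3] at g5
        have g6 : ip v0 u' + s * ip u0 u' = L := by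
          have := e3 u'
          rw [hu'1, mul_one] at this
          exact this.symm
        rw [ip_comm u' v0] at g1
        rw [ip_comm u' u0] at g3
        have g7 : 0 < r * (1 + s - L) := mul_pos hr (by linarith)
        have g8 : s * (ip u0 x' + r * (1 - ip u0 u')) ≤ s * ip u0 x0 :=
          mul_le_mul_of_nonneg_left g3 hs0.le
        have g9 : r * (ip v0 u' + s * ip u0 u') = r * L := by rw [g6]
        nlinarith
    · intro x hx u v hu hv hn' h1 h2 h3
      have h6 : hs K v0 - ip v0 x0 ≤ hs K v - ip v x :=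
        hmin (show (x, u, v) ∈ W from ⟨hx, hu, hv, hn', h1, h2, h3⟩)
      linarith

/-- the perturbed body -/
def Kt (K : Set V) (c : ℝ) (n : V) (t : ℝ) : Set V :=
  {y | ∀ v : V, ip v v = 1 → ip v y ≤ hs K v + t * ps c (ip v n)}

/-- in every direction the perturbed body reaches as far as it may -/
theorem Kt_ex {K : Set V} (hK : IsCompact K) (hne : K.Nonempty) {r δ c : ℝ}
    {n : V} (hn : ip n n = 1) (hc0 : 0 < c)
    (hR : ∀ u : V, ip u u = 1 → (ip (u - n) (u - n) < δ ^ 2 ∨ ip (u + n) (u + n) < δ ^ 2) →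
      Round K r u) {ω : ℝ} (hω : ∀ x ∈ K, ∀ u v : V, ip u u = 1 → ip v v = 1 →
      (∀ y ∈ K, ip u y ≤ ip u x) → δ ^ 2 ≤ ip (u - n) (u - n) → δ ^ 2 ≤ ip (u + n) (u + n) →
      c ≤ |ip v n| → ip v x + ω ≤ hs K v) (hcδ : 1 - δ ^ 2 / 4 ≤ c) (hδ : 0 < δ)
    {t : ℝ} (ht : |t| ≤ r / 5) (htω : |t| ≤ ω) {u : V} (hu : ip u u = 1) :
    ∃ y ∈ Kt K c n t, ip u y = hs K u + t * ps c (ip u n) := by
  have hun := abs_le.1 (ip_abs_le_one hu hn)
  by_cases hΩ : ip (u - n) (u - n) < δ ^ 2 ∨ ip (u + n) (u + n) < δ ^ 2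
  · obtain ⟨x, hx, hxm, hb⟩ := hR u hu hΩ
    have hxs : ip u x = hs K u := by
      refine le_antisymm (le_hs hK u hx) ?_
      obtain ⟨z, hz, hzv⟩ := hs_ex hK hne u
      rw [← hzv]; exact hxm z hz
    set a := ip u n with ha
    obtain ⟨hb1, hb2⟩ := ps_bdd hc0.le hun.2 hun.1
    refine ⟨x + t • ((ps c a - a * ps' c a) • u + ps' c a • n), ?_, ?_⟩
    · intro v hv
      have hg := round_gap hK hb hv
      set b := ip v n with hb'
      have huv := abs_le.1 (ip_abs_le_one hu hv)
      have e : ip v (x + t • ((ps c a - a * ps' c a) • u + ps' c a • n)) =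
          ip v x + t * ps c b - t * ((ps c b - ps c a - ps' c a * (b - a)) +
            (ps c a - a * ps' c a) * (1 - ip u v)) := by
        rw [ip_add, ip_smul, ip_add, ip_smul, ip_smul, ip_comm v u, ← hb']; ring
      rw [e]
      have h1 : |(ps c b - ps c a - ps' c a * (b - a)) + (ps c a - a * ps' c a) * (1 - ip u v)|
          ≤ 5 * (1 - ip u v) := by
        have h2 := ps_taylor c a b
        have h3 : (b - a) ^ 2 ≤ 2 * (1 - ip u v) := by
          have h4 : b - a = ip (v - u) n := by rw [ip_sub_left]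
          have h5 := ip_cs (v - u) n
          rw [ip_sub_sq hv hu, hn, ← h4, ip_comm v u] at h5
          linarith
        have h4 : |(ps c a - a * ps' c a) * (1 - ip u v)| ≤ 3 * (1 - ip u v) := by
          rw [abs_mul, abs_of_nonneg (by linarith [huv.2] : 0 ≤ 1 - ip u v)]
          apply mul_le_mul_of_nonneg_right _ (by linarith [huv.2])
          have h5 : |a * ps' c a| ≤ 1 * 2 := by
            rw [abs_mul]
            exact mul_le_mul (abs_le.2 hun) hb2 (abs_nonneg _) zero_le_one
          have h6 := abs_sub (ps c a) (a * ps' c a)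
          linarith
        have h7 := abs_add_le (ps c b - ps c a - ps' c a * (b - a))
          ((ps c a - a * ps' c a) * (1 - ip u v))
        linarith
      have h2 : -(r * (1 - ip u v)) ≤ t * ((ps c b - ps c a - ps' c a * (b - a)) +
            (ps c a - a * ps' c a) * (1 - ip u v)) := by
        have h3 : |t * ((ps c b - ps c a - ps' c a * (b - a)) +
            (ps c a - a * ps' c a) * (1 - ip u v))| ≤ r / 5 * (5 * (1 - ip u v)) := by
          rw [abs_mul]
          exact mul_le_mul ht h1 (abs_nonneg _) (le_trans (abs_nonneg _) ht)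
        have h4 := (abs_le.1 h3).1
        linarith
      linarith
    · rw [ip_add, hxs, ip_smul, ip_add, ip_smul, ip_smul, hu, ← ha]; ring
  · push Not at hΩ
    obtain ⟨h1, h2⟩ := hΩ
    obtain ⟨x, hx, hxs⟩ := hs_ex hK hne u
    have hz : ps c (ip u n) = 0 := by
      have e1 : ip (u - n) (u - n) = 2 - 2 * ip u n := ip_sub_sq hu hn
      have e2 : ip (u + n) (u + n) = 2 + 2 * ip u n := by
        rw [ip_add, ip_comm _ u, ip_comm _ n, ip_add, ip_add, hu, hn, ip_comm n u]; ring
      rw [e1] at h1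
      rw [e2] at h2
      apply ps_zero <;> nlinarith
    refine ⟨x, ?_, by rw [hz, mul_zero, add_zero]; exact hxs⟩
    intro v hv
    have hvn := abs_le.1 (ip_abs_le_one hv hn)
    rcases le_or_gt c |ip v n| with h3 | h3
    · have h4 := hω x hx u v hu hv (fun y hy => by rw [hxs]; exact le_hs hK u hy) h1 h2 h3
      obtain ⟨hb1, -⟩ := ps_bdd hc0.le hvn.2 hvn.1
      have h5 : |t * ps c (ip v n)| ≤ ω * 1 := by
        rw [abs_mul]
        exact mul_le_mul htω hb1 (abs_nonneg _) (le_trans (abs_nonneg _) htω)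
      have h6 := (abs_le.1 h5).1
      linarith
    · have h4 := abs_lt.1 h3
      rw [ps_zero h4.2.le h4.1.le, mul_zero, add_zero]
      exact le_hs hK v hx

theorem Kt_body {K : Set V} (hK : Body K) {c : ℝ} (hc : 0 ≤ c) {n : V} (hn : ip n n = 1) :
    ∃ t1 : ℝ, 0 < t1 ∧ ∀ t : ℝ, |t| ≤ t1 → Body (Kt K c n t) := by
  obtain ⟨p, hp⟩ := hK.2.2
  obtain ⟨e, he, hb⟩ := Metric.isOpen_iff.1 isOpen_interior p hp
  refine ⟨e / 4, by positivity, fun t ht => ⟨?_, ?_, ?_⟩⟩
  · have hcl : IsClosed (Kt K c n t) := by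
      have : Kt K c n t = ⋂ v ∈ {v : V | ip v v = 1},
          {y : V | ip v y ≤ hs K v + t * ps c (ip v n)} := by
        ext y; simp [Kt]
      rw [this]
      exact isClosed_biInter fun v _ => isClosed_le (ipc v) continuous_const
    obtain ⟨R, hR⟩ := hK.1.isBounded.exists_norm_le
    refine Metric.isCompact_of_isClosed_isBounded hcl ?_
    rw [isBounded_iff_forall_norm_le]
    have hone : ∀ i : Fin 3, ip (Pi.single i 1 : V) (Pi.single i 1) = 1 := by
      intro i; rw [ip_single]; simp
    refine ⟨max (|R| + e) 0, fun y hy => ?_⟩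
    rw [pi_norm_le_iff_of_nonneg (le_max_right _ _)]
    intro i
    have hbd : ∀ v : V, ip v v = 1 → (∀ x ∈ K, ip v x ≤ |R|) → ip v y ≤ |R| + e := by
      intro v hv hvK
      have h1 := hy v hv
      have hvn := abs_le.1 (ip_abs_le_one hv hn)
      obtain ⟨h2, -⟩ := ps_bdd hc hvn.2 hvn.1
      have h3 : |t * ps c (ip v n)| ≤ e / 4 * 1 := by
        rw [abs_mul]
        exact mul_le_mul ht h2 (abs_nonneg _) (by positivity)
      have h4 := (abs_le.1 h3).2
      obtain ⟨x, hx, hxv⟩ := hs_ex hK.1 (hK.2.2.mono interior_subset) v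
      have h5 := hvK x hx
      linarith
    refine le_trans ?_ (le_max_left _ _)
    rw [Real.norm_eq_abs, abs_le]
    have hKi : ∀ x ∈ K, |x i| ≤ |R| := fun x hx =>
      (norm_le_pi_norm x i).trans ((hR x hx).trans (le_abs_self R))
    constructor
    · have := hbd (-(Pi.single i 1)) (by rw [ip_neg_neg]; exact hone i)
        (fun x hx => by rw [ip_neg_left, ip_single]; linarith [(abs_le.1 (hKi x hx)).1])
      rw [ip_neg_left, ip_single] at this
      linarith
    · have := hbd (Pi.single i 1) (hone i)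
        (fun x hx => by rw [ip_single]; exact (abs_le.1 (hKi x hx)).2)
      rw [ip_single] at this
      exact this
  · intro x hx y hy a b ha hb hab v hv
    rw [ip_add, ip_smul, ip_smul]
    have h1 := mul_le_mul_of_nonneg_left (hx v hv) ha
    have h2 := mul_le_mul_of_nonneg_left (hy v hv) hb
    have h3 : a * (hs K v + t * ps c (ip v n)) + b * (hs K v + t * ps c (ip v n)) =
        hs K v + t * ps c (ip v n) := by rw [← add_mul, hab, one_mul]
    linarith
  · -- a ball around `p`
    refine ⟨p, mem_interior.2 ⟨Metric.ball p (e / 12), ?_, Metric.isOpen_ball,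
      Metric.mem_ball_self (by positivity)⟩⟩
    intro y hy v hv
    have hvn := abs_le.1 (ip_abs_le_one hv hn)
    obtain ⟨h2, -⟩ := ps_bdd hc hvn.2 hvn.1
    have h3 : |t * ps c (ip v n)| ≤ e / 4 * 1 := by
      rw [abs_mul]
      exact mul_le_mul ht h2 (abs_nonneg _) (by positivity)
    have h4 := (abs_le.1 h3).1
    -- `p + (e/2) v ∈ K`
    have hvi : ∀ i, |v i| ≤ 1 := by
      intro i
      have := ip_abs_le_one (u := v) (v := Pi.single i 1) hv (by rw [ip_single]; simp)
      rwa [ip_comm, ip_single] at this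
    have h5 : p + (e / 2) • v ∈ K := by
      apply interior_subset
      apply hb
      rw [Metric.mem_ball, dist_eq_norm, add_sub_cancel_left, norm_smul, Real.norm_eq_abs,
        abs_of_pos (by positivity)]
      have : ‖v‖ ≤ 1 := (pi_norm_le_iff_of_nonneg zero_le_one).2 hvi
      nlinarith
    have h6 := le_hs hK.1 v h5
    rw [ip_add, ip_smul, hv] at h6
    have h7 : ip v y ≤ ip v p + e / 4 := by
      have h8 : ip v y - ip v p = v 0 * (y 0 - p 0) + v 1 * (y 1 - p 1) + v 2 * (y 2 - p 2) := by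
        unfold ip; ring
      have h9 : ∀ i, v i * (y i - p i) ≤ e / 12 := by
        intro i
        have h10 : |y i - p i| ≤ e / 12 := by
          have := norm_le_pi_norm (y - p) i
          rw [Metric.mem_ball, dist_eq_norm] at hy
          exact (this.trans hy.le)
        have h11 : |v i * (y i - p i)| ≤ 1 * (e / 12) := by
          rw [abs_mul]
          exact mul_le_mul (hvi i) h10 (abs_nonneg _) zero_le_one
        linarith [le_abs_self (v i * (y i - p i))]
      have := h9 0
      have := h9 1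
      have := h9 2
      linarith
    linarith

theorem exists_orth {n : V} (hn : ip n n = 1) : ∃ m : V, ip m m = 1 ∧ ip m n = 0 := by
  have key : ∀ w : V, w ≠ 0 → ip w n = 0 → ∃ m : V, ip m m = 1 ∧ ip m n = 0 := by
    intro w hw hwn
    have hp := ip_self_pos hw
    set L := Real.sqrt (ip w w) with hL
    have hL0 : 0 < L := Real.sqrt_pos.2 hp
    have hL2 : L * L = ip w w := Real.mul_self_sqrt hp.le
    refine ⟨L⁻¹ • w, ?_, ?_⟩
    · rw [ip_smul_left, ip_smul, ← hL2]; field_simp
    · rw [ip_smul_left, hwn, mul_zero]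
  by_cases h : n 0 = 0 ∧ n 1 = 0
  · refine key (Pi.single 0 1) ?_ ?_
    · intro h0
      have := congrFun h0 0
      simp at this
    · rw [ip_single]; exact h.1
  · refine key ![-n 1, n 0, 0] ?_ ?_
    · intro h0
      apply h
      have h1 := congrFun h0 0
      have h2 := congrFun h0 1
      simp at h1 h2
      exact ⟨h2, h1⟩
    · simp [ip]; ring

/-- bodies that are round in two opposite directions are half sums -/
theorem round_half {K : Set V} (hK : Body K) {r δ : ℝ} {n : V} (hn : ip n n = 1) (hr : 0 < r)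
    (hδ : 0 < δ)
    (hR : ∀ u : V, ip u u = 1 → (ip (u - n) (u - n) < δ ^ 2 ∨ ip (u + n) (u + n) < δ ^ 2) →
      Round K r u) :
    ∃ K0 K1 : Set V, Body K0 ∧ Body K1 ∧ DLe K K0 ∧ DLe K K1 ∧
      (∀ x ∈ K0, ∀ y ∈ K1, (1 / 2 : ℝ) • x + (1 / 2 : ℝ) • y ∈ K) ∧
      ¬ ∃ g : V, K1 = tr K0 g := by
  have hne : K.Nonempty := hK.2.2.mono interior_subset
  set c : ℝ := max (4 / 5) (1 - δ ^ 2 / 4) with hc
  have hc1 : 4 / 5 ≤ c := le_max_left _ _
  have hc2 : 1 - δ ^ 2 / 4 ≤ c := le_max_right _ _
  have hc3 : c < 1 := max_lt (by norm_num) (by nlinarith [sq_pos_of_pos hδ])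
  have hc0 : 0 < c := by linarith
  obtain ⟨ω, hω0, hω⟩ := round_unif hK.1 hn hr hδ hc2 hc0 hR
  obtain ⟨t1, ht1, hbody⟩ := Kt_body hK hc0.le hn
  set t : ℝ := min (r / 5) (min ω t1) with ht
  have ht0 : 0 < t := lt_min (by positivity) (lt_min hω0 ht1)
  have hta : |t| = t := abs_of_pos ht0
  have htr : t ≤ r / 5 := min_le_left _ _
  have htω : t ≤ ω := (min_le_right _ _).trans (min_le_left _ _)
  have htt : t ≤ t1 := (min_le_right _ _).trans (min_le_right _ _)
  have hex : ∀ u : V, ip u u = 1 → ∃ y ∈ Kt K c n t, ip u y = hs K u + t * ps c (ip u n) :=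
    fun u hu => Kt_ex hK.1 hne hn hc0 hR hω hc2 hδ (by rw [hta]; exact htr)
      (by rw [hta]; exact htω) hu
  have hex' : ∀ u : V, ip u u = 1 → ∃ y ∈ Kt K c n (-t), ip u y = hs K u + -t * ps c (ip u n) :=
    fun u hu => Kt_ex hK.1 hne hn hc0 hR hω hc2 hδ (by rw [abs_neg, hta]; exact htr)
      (by rw [abs_neg, hta]; exact htω) hu
  have hB0 : Body (Kt K c n t) := hbody t (by rw [hta]; exact htt)
  have hB1 : Body (Kt K c n (-t)) := hbody (-t) (by rw [abs_neg, hta]; exact htt)
  -- the difference bodies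
  have hD : ∀ τ : ℝ, Body (Kt K c n τ) →
      (∀ u : V, ip u u = 1 → ∃ y ∈ Kt K c n τ, ip u y = hs K u + τ * ps c (ip u n)) →
      DLe K (Kt K c n τ) := by
    intro τ hB hexτ x hx y hy
    set DA : Set V := (fun p : V × V => p.1 - p.2) '' (Kt K c n τ ×ˢ Kt K c n τ) with hDA
    have hDAc : IsCompact DA := (hB.1.prod hB.1).image (by fun_prop)
    have hDAv : Convex ℝ DA := by
      rintro _ ⟨⟨x, y⟩, ⟨hx, hy⟩, rfl⟩ _ ⟨⟨x', y'⟩, ⟨hx', hy'⟩, rfl⟩ a b ha hb hab
      refine ⟨(a • x + b • x', a • y + b • y'), ⟨hB.2.1 hx hx' ha hb hab,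
        hB.2.1 hy hy' ha hb hab⟩, ?_⟩
      simp only
      module
    have hDAne : DA.Nonempty := by
      obtain ⟨a, ha⟩ := hB.2.2.mono interior_subset
      exact ⟨a - a, ⟨(a, a), ⟨ha, ha⟩, rfl⟩⟩
    have hmem : x - y ∈ DA := by
      apply mem_of_unit hDAc.isClosed hDAv hDAne
      intro u hu
      obtain ⟨y1, hy1, e1⟩ := hexτ u hu
      obtain ⟨y2, hy2, e2⟩ := hexτ (-u) (by rw [ip_neg_neg]; exact hu)
      refine ⟨y1 - y2, ⟨(y1, y2), ⟨hy1, hy2⟩, rfl⟩, ?_⟩
      have h1 := le_hs hK.1 u hx
      have h2 := le_hs hK.1 (-u) hy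
      rw [ip_neg_left] at e2 h2
      rw [ip_neg_left, ps_neg] at e2
      rw [ip_sub, ip_sub]
      linarith
    obtain ⟨⟨a, a'⟩, ⟨ha, ha'⟩, hae⟩ := hmem
    exact ⟨a, ha, a', ha', hae.symm⟩
  refine ⟨Kt K c n t, Kt K c n (-t), hB0, hB1, hD t hB0 hex, hD (-t) hB1 hex', ?_, ?_⟩
  · intro x hx y hy
    apply mem_of_unit hK.1.isClosed hK.2.1 hne
    intro v hv
    obtain ⟨z, hz, hzv⟩ := hs_ex hK.1 hne v
    refine ⟨z, hz, ?_⟩
    have h1 := hx v hv
    have h2 := hy v hv
    rw [hzv, ip_add, ip_smul, ip_smul]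
    linarith
  · rintro ⟨g, hg⟩
    -- the support functions differ by a linear function
    have hlin : ∀ u : V, ip u u = 1 → ip u g = -(2 * t) * ps c (ip u n) := by
      intro u hu
      obtain ⟨y1, hy1, e1⟩ := hex u hu
      obtain ⟨y2, hy2, e2⟩ := hex' u hu
      have hy2' := hy2
      rw [hg] at hy2'
      obtain ⟨z, hz, hzy⟩ := hy2'
      have h1 := hz u hu
      have h2 : y1 + g ∈ Kt K c n (-t) := by rw [hg]; exact ⟨y1, hy1, rfl⟩
      have h3 := h2 u hu
      have h4 : ip u y2 = ip u z + ip u g := by rw [← hzy]; exact ip_add _ _ _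
      rw [ip_add] at h3
      apply le_antisymm
      · linarith
      · linarith
    obtain ⟨m, hm, hmn⟩ := exists_orth hn
    have hnm : ip n m = 0 := by rw [ip_comm]; exact hmn
    have h35 : ∀ σ : ℝ, σ ^ 2 = 16 / 25 →
        ip ((3 / 5 : ℝ) • n + σ • m) ((3 / 5 : ℝ) • n + σ • m) = 1 ∧
        ip ((3 / 5 : ℝ) • n + σ • m) n = 3 / 5 := by
      intro σ hσ
      constructor
      · rw [ip_add, ip_smul, ip_smul, ip_comm _ n, ip_comm _ m, ip_add, ip_add, ip_smul, ip_smul,
          ip_smul, ip_smul, hn, hm, hnm, hmn]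
        nlinarith
      · rw [ip_comm, ip_add, ip_smul, ip_smul, hn, hnm]; ring
    obtain ⟨a1, a2⟩ := h35 (4 / 5) (by norm_num)
    obtain ⟨b1, b2⟩ := h35 (-(4 / 5)) (by norm_num)
    have e1 := hlin _ a1
    have e2 := hlin _ b1
    rw [a2, ps_zero (by linarith) (by linarith), mul_zero, ip_comm, ip_add, ip_smul, ip_smul] at e1
    rw [b2, ps_zero (by linarith) (by linarith), mul_zero, ip_comm, ip_add, ip_smul, ip_smul] at e2
    have e3 := hlin n hn
    rw [hn] at e3
    have e4 : ip g n = 0 := by linarith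
    rw [ip_comm, e4] at e3
    have e5 : ps c 1 = (1 - c) ^ 2 := by
      unfold ps
      rw [max_eq_left (by linarith), max_eq_right (by linarith)]; ring
    rw [e5] at e3
    have : 0 < 2 * t * (1 - c) ^ 2 := by
      have : 0 < 1 - c := by linarith
      positivity
    linarith

end Pool.Agent.V8H55.MD
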