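import Pool.Agent.V8H55.MD.Quant
import Pool.Agent.V8H55.MD.Diff

/-!
# Horizontal sections of convex bodies in space
-/

namespace Pool.Agent.V8H55.MD

open MeasureTheory Set Filter Topology
open scoped ENNReal Pointwise
open Pool.Agent.H349R2.Tet (V tr)
open Pool.Agent.TH219.DL (Body cs pr cs_cont pr_cs cs_pr pr_cont interior_push)

/-- section at height `s` -/
def sc (K : Set V) (s : ℝ) : Set (Fin 2 → ℝ) := {x | cs s x ∈ K}

/-- area of the section at height `s` -/
noncomputable def ar3 (K : Set V) (s : ℝ) : ℝ := (volume (sc K s)).toReal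

theorem cs_cont' (s : ℝ) : Continuous (fun x : Fin 2 → ℝ => cs s x) :=
  cs_cont.comp (Continuous.prodMk continuous_const continuous_id)

theorem sc_compact {K : Set V} (hK : IsCompact K) (s : ℝ) : IsCompact (sc K s) := by
  have : sc K s = pr '' (K ∩ {y | y 0 = s}) := by
    ext x
    constructor
    · intro hx
      exact ⟨cs s x, ⟨hx, rfl⟩, pr_cs s x⟩
    · rintro ⟨y, ⟨hy, hys⟩, rfl⟩
      have hys' : y 0 = s := hys
      show cs s (pr y) ∈ K
      rw [← hys', cs_pr]; exact hy
  rw [this]
  exact (hK.inter_right (isClosed_eq (continuous_apply 0) continuous_const)).image pr_cont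

theorem cs_comb (a b s t : ℝ) (x y : Fin 2 → ℝ) :
    a • cs s x + b • cs t y = cs (a * s + b * t) (a • x + b • y) := by
  apply Pool.Agent.TH219.DL.cs_ext <;> simp

theorem sc_comb {K : Set V} (hc : Convex ℝ K) {a b s t : ℝ} (ha : 0 ≤ a) (hb : 0 ≤ b)
    (hab : a + b = 1) {x y : Fin 2 → ℝ} (hx : x ∈ sc K s) (hy : y ∈ sc K t) :
    a • x + b • y ∈ sc K (a * s + b * t) := by
  show cs _ _ ∈ K
  rw [← cs_comb]
  exact hc hx hy ha hb hab

theorem sc_convex {K : Set V} (hc : Convex ℝ K) (s : ℝ) : Convex ℝ (sc K s) := by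
  intro x hx y hy a b ha hb hab
  have := sc_comb hc ha hb hab hx hy
  rwa [← add_mul, hab, one_mul] at this

theorem slices {K : Set V} (hK : MeasurableSet K) :
    Measurable (fun s => volume (sc K s)) ∧ volume K = ∫⁻ s : ℝ, volume (sc K s) := by
  have h := volume_preserving_piFinSuccAbove (fun _ : Fin 3 => ℝ) 0
  have h2 := (h.symm _).measure_preimage hK.nullMeasurableSet
  have hm : MeasurableSet ((MeasurableEquiv.piFinSuccAbove (fun _ : Fin 3 => ℝ) 0).symm ⁻¹' K) :=
    (MeasurableEquiv.measurable _) hK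
  have e : ∀ s : ℝ, Prod.mk s ⁻¹' ((MeasurableEquiv.piFinSuccAbove (fun _ : Fin 3 => ℝ) 0).symm ⁻¹' K)
      = sc K s := by
    intro s
    ext x
    simp only [Set.mem_preimage, sc, Set.mem_ofPred_eq]
    have : (MeasurableEquiv.piFinSuccAbove (fun _ : Fin 3 => ℝ) 0).symm (s, x) = cs s x := by
      funext i
      fin_cases i <;> rfl
    rw [this]
  constructor
  · have := measurable_measure_prodMk_left (ν := (volume : Measure (Fin 2 → ℝ))) hm
    simp_rw [e] at this
    exact this
  · rw [← h2]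
    have h3 := Measure.prod_apply (μ := (volume : Measure ℝ))
      (ν := (volume : Measure (Fin 2 → ℝ))) hm
    rw [Measure.volume_eq_prod]
    refine Eq.trans h3 ?_
    apply lintegral_congr
    intro s
    rw [e]

theorem sc_proj {K : Set V} (hK : Body K) : ∃ α β : ℝ, α < β ∧
    (∀ s, (sc K s).Nonempty ↔ s ∈ Icc α β) ∧ (∀ s ∈ Ioo α β, 0 < volume (sc K s)) := by
  obtain ⟨hc, hv, c, hci⟩ := hK
  have hne : K.Nonempty := ⟨c, interior_subset hci⟩
  have h0 : Continuous (fun x : V => x 0) := continuous_apply 0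
  obtain ⟨p, hp, hpm⟩ := hc.exists_isMinOn hne h0.continuousOn
  obtain ⟨q, hq, hqm⟩ := hc.exists_isMaxOn hne h0.continuousOn
  have hpm' : ∀ x ∈ K, p 0 ≤ x 0 := fun x hx => hpm hx
  have hqm' : ∀ x ∈ K, x 0 ≤ q 0 := fun x hx => hqm hx
  have hcp : p 0 < c 0 := by
    obtain ⟨ε, hε, h1⟩ := interior_push hci (cs (-1) 0)
    have := hpm' _ h1
    simp at this
    linarith
  have hcq : c 0 < q 0 := by
    obtain ⟨ε, hε, h1⟩ := interior_push hci (cs 1 0)
    have := hqm' _ h1
    simp at this
    linarith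
  refine ⟨p 0, q 0, hcp.trans hcq, ?_, ?_⟩
  · intro s
    constructor
    · rintro ⟨x, hx⟩
      exact ⟨hpm' _ hx, hqm' _ hx⟩
    · rintro ⟨h1, h2⟩
      have hd : 0 < q 0 - p 0 := by linarith
      set l := (s - p 0) / (q 0 - p 0) with hl
      have hl0 : 0 ≤ l := div_nonneg (by linarith) hd.le
      have hl1 : l ≤ 1 := by rw [hl, div_le_one hd]; linarith
      have hmem : (1 - l) • p + l • q ∈ K := hv hp hq (by linarith) hl0 (by ring)
      refine ⟨pr ((1 - l) • p + l • q), ?_⟩
      show cs s _ ∈ K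
      have e : s = ((1 - l) • p + l • q) 0 := by
        simp only [Pi.add_apply, Pi.smul_apply, smul_eq_mul]
        rw [hl]; field_simp; ring
      rw [e, cs_pr]
      exact hmem
  · intro s hs
    have key : ∀ z ∈ K, ∀ l : ℝ, 0 < l → l ≤ 1 → s = (1 - l) * z 0 + l * c 0 →
        0 < volume (sc K s) := by
      intro z hz l hl0 hl1 e
      have hmem : (1 - l) • z + l • c ∈ interior K :=
        hv.combo_self_interior_mem_interior hz hci (by linarith) hl0 (by ring)
      have hopen : IsOpen ((fun x : Fin 2 → ℝ => cs s x) ⁻¹' interior K) :=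
        isOpen_interior.preimage (cs_cont' s)
      have hmem2 : pr ((1 - l) • z + l • c) ∈ (fun x : Fin 2 → ℝ => cs s x) ⁻¹' interior K := by
        show cs s _ ∈ interior K
        have e2 : s = ((1 - l) • z + l • c) 0 := by
          simp only [Pi.add_apply, Pi.smul_apply, smul_eq_mul]
          exact e
        rw [e2, cs_pr]
        exact hmem
      refine lt_of_lt_of_le (hopen.measure_pos volume ⟨_, hmem2⟩) (measure_mono ?_)
      intro x hx
      have hx' : cs s x ∈ interior K := hx
      show cs s x ∈ K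
      exact interior_subset hx'
    rcases le_total s (c 0) with h1 | h1
    · have hd : 0 < c 0 - p 0 := by linarith
      refine key p hp ((s - p 0) / (c 0 - p 0)) (div_pos (by linarith [hs.1]) hd)
        (by rw [div_le_one hd]; linarith) ?_
      field_simp
      ring
    · have hd : 0 < q 0 - c 0 := by linarith
      refine key q hq ((q 0 - s) / (q 0 - c 0)) (div_pos (by linarith [hs.2]) hd)
        (by rw [div_le_one hd]; linarith) ?_
      field_simp
      ring

theorem sqrt_concave {K : Set V} (hK : IsCompact K) (hv : Convex ℝ K) {α β : ℝ}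
    (hsec : ∀ s, (sc K s).Nonempty ↔ s ∈ Icc α β) :
    ConcaveOn ℝ (Icc α β) (fun s => Real.sqrt (ar3 K s)) := by
  refine ⟨convex_Icc α β, ?_⟩
  intro s hs t ht a b ha hb hab
  simp only [smul_eq_mul]
  have hBM := Pool.Agent.H748R2.KB.t_BM 2 (a • sc K s) (b • sc K t)
    ((sc_compact hK s).smul _) ((sc_compact hK t).smul _) (((hsec s).2 hs).smul_set)
    (((hsec t).2 ht).smul_set)
    (a * Real.sqrt (ar3 K s)) (b * Real.sqrt (ar3 K t))
    (mul_nonneg ha (Real.sqrt_nonneg _)) (mul_nonneg hb (Real.sqrt_nonneg _))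
  have e : ∀ (s : ℝ) (S : Set (Fin 2 → ℝ)), 0 ≤ s → (s * Real.sqrt (volume S).toReal) ^ 2
      ≤ (volume (s • S)).toReal := by
    intro s S hs
    rw [Measure.addHaar_smul, mul_pow, Real.sq_sqrt ENNReal.toReal_nonneg]
    have : Module.finrank ℝ (Fin 2 → ℝ) = 2 := by simp
    rw [this, abs_of_nonneg (by positivity), ENNReal.toReal_mul,
      ENNReal.toReal_ofReal (by positivity)]
  have h3 := hBM (e _ _ ha) (e _ _ hb)
  have h4 : (a * Real.sqrt (ar3 K s) + b * Real.sqrt (ar3 K t)) ^ 2
      ≤ ar3 K (a * s + b * t) := by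
    refine h3.trans ?_
    apply ENNReal.toReal_mono (sc_compact hK _).measure_ne_top
    apply measure_mono
    rintro _ ⟨_, ⟨p, hp, rfl⟩, _, ⟨q, hq, rfl⟩, rfl⟩
    exact sc_comb hv ha hb hab hp hq
  exact Real.le_sqrt_of_sq_le h4

theorem sc_bdd {K : Set V} (hK : IsCompact K) : ∃ C : ℝ, ∀ s, ar3 K s ≤ C := by
  refine ⟨(volume (pr '' K)).toReal, fun s => ?_⟩
  apply ENNReal.toReal_mono (hK.image pr_cont).measure_ne_top
  apply measure_mono
  intro x hx
  exact ⟨cs s x, hx, pr_cs s x⟩

theorem exists_prf {K : Set V} (hK : Body K) : ∃ α β : ℝ, Prf (ar3 K) α β ∧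
    (∀ s, (sc K s).Nonempty ↔ s ∈ Icc α β) ∧ mass (ar3 K) α β = (volume K).toReal ∧
    (∀ s, s ∉ Icc α β → ar3 K s = 0) := by
  obtain ⟨α, β, h1, h2, h3⟩ := sc_proj hK
  have hcont : ContinuousOn (ar3 K) (Ioo α β) := by
    have h4 := ((sqrt_concave hK.1 hK.2.1 h2).subset Ioo_subset_Icc_self
      (convex_Ioo α β)).continuousOn isOpen_Ioo
    have h5 : ContinuousOn (fun s => Real.sqrt (ar3 K s) ^ 2) (Ioo α β) := h4.pow 2
    refine h5.congr fun s _ => ?_
    exact (Real.sq_sqrt ENNReal.toReal_nonneg).symm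
  have hP : Prf (ar3 K) α β := by
    refine ⟨h1, ?_, hcont, (slices hK.1.measurableSet).1.ennreal_toReal, sc_bdd hK.1⟩
    intro s hs
    exact ENNReal.toReal_pos (h3 s hs).ne' (sc_compact hK.1 s).measure_ne_top
  have hz : ∀ s, s ∉ Icc α β → sc K s = ∅ := by
    intro s hs
    by_contra hne
    exact hs ((h2 s).1 (nonempty_iff_ne_empty.2 hne))
  refine ⟨α, β, hP, h2, ?_, ?_⟩
  · have h4 : volume K = ∫⁻ s in Ioo α β, ENNReal.ofReal (ar3 K s) := by
      rw [(slices hK.1.measurableSet).2, ← lintegral_indicator measurableSet_Ioo]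
      refine lintegral_congr_ae ?_
      have h5 : ∀ᵐ s : ℝ, s ∉ ({α, β} : Set ℝ) :=
        measure_eq_zero_iff_ae_notMem.1 ((Set.toFinite {α, β}).measure_zero _)
      filter_upwards [h5] with s hs
      by_cases hm : s ∈ Ioo α β
      · rw [indicator_of_mem hm]
        exact (ENNReal.ofReal_toReal (sc_compact hK.1 s).measure_ne_top).symm
      · rw [indicator_of_notMem hm, hz s, measure_empty]
        intro h3
        simp only [mem_insert_iff, mem_singleton_iff, not_or] at hs
        exact hm ⟨lt_of_le_of_ne h3.1 (Ne.symm hs.1), lt_of_le_of_ne h3.2 hs.2⟩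
    rw [lint_mass hP] at h4
    rw [h4, ENNReal.toReal_ofReal (mass_pos hP).le]
  · intro s hs
    unfold ar3
    rw [hz s hs, measure_empty, ENNReal.toReal_zero]

theorem moment {K : Set V} (hK : IsCompact K) :
    ∫ y in K, y 0 = ∫ s : ℝ, s * ar3 K s := by
  have hint : Integrable (K.indicator fun y : V => y 0) := by
    rw [integrable_indicator_iff hK.measurableSet]
    exact (continuous_apply 0).continuousOn.integrableOn_compact hK
  rw [← integral_indicator hK.measurableSet]
  have hmp := (volume_preserving_piFinSuccAbove (fun _ : Fin 3 => ℝ) 0).symm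
  have h1 := hmp.integral_comp' (g := K.indicator fun y : V => y 0)
  rw [← h1]
  have hint2 : Integrable (fun z : ℝ × (Fin 2 → ℝ) => K.indicator (fun y : V => y 0)
      ((MeasurableEquiv.piFinSuccAbove (fun _ : Fin 3 => ℝ) 0).symm z)) :=
    hmp.integrable_comp_of_integrable hint
  rw [Measure.volume_eq_prod] at hint2 ⊢
  rw [integral_prod _ hint2]
  congr 1
  funext s
  have e : ∀ x : Fin 2 → ℝ, (MeasurableEquiv.piFinSuccAbove (fun _ : Fin 3 => ℝ) 0).symm (s, x)
      = cs s x := by
    intro x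
    funext i
    fin_cases i <;> rfl
  have h2 : (fun x : Fin 2 → ℝ => K.indicator (fun y : V => y 0)
      ((MeasurableEquiv.piFinSuccAbove (fun _ : Fin 3 => ℝ) 0).symm (s, x))) =
      (sc K s).indicator fun _ => s := by
    funext x
    rw [e]
    by_cases hr : cs s x ∈ K
    · rw [indicator_of_mem hr, indicator_of_mem (show x ∈ sc K s from hr)]
      rfl
    · rw [indicator_of_notMem hr, indicator_of_notMem (show x ∉ sc K s from hr)]
  rw [h2, integral_indicator (sc_compact hK s).measurableSet, setIntegral_const]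
  simp only [smul_eq_mul, Measure.real, ar3]
  ring

end Pool.Agent.V8H55.MD
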