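import Pool.Agent.V8H55.MD.BMEq

/-!
# Smooth convex bodies: the inner parallel body relative to the difference body
-/

namespace Pool.Agent.V8H55.MD

open MeasureTheory Set Filter Topology
open scoped ENNReal Pointwise
open Pool.Agent.H349R2.Tet (V tr Bl)
open Pool.Agent.TH219.DL (Body interior_push)

/-- `K` is smooth: at every point of `K` any two outer normal vectors are positive multiples of
each other (so there is only one supporting plane at every boundary point) -/
def Smooth (K : Set (Fin 3 → ℝ)) : Prop :=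
  ∀ x ∈ K, ∀ u v : Fin 3 → ℝ, u ≠ 0 → v ≠ 0 → (∀ y ∈ K, ip u y ≤ ip u x) →
    (∀ y ∈ K, ip v y ≤ ip v x) → ∃ c : ℝ, 0 < c ∧ v = c • u

/-- support function -/
noncomputable def hs (K : Set V) (v : V) : ℝ := sSup ((fun y => ip v y) '' K)

theorem ipc (v : V) : Continuous (fun x : V => ip v x) :=
  ip_cont.comp (Continuous.prodMk continuous_const continuous_id)

theorem hs_bdd {K : Set V} (hK : IsCompact K) (v : V) : BddAbove ((fun y => ip v y) '' K) :=
  (hK.image (ipc v)).bddAbove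

theorem le_hs {K : Set V} (hK : IsCompact K) (v : V) {x : V} (hx : x ∈ K) : ip v x ≤ hs K v :=
  le_csSup (hs_bdd hK v) ⟨x, hx, rfl⟩

theorem hs_ex {K : Set V} (hK : IsCompact K) (hne : K.Nonempty) (v : V) :
    ∃ x ∈ K, ip v x = hs K v := by
  obtain ⟨x, hx, hxm⟩ := hK.exists_isMaxOn hne (ipc v).continuousOn
  refine ⟨x, hx, le_antisymm (le_hs hK v hx) ?_⟩
  apply csSup_le (hne.image _)
  rintro _ ⟨y, hy, rfl⟩
  exact hxm hy

theorem hs_cont {K : Set V} (hK : IsCompact K) : Continuous (hs K) := by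
  have h := hK.continuous_sSup (f := fun (v y : V) => ip v y) ip_cont
  exact h

theorem ip_self_nonneg (v : V) : 0 ≤ ip v v := by
  unfold ip; nlinarith [sq_nonneg (v 0), sq_nonneg (v 1), sq_nonneg (v 2)]

theorem ip_self_pos {v : V} (hv : v ≠ 0) : 0 < ip v v := by
  obtain ⟨j, hj⟩ : ∃ j, v j ≠ 0 := by
    by_contra h
    push Not at h
    exact hv (funext h)
  have h0 := mul_self_nonneg (v 0)
  have h1 := mul_self_nonneg (v 1)
  have h2 := mul_self_nonneg (v 2)
  have hj2 : 0 < v j * v j := mul_self_pos.2 hj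
  unfold ip
  fin_cases j
  · have : 0 < v 0 * v 0 := hj2
    linarith
  · have : 0 < v 1 * v 1 := hj2
    linarith
  · have : 0 < v 2 * v 2 := hj2
    linarith

theorem ip_cs (u v : V) : ip u v ^ 2 ≤ ip u u * ip v v := by
  unfold ip
  nlinarith [sq_nonneg (u 0 * v 1 - u 1 * v 0), sq_nonneg (u 0 * v 2 - u 2 * v 0),
    sq_nonneg (u 1 * v 2 - u 2 * v 1)]

theorem ip_le {u v : V} {a b : ℝ} (ha : 0 ≤ a) (hb : 0 ≤ b) (hu : ip u u ≤ a ^ 2)
    (hv : ip v v ≤ b ^ 2) : ip u v ≤ a * b := by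
  have h1 := ip_cs u v
  have h2 : ip u u * ip v v ≤ a ^ 2 * b ^ 2 :=
    mul_le_mul hu hv (ip_self_nonneg v) (sq_nonneg a)
  have h3 : ip u v ^ 2 ≤ (a * b) ^ 2 := by rw [mul_pow]; exact h1.trans h2
  exact le_trans (le_abs_self _) (abs_le_of_sq_le_sq h3 (mul_nonneg ha hb))

theorem mem_Bl {x : V} {r : ℝ} : x ∈ Bl r ↔ ip x x ≤ r ^ 2 := by
  show x 0 ^ 2 + x 1 ^ 2 + x 2 ^ 2 ≤ r ^ 2 ↔ _
  unfold ip
  constructor <;> intro h <;> nlinarith

theorem ip_comm (u v : V) : ip u v = ip v u := by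
  unfold ip; ring

theorem ip_smul_left (a : ℝ) (u v : V) : ip (a • u) v = a * ip u v := by
  rw [ip_comm, ip_smul, ip_comm]

theorem ip_sub_left (u v x : V) : ip (u - v) x = ip u x - ip v x := by
  rw [ip_comm, ip_sub, ip_comm u, ip_comm v]

theorem ip_neg_neg (u : V) : ip (-u) (-u) = ip u u := by
  unfold ip; simp

theorem ip_neg_right (u v : V) : ip u (-v) = -ip u v := by
  unfold ip; simp; ring

/-- a point is in a closed convex set if it is so in every direction of unit length -/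
theorem mem_of_unit {A : Set V} (hA : IsClosed A) (hc : Convex ℝ A) (hne : A.Nonempty) {b : V}
    (h : ∀ v : V, ip v v = 1 → ∃ a ∈ A, ip v b ≤ ip v a) : b ∈ A := by
  have hsub : ({b} : Set V) ⊆ A := by
    apply sub_of_ip hA hc
    rintro v _ rfl
    rcases eq_or_ne v 0 with rfl | hv
    · obtain ⟨a, ha⟩ := hne
      exact ⟨a, ha, by simp [ip]⟩
    · have hp := ip_self_pos hv
      set l := Real.sqrt (ip v v) with hl
      have hl0 : 0 < l := Real.sqrt_pos.2 hp
      have hl2 : l * l = ip v v := Real.mul_self_sqrt hp.le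
      obtain ⟨a, ha, h1⟩ := h (l⁻¹ • v) (by
        rw [ip_smul_left, ip_smul, ← hl2]; field_simp)
      refine ⟨a, ha, ?_⟩
      rw [ip_smul_left, ip_smul_left] at h1
      exact le_of_mul_le_mul_left h1 (inv_pos.2 hl0)
  exact hsub rfl

/-- uniform strictness for smooth bodies -/
theorem smooth_gap {K : Set V} (hK : IsCompact K) (hS : Smooth K) {s : ℝ}
    (hs0 : 0 < s) : ∃ ω : ℝ, 0 < ω ∧ ∀ x ∈ K, ∀ u v : V, ip u u = 1 → ip v v = 1 →
      (∀ y ∈ K, ip u y ≤ ip u x) → s ^ 2 ≤ ip (v - u) (v - u) → ip v x + ω ≤ hs K v := by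
  set W : Set (V × V × V) := {p | p.1 ∈ K ∧ ip p.2.1 p.2.1 = 1 ∧ ip p.2.2 p.2.2 = 1 ∧
    (∀ y ∈ K, ip p.2.1 y ≤ ip p.2.1 p.1) ∧ s ^ 2 ≤ ip (p.2.2 - p.2.1) (p.2.2 - p.2.1)} with hW
  have hball : ∀ v : V, ip v v = 1 → v ∈ Metric.closedBall (0 : V) 1 := by
    intro v hv
    apply Pool.Agent.H349R2.Tet.bl_subset_ball 1 zero_le_one
    rw [mem_Bl, hv]; norm_num
  have hsub : W ⊆ K ×ˢ (Metric.closedBall (0 : V) 1 ×ˢ Metric.closedBall (0 : V) 1) := by
    rintro ⟨x, u, v⟩ ⟨h1, h2, h3, -, -⟩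
    exact ⟨h1, hball u h2, hball v h3⟩
  have c1 : Continuous fun p : V × V × V => p.1 := continuous_fst
  have c2 : Continuous fun p : V × V × V => p.2.1 := continuous_fst.comp continuous_snd
  have c3 : Continuous fun p : V × V × V => p.2.2 := continuous_snd.comp continuous_snd
  have hclosed : IsClosed W := by
    rw [hW]
    apply IsClosed.and (hK.isClosed.preimage c1)
    apply IsClosed.and (isClosed_eq (ip_cont.comp (c2.prodMk c2)) continuous_const)
    apply IsClosed.and (isClosed_eq (ip_cont.comp (c3.prodMk c3)) continuous_const)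
    apply IsClosed.and
    · have : {a : V × V × V | ∀ y ∈ K, ip a.2.1 y ≤ ip a.2.1 a.1} =
          ⋂ y ∈ K, {a : V × V × V | ip a.2.1 y ≤ ip a.2.1 a.1} := by
        ext a; simp
      rw [this]
      exact isClosed_biInter fun y _ => isClosed_le
        (ip_cont.comp (c2.prodMk continuous_const)) (ip_cont.comp (c2.prodMk c1))
    · exact isClosed_le continuous_const (ip_cont.comp ((c3.sub c2).prodMk (c3.sub c2)))
  have hcomp : IsCompact W :=
    (hK.prod ((isCompact_closedBall _ _).prod (isCompact_closedBall _ _))).of_isClosed_subset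
      hclosed hsub
  have hG : Continuous fun p : V × V × V => hs K p.2.2 - ip p.2.2 p.1 :=
    ((hs_cont hK).comp c3).sub (ip_cont.comp (c3.prodMk c1))
  rcases W.eq_empty_or_nonempty with he | hWne
  · refine ⟨1, one_pos, ?_⟩
    intro x hx u v hu hv hn hsn
    exact absurd (show (x, u, v) ∈ W from ⟨hx, hu, hv, hn, hsn⟩) (by rw [he]; exact id)
  · obtain ⟨⟨x0, u0, v0⟩, hp0, hmin⟩ := hcomp.exists_isMinOn hWne hG.continuousOn
    refine ⟨hs K v0 - ip v0 x0, ?_, ?_⟩
    · obtain ⟨h1, h2, h3, h4, h5⟩ := hp0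
      simp only at h1 h2 h3 h4 h5
      have hle := le_hs hK v0 h1
      rcases lt_or_eq_of_le hle with hlt | heq
      · linarith
      · exfalso
        have hu0 : u0 ≠ 0 := by rintro rfl; simp [ip] at h2
        have hv0 : v0 ≠ 0 := by rintro rfl; simp [ip] at h3
        obtain ⟨c, hc, hcv⟩ := hS x0 h1 u0 v0 hu0 hv0 h4
          (fun y hy => by rw [heq]; exact le_hs hK v0 hy)
        have hc1 : c * c = 1 := by
          rw [hcv, ip_smul_left, ip_smul, h2] at h3
          linarith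
        have hc2 : c = 1 := by nlinarith
        rw [hcv, hc2, one_smul, sub_self] at h5
        have : ip (0 : V) 0 = 0 := by simp [ip]
        rw [this] at h5
        nlinarith
    · intro x hx u v hu hv hn hsn
      have h6 : hs K v0 - ip v0 x0 ≤ hs K v - ip v x :=
        hmin (show (x, u, v) ∈ W from ⟨hx, hu, hv, hn, hsn⟩)
      linarith

/-- half of the difference body -/
def Cb (K : Set V) : Set V := {c | ∃ x ∈ K, ∃ y ∈ K, c = (1 / 2 : ℝ) • (x - y)}

/-- the inner parallel body -/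
def At (K : Set V) (t : ℝ) : Set V := {a | ∀ c ∈ Cb K, a + t • c ∈ (1 + t) • K}

theorem Cb_compact {K : Set V} (hK : IsCompact K) : IsCompact (Cb K) := by
  have : Cb K = (fun p : V × V => (1 / 2 : ℝ) • (p.1 - p.2)) '' (K ×ˢ K) := by
    ext c
    constructor
    · rintro ⟨x, hx, y, hy, rfl⟩
      exact ⟨(x, y), ⟨hx, hy⟩, rfl⟩
    · rintro ⟨⟨x, y⟩, ⟨hx, hy⟩, rfl⟩
      exact ⟨x, hx, y, hy, rfl⟩
  rw [this]
  exact (hK.prod hK).image (by fun_prop)

theorem Cb_convex {K : Set V} (hc : Convex ℝ K) : Convex ℝ (Cb K) := by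
  rintro _ ⟨x, hx, y, hy, rfl⟩ _ ⟨x', hx', y', hy', rfl⟩ a b ha hb hab
  refine ⟨a • x + b • x', hc hx hx' ha hb hab, a • y + b • y', hc hy hy' ha hb hab, ?_⟩
  module

theorem zero_mem_Cb {K : Set V} (hne : K.Nonempty) : (0 : V) ∈ Cb K := by
  obtain ⟨x, hx⟩ := hne
  exact ⟨x, hx, x, hx, by simp⟩

theorem At_sub {K : Set V} (hne : K.Nonempty) {t : ℝ} : At K t ⊆ (1 + t) • K := by
  intro a ha
  have := ha 0 (zero_mem_Cb hne)
  simpa using this

theorem At_compact {K : Set V} (hK : IsCompact K) (hne : K.Nonempty) (t : ℝ) :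
    IsCompact (At K t) := by
  have hcl : IsClosed (At K t) := by
    have : At K t = ⋂ c ∈ Cb K, (fun a : V => a + t • c) ⁻¹' ((1 + t) • K) := by
      ext a; simp [At]
    rw [this]
    exact isClosed_biInter fun c _ =>
      (hK.smul (1 + t)).isClosed.preimage (continuous_id.add continuous_const)
  exact (hK.smul (1 + t)).of_isClosed_subset hcl (At_sub hne)

theorem At_convex {K : Set V} (hc : Convex ℝ K) (t : ℝ) : Convex ℝ (At K t) := by
  intro p hp q hq a b ha hb hab c hcc
  have h := (hc.smul (1 + t)) (hp c hcc) (hq c hcc) ha hb hab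
  have e : a • (p + t • c) + b • (q + t • c) = a • p + b • q + t • c := by
    have : a • (p + t • c) + b • (q + t • c) = a • p + b • q + (a + b) • (t • c) := by module
    rw [this, hab, one_smul]
  rwa [e] at h

/-- the main estimate -/
theorem At_mem {K : Set V} (hK : IsCompact K) (hc : Convex ℝ K) (hS : Smooth K)
    {r R : ℝ} (hr : 0 < r) (hrK : Bl r ⊆ K) (hKR : K ⊆ Bl R) (hR : 0 < R) {η : ℝ} (hη : 0 < η)
    (hη1 : η ≤ 1) :
    ∃ t0 : ℝ, 0 < t0 ∧ ∀ t : ℝ, 0 < t → t < t0 → ∀ u x y : V, ip u u = 1 → x ∈ K → y ∈ K →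
      (∀ z ∈ K, ip u z ≤ ip u x) → (∀ z ∈ K, ip u y ≤ ip u z) →
      (1 + t - η * t) • x - t • ((1 / 2 : ℝ) • (x - y)) ∈ At K t := by
  have h0K : (0 : V) ∈ K := hrK (by rw [mem_Bl]; simp [ip]; positivity)
  have hne : K.Nonempty := ⟨0, h0K⟩
  set s := η * r / (4 * R) with hs
  have hs0 : 0 < s := by positivity
  obtain ⟨ω, hω, hgap⟩ := smooth_gap hK hS hs0
  refine ⟨ω / (4 * R), by positivity, ?_⟩
  intro t ht ht0 u x y hu hx hy hxm hym c hcc
  have hCb : ∀ c ∈ Cb K, ip c c ≤ R ^ 2 := by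
    rintro _ ⟨p, hp, q, hq, rfl⟩
    have hp' := mem_Bl.1 (hKR hp)
    have hq' := mem_Bl.1 (hKR hq)
    have hpq : -ip p q ≤ R * R := by
      have := ip_le (u := -p) (v := q) hR.le hR.le (by
        rw [ip_neg_neg]; exact hp') hq'
      rwa [ip_neg_left] at this
    rw [ip_smul_left, ip_smul, ip_sub, ip_sub_left, ip_sub_left, ip_comm q p]
    nlinarith
  obtain ⟨p, hp, q, hq, hcpq⟩ := hcc
  have hcc : c ∈ Cb K := ⟨p, hp, q, hq, hcpq⟩
  set z : V := (1 / 2 : ℝ) • (x - y) with hz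
  have hzC : z ∈ Cb K := ⟨x, hx, y, hy, rfl⟩
  have hcR := hCb c hcc
  have hzR := hCb z hzC
  have hxR := mem_Bl.1 (hKR hx)
  have hcz : ip u c ≤ ip u z := by
    rw [hz, hcpq, ip_smul, ip_smul, ip_sub, ip_sub]
    have := hxm p hp
    have := hym q hq
    linarith
  apply mem_of_unit (hK.smul (1 + t)).isClosed (hc.smul (1 + t)) hne.smul_set
  intro v hv
  obtain ⟨w, hw, hwv⟩ := hs_ex hK hne v
  refine ⟨(1 + t) • w, ⟨w, hw, rfl⟩, ?_⟩
  rw [ip_smul, hwv]
  have e : ip v ((1 + t - η * t) • x - t • z + t • c) =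
      (1 + t - η * t) * ip v x + t * (ip v c - ip v z) := by
    rw [ip_add, ip_sub, ip_smul v (1 + t - η * t) x, ip_smul v t z, ip_smul v t c]; ring
  rw [e]
  have hvx := le_hs hK v hx
  have hneg : ∀ a b : V, ip a a ≤ 1 ^ 2 → ip b b ≤ R ^ 2 → -R ≤ ip a b := by
    intro a b ha hb
    have := ip_le (u := -a) (v := b) zero_le_one hR.le (by
      rw [ip_neg_neg]; exact ha) hb
    rw [ip_neg_left] at this
    linarith
  have hpos : ∀ a b : V, ip a a ≤ 1 ^ 2 → ip b b ≤ R ^ 2 → ip a b ≤ R := by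
    intro a b ha hb
    have := ip_le (u := a) (v := b) zero_le_one hR.le ha hb
    linarith
  have hv1 : ip v v ≤ 1 ^ 2 := by rw [hv]; norm_num
  rcases lt_or_ge (ip (v - u) (v - u)) (s ^ 2) with hnear | hfar
  · -- near directions
    have h1 : ip v c - ip v z ≤ 2 * (s * R) := by
      have h2 : ip (v - u) c ≤ s * R := ip_le hs0.le hR.le hnear.le hcR
      have h3 : ip (v - u) (-z) ≤ s * R := by
        apply ip_le hs0.le hR.le hnear.le
        rw [ip_neg_neg]; exact hzR
      have h4 : ip (v - u) (-z) = -ip (v - u) z := ip_neg_right _ _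
      rw [h4] at h3
      rw [ip_sub_left] at h2 h3
      linarith
    have h5 : r / 2 ≤ ip v x := by
      have h6 : r ≤ ip u x := by
        have h7 : r • u ∈ K := hrK (by
          rw [mem_Bl, ip_smul_left, ip_smul, hu]; nlinarith)
        have h8 := hxm _ h7
        rw [ip_smul, hu] at h8
        linarith
      have h9 : ip (v - u) (-x) ≤ s * R := by
        apply ip_le hs0.le hR.le hnear.le
        rw [ip_neg_neg]; exact hxR
      have h10 : ip (v - u) (-x) = -ip (v - u) x := ip_neg_right _ _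
      rw [h10, ip_sub_left] at h9
      have h11 : s * R ≤ r / 4 := by
        have : s * R = η * r / 4 := by rw [hs]; field_simp
        rw [this]; nlinarith
      linarith
    have h12 : 2 * (s * R) ≤ η * (r / 2) := by
      have : s * R = η * r / 4 := by rw [hs]; field_simp
      rw [this]; linarith
    have h13 : η * (r / 2) ≤ η * ip v x := mul_le_mul_of_nonneg_left h5 hη.le
    nlinarith
  · -- far directions
    have h1 := hgap x hx u v hu hv hxm hfar
    have h2 : ip v c - ip v z ≤ 2 * R := by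
      have h3 := hpos v c hv1 hcR
      have h4 := hneg v z hv1 hzR
      linarith
    have h3 : -R ≤ ip v x := hneg v x hv1 hxR
    have h4 : t * (4 * R) < ω := by
      rw [lt_div_iff₀ (by positivity)] at ht0
      exact ht0
    have h5 : -(η * t) * ip v x ≤ t * R := by
      have h6 : 0 ≤ η * t := by positivity
      have h7 : η * t ≤ t := by nlinarith
      nlinarith
    have h6 : 0 ≤ t * ω := by positivity
    nlinarith

end Pool.Agent.V8H55.MD
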